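import Mathlib

set_option autoImplicit false

/-! ### Basic -/
namespace Pool.Agent.D7

/-- `s` vanishes at infinity (an element of `c_0(I)`). -/
def C0 {I : Type} (s : I → ℝ) : Prop := ∀ ε : ℝ, 0 < ε → {i | ε ≤ |s i|}.Finite

/-! ## The closure operator -/

/-- `A` is closed for the finitary operation `w`. -/
def IsCl {Γ : Type} (w : Finset Γ → Set Γ) (A : Set Γ) : Prop :=
  ∀ F : Finset Γ, (↑F : Set Γ) ⊆ A → w F ⊆ A

/-- The smallest `w`-closed set that contains `A`. -/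
def cl {Γ : Type} (w : Finset Γ → Set Γ) (A : Set Γ) : Set Γ :=
  ⋂₀ {B | A ⊆ B ∧ IsCl w B}

/-! ## Retractions of `K` -/

/-- `A` is admissible: the image of `Φ` is stable under restriction of vectors to `A`. -/
def Adm {K Γ : Type} (Φ : K → Γ → ℝ) (A : Set Γ) : Prop :=
  ∀ k, ∃ k', Φ k' = A.indicator (Φ k)

open Classical in
/-- The map `r_A : K → K` with `Φ (r_A k) = 1_A Φ k` (for admissible `A`). -/
noncomputable def ret {K Γ : Type} (Φ : K → Γ → ℝ) (A : Set Γ) (k : K) : K :=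
  if h : ∃ k', Φ k' = A.indicator (Φ k) then h.choose else k

/-! ## The dual ball -/

/-- The dual unit ball with the weak* topology. -/
abbrev KB (X : Type) [NormedAddCommGroup X] [NormedSpace ℝ X] : Type :=
  {φ : WeakDual ℝ X // ∀ x : X, |φ x| ≤ ‖x‖}

section
variable {X : Type} [NormedAddCommGroup X] [NormedSpace ℝ X]

/-- The zero functional. -/
noncomputable def zeroKB (X : Type) [NormedAddCommGroup X] [NormedSpace ℝ X] : KB X :=
  ⟨0, fun x => by
    have h : (0 : WeakDual ℝ X) x = 0 := rfl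
    rw [h, abs_zero]; exact norm_nonneg x⟩

/-- The midpoint of two functionals of the dual ball. -/
noncomputable def mid (f g : KB X) : KB X :=
  ⟨(1 / 2 : ℝ) • (f.1 + g.1), fun x => by
    have h1 := f.2 x
    have h2 := g.2 x
    have h3 : ((1 / 2 : ℝ) • (f.1 + g.1)) x = (f.1 x + g.1 x) / 2 := by
      show (1 / 2 : ℝ) • (f.1 x + g.1 x) = _
      rw [smul_eq_mul]; ring
    rw [h3, abs_le]
    rw [abs_le] at h1 h2
    constructor <;> linarith⟩

/-- The vectors on which `f` and `r_A f` agree for all `f`. -/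
def XA {Γ : Type} (Φ : KB X → Γ → ℝ) (A : Set Γ) : Set X :=
  {x | ∀ f : KB X, f.1 x = (ret Φ A f).1 x}

/-- The union of the sets `Q F`, `F ⊆ A` finite. -/
def QA {Γ : Type} (Q : Finset Γ → Set X) (A : Set Γ) : Set X :=
  {q | ∃ F : Finset Γ, (↑F : Set Γ) ⊆ A ∧ q ∈ Q F}

/-- The function built from the bump: `ψ = 1 / b ^ 2` on `Ω = {b ≠ 0}`. -/
structure Bump (Ω : Set X) (ψ : X → ℝ) (R : ℝ) : Prop where
  pos : 0 < R
  zero_mem : (0 : X) ∈ Ω
  isOpen : IsOpen Ω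
  bdd : ∀ y ∈ Ω, ‖y‖ ≤ R
  nonneg : ∀ y, 0 ≤ ψ y
  cont : ContinuousOn ψ Ω
  closed : ∀ C : ℝ, IsClosed {y | y ∈ Ω ∧ ψ y ≤ C}
  diff : ∀ y ∈ Ω, ∀ v : X, ∃ a : ℝ, HasDerivAt (fun t : ℝ => ψ (y + t • v)) a 0

/-- `Z_{q,η}(f) = sup_{y ∈ Ω} (f(y) - ψ(y) - η ‖y - q‖)`. -/
noncomputable def Z (Ω : Set X) (ψ : X → ℝ) (q : X) (η : ℝ) (f : KB X) : ℝ :=
  ⨆ y : Ω, (f.1 (y : X) - ψ y - η * ‖(y : X) - q‖)

/-- The closure system: everything that Section 1 provides. -/
structure Sys {Γ : Type} (Φ : KB X → Γ → ℝ) (Ω : Set X) (ψ : X → ℝ)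
    (w : Finset Γ → Set Γ) (Q : Finset Γ → Set X) : Prop where
  cont : Continuous Φ
  inj : Function.Injective Φ
  zero : Φ (zeroKB X) = 0
  wc : ∀ F, (w F).Countable
  qc : ∀ F, (Q F).Countable
  q0 : ∀ F, (0 : X) ∈ Q F
  qmono : ∀ F F' : Finset Γ, F ⊆ F' → Q F ⊆ Q F'
  adm : ∀ A, IsCl w A → Adm Φ A
  qx : ∀ A, IsCl w A → QA Q A ⊆ XA Φ A
  dense : ∀ A, IsCl w A → XA Φ A ⊆ closure (QA Q A)
  det : ∀ A, IsCl w A → ∀ f f' : KB X, (∀ x ∈ XA Φ A, f.1 x = f'.1 x) →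
    ret Φ A f = ret Φ A f'
  g2 : ∀ A, IsCl w A → ∀ g : KB X, (∀ γ, γ ∉ A → Φ g γ = 0) →
    ∀ q ∈ QA Q A, ∀ k : ℕ, 0 < k → ∀ τ : ℝ, ∀ y' ∈ Ω,
      τ < g.1 y' - ψ y' - 1 / (k : ℝ) * ‖y' - q‖ →
      ∃ y ∈ Ω, y ∈ XA Φ A ∧ τ < g.1 y - ψ y - 1 / (k : ℝ) * ‖y - q‖

/-- The functions that are summed in `S_F`: for `k = 0` the normalised square
`f(q)^2 / (1+‖q‖)^2`, for `k > 0` the normalised `Z_{q, 1/k}(f)`. -/
noncomputable def sig (Ω : Set X) (ψ : X → ℝ) (R : ℝ) (q : X) (k : ℕ) (f : KB X) : ℝ :=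
  if k = 0 then (f.1 q) ^ 2 / (1 + ‖q‖) ^ 2
  else (Z Ω ψ q (1 / (k : ℝ)) f + ψ 0 + 1 / (k : ℝ) * ‖q‖) / (R + ψ 0 + 1 / (k : ℝ) * ‖q‖)

/-- `M(x, s) = sup_f (f(x) + Q_s(f))`. -/
noncomputable def Mf {I : Type} (Q : (I → ℝ) → KB X → ℝ) (x : X) (s : I → ℝ) : ℝ :=
  ⨆ f : KB X, (f.1 x + Q s f)

/-- The properties of `Q_s(f)` used in the infimal convolution. -/
structure QData {I : Type} (Q : (I → ℝ) → KB X → ℝ) : Prop where
  nonneg : ∀ s f, 0 ≤ Q s f
  le : ∀ s f (B : ℝ), 0 ≤ B → (∀ i, (s i) ^ 2 ≤ B) → Q s f ≤ B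
  conv : ∀ (s s' : I → ℝ) f (a b : ℝ), C0 s → C0 s' → 0 ≤ a → 0 ≤ b → a + b = 1 →
    Q (a • s + b • s') f ≤ a * Q s f + b * Q s' f
  lip : ∀ (s s' : I → ℝ) f (δ : ℝ), C0 s → C0 s' → 0 ≤ δ →
    (∀ i, (s i) ^ 2 ≤ (s' i) ^ 2 + δ) → Q s f ≤ Q s' f + δ
  usc : ∀ s, C0 s → UpperSemicontinuous (Q s)

/-- The set of all coordinates that occur in the index `i ∈ F`, closed up. -/
def AF {Γ : Type} (w : Finset Γ → Set Γ) (F : Set (List Γ × ℕ)) : Set Γ :=
  cl w {γ | ∃ i ∈ F, γ ∈ i.1}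

end

/-- A countable convex combination. -/
noncomputable def wsum {K : Type} (σ : ℕ → K → ℝ) (f : K) : ℝ :=
  ∑' m : ℕ, (1 / 2 : ℝ) ^ (m + 1) * σ m f

/-! ## Choquet functionals -/

section
variable {I : Type} [DecidableEq I]

/-- A monotone submodular set function with values in `[0,1]`. -/
structure Subm (C : Finset I → ℝ) : Prop where
  empty : C ∅ = 0
  le_one : ∀ F, C F ≤ 1
  mono : ∀ F F', F ⊆ F' → C F ≤ C F'
  sub : ∀ F F' : Finset I, ∀ i, F ⊆ F' → i ∉ F' →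
    C (insert i F') - C F' ≤ C (insert i F) - C F

/-- The value of a list: marginals of `C` times squares of `s`. -/
def V (C : Finset I → ℝ) (s : I → ℝ) : List I → ℝ
  | [] => 0
  | i :: l => V C s l + (C (insert i l.toFinset) - C l.toFinset) * (s i) ^ 2

/-- The Choquet functional of `s ^ 2`. -/
noncomputable def Qc (C : Finset I → ℝ) (s : I → ℝ) : ℝ := ⨆ l : List I, V C s l

/-- The capacity built from a function `S_F(f)`. -/
noncomputable def Cf {K : Type} (S : Finset I → K → ℝ) (f : K) (F : Finset I) : ℝ :=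
  if F = ∅ then 0 else 1 - (1 / 2 : ℝ) ^ F.card - (1 / 16 : ℝ) ^ F.card * S F f

end

/-- What is used of the Hilbert space `ℓ_2(I)`, with its inclusion `j` into `c_0(I)`. -/
structure L2Data {I H : Type} [NormedAddCommGroup H] [InnerProductSpace ℝ H]
    (j : H →ₗ[ℝ] (I → ℝ)) : Prop where
  le : ∀ u i, |j u i| ≤ ‖u‖
  c0 : ∀ u, C0 (j u)
  single : ∀ i, ∃ e : H, (∀ i', i' ≠ i → j e i' = 0) ∧ j e i = 1 ∧ ‖e‖ = 1 ∧
    ∀ u : H, inner ℝ u e = j u i

end Pool.Agent.D7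

/-! ### CL1 -/
namespace Pool.Agent.D7

variable {Γ : Type} {w : Finset Γ → Set Γ}

theorem isCl_univ : IsCl w Set.univ := by
  exact fun F _ => Set.subset_univ _

theorem isCl_inter {A B : Set Γ} (hA : IsCl w A) (hB : IsCl w B) : IsCl w (A ∩ B) := by
  intro F hF
  exact Set.subset_inter (hA F (hF.trans Set.inter_subset_left))
    (hB F (hF.trans Set.inter_subset_right))

theorem isCl_cl (A : Set Γ) : IsCl w (cl w A) := by
  intro F hF
  refine Set.subset_sInter ?_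
  rintro B ⟨hB1, hB2⟩
  exact hB2 F (hF.trans (Set.sInter_subset_of_mem ⟨hB1, hB2⟩))

theorem subset_cl (A : Set Γ) : A ⊆ cl w A := by
  refine Set.subset_sInter ?_
  rintro B ⟨hB1, _⟩
  exact hB1

theorem cl_min {A B : Set Γ} (h : A ⊆ B) (hB : IsCl w B) : cl w A ⊆ B := by
  exact Set.sInter_subset_of_mem ⟨h, hB⟩

theorem cl_mono {A B : Set Γ} (h : A ⊆ B) : cl w A ⊆ cl w B := by
  exact cl_min (h.trans (subset_cl B)) (isCl_cl B)

/-- A finite subset of a directed union lies in a member. -/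
theorem finset_subset_directed {ι : Type} [Nonempty ι] (B : ι → Set Γ)
    (hd : Directed (· ⊆ ·) B) (F : Finset Γ) (hF : (↑F : Set Γ) ⊆ ⋃ i, B i) :
    ∃ i, (↑F : Set Γ) ⊆ B i := by
  classical
  induction F using Finset.induction_on with
  | empty => exact ⟨Classical.arbitrary ι, by simp⟩
  | insert a F _ ih =>
    rw [Finset.coe_insert] at hF
    obtain ⟨i, hi⟩ := ih ((Set.subset_insert _ _).trans hF)
    obtain ⟨j, hj⟩ := Set.mem_iUnion.mp (hF (Set.mem_insert _ _))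
    obtain ⟨k, hk1, hk2⟩ := hd i j
    refine ⟨k, ?_⟩
    rw [Finset.coe_insert]
    exact Set.insert_subset (hk2 hj) (hi.trans hk1)

theorem isCl_directed {ι : Type} [Nonempty ι] (B : ι → Set Γ)
    (hd : Directed (· ⊆ ·) B) (h : ∀ i, IsCl w (B i)) : IsCl w (⋃ i, B i) := by
  intro F hF
  obtain ⟨i, hi⟩ := finset_subset_directed B hd F hF
  exact (h i F hi).trans (Set.subset_iUnion B i)

theorem cl_finitary {A : Set Γ} {γ : Γ} (h : γ ∈ cl w A) :
    ∃ F : Finset Γ, (↑F : Set Γ) ⊆ A ∧ γ ∈ cl w (↑F : Set Γ) := by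
  classical
  have hd : Directed (· ⊆ ·) (fun F : {F : Finset Γ // (↑F : Set Γ) ⊆ A} =>
      cl w (↑F.1 : Set Γ)) := by
    rintro ⟨F, hF⟩ ⟨G, hG⟩
    refine ⟨⟨F ∪ G, ?_⟩, ?_, ?_⟩
    · rw [Finset.coe_union]
      exact Set.union_subset hF hG
    · show cl w (↑F : Set Γ) ⊆ cl w (↑(F ∪ G) : Set Γ)
      rw [Finset.coe_union]
      exact cl_mono Set.subset_union_left
    · show cl w (↑G : Set Γ) ⊆ cl w (↑(F ∪ G) : Set Γ)
      rw [Finset.coe_union]
      exact cl_mono Set.subset_union_right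
  haveI : Nonempty {F : Finset Γ // (↑F : Set Γ) ⊆ A} := ⟨⟨∅, by simp⟩⟩
  have hcl := isCl_directed (w := w) _ hd (fun F => isCl_cl _)
  have hsub : A ⊆ ⋃ F : {F : Finset Γ // (↑F : Set Γ) ⊆ A}, cl w (↑F.1 : Set Γ) := by
    intro x hx
    refine Set.mem_iUnion.mpr ⟨⟨{x}, ?_⟩, ?_⟩
    · rw [Finset.coe_singleton]
      exact Set.singleton_subset_iff.mpr hx
    · refine subset_cl _ ?_
      show x ∈ (↑({x} : Finset Γ) : Set Γ)
      rw [Finset.coe_singleton]
      exact Set.mem_singleton x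
  obtain ⟨F, hF⟩ := Set.mem_iUnion.mp (cl_min hsub hcl h)
  exact ⟨F.1, F.2, hF⟩

theorem cl_directed {ι : Type} [Nonempty ι] (B : ι → Set Γ)
    (hd : Directed (· ⊆ ·) B) : cl w (⋃ i, B i) = ⋃ i, cl w (B i) := by
  apply Set.Subset.antisymm
  · intro γ hγ
    obtain ⟨F, hF, hγF⟩ := cl_finitary hγ
    obtain ⟨i, hi⟩ := finset_subset_directed B hd F hF
    exact Set.mem_iUnion.mpr ⟨i, cl_mono hi hγF⟩
  · exact Set.iUnion_subset fun i => cl_mono (Set.subset_iUnion B i)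

end Pool.Agent.D7

/-! ### CL2 -/
namespace Pool.Agent.D7

variable {Γ : Type} {w : Finset Γ → Set Γ}

theorem countable_finsets {s : Set Γ} (hs : s.Countable) :
    {F : Finset Γ | (↑F : Set Γ) ⊆ s}.Countable := by
  have h := (Set.countable_ofPred_finite_subset hs).preimage_of_injOn
    (f := fun F : Finset Γ => (↑F : Set Γ)) (fun a _ b _ hab => Finset.coe_injective hab)
  refine h.mono ?_
  intro F hF
  exact ⟨F.finite_toSet, hF⟩

/-- One step of the closure. -/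
def cl2_step (w : Finset Γ → Set Γ) (S : Set Γ) : Set Γ :=
  S ∪ ⋃ F ∈ {F : Finset Γ | (↑F : Set Γ) ⊆ S}, w F

/-- The iterated steps. -/
def cl2_seq (w : Finset Γ → Set Γ) (A : Set Γ) : ℕ → Set Γ
  | 0 => A
  | n + 1 => cl2_step w (cl2_seq w A n)

theorem cl2_seq_countable (hw : ∀ F, (w F).Countable) {A : Set Γ} (hA : A.Countable) (n : ℕ) :
    (cl2_seq w A n).Countable := by
  induction n with
  | zero => exact hA
  | succ n ih =>
    exact ih.union ((countable_finsets ih).biUnion fun F _ => hw F)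

theorem cl2_seq_mono (A : Set Γ) : Monotone (cl2_seq w A) :=
  monotone_nat_of_le_succ fun n => Set.subset_union_left

theorem cl2_closed (A : Set Γ) : IsCl w (⋃ n, cl2_seq w A n) := by
  intro F hF
  obtain ⟨i, hi⟩ := finset_subset_directed (cl2_seq w A) (cl2_seq_mono A).directed_le F hF
  intro x hx
  refine Set.mem_iUnion.mpr ⟨i + 1, Or.inr ?_⟩
  exact Set.mem_biUnion (show F ∈ {F : Finset Γ | (↑F : Set Γ) ⊆ cl2_seq w A i} from hi) hx

theorem cl_countable (hw : ∀ F, (w F).Countable) {A : Set Γ} (hA : A.Countable) :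
    (cl w A).Countable := by
  have h : (⋃ n, cl2_seq w A n).Countable :=
    Set.countable_iUnion fun n => cl2_seq_countable hw hA n
  refine h.mono (cl_min ?_ (cl2_closed A))
  exact Set.subset_iUnion (cl2_seq w A) 0

end Pool.Agent.D7

/-! ### KB1 -/
namespace Pool.Agent.D7

variable {X : Type} [NormedAddCommGroup X] [NormedSpace ℝ X]

theorem kb1_set_eq : {φ : WeakDual ℝ X | ∀ x : X, |φ x| ≤ ‖x‖} =
    WeakDual.toStrongDual ⁻¹' Metric.closedBall (0 : StrongDual ℝ X) 1 := by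
  ext φ
  simp only [Set.mem_ofPred_eq, Set.mem_preimage, mem_closedBall_zero_iff]
  constructor
  · intro h
    refine ContinuousLinearMap.opNorm_le_bound _ zero_le_one fun x => ?_
    rw [one_mul, Real.norm_eq_abs]
    exact h x
  · intro h x
    have h1 := ContinuousLinearMap.le_of_opNorm_le _ h x
    rw [one_mul, Real.norm_eq_abs] at h1
    exact h1

instance instCompactKB : CompactSpace (KB X) := by
  have h := WeakDual.isCompact_closedBall (𝕜 := ℝ) (0 : StrongDual ℝ X) 1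
  rw [← kb1_set_eq] at h
  exact isCompact_iff_compactSpace.mp h

instance instT2KB : T2Space (KB X) := by
  infer_instance

instance instNonemptyKB : Nonempty (KB X) := ⟨zeroKB X⟩

theorem KB.continuous_eval (x : X) : Continuous fun f : KB X => f.1 x :=
  (WeakDual.eval_continuous x).comp continuous_subtype_val

theorem KB.ext {f g : KB X} (h : ∀ x, f.1 x = g.1 x) : f = g := by
  apply Subtype.ext
  exact DFunLike.ext _ _ h

theorem zeroKB_apply (x : X) : (zeroKB X).1 x = 0 := rfl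

theorem mid_apply (f g : KB X) (x : X) : (mid f g).1 x = (f.1 x + g.1 x) / 2 := by
  show (1 / 2 : ℝ) • (f.1 x + g.1 x) = _
  rw [smul_eq_mul]; ring

theorem kb1_of_dual (g : StrongDual ℝ X) (hg : ‖g‖ ≤ 1) : ∃ f : KB X, ∀ x, f.1 x = g x := by
  refine ⟨⟨StrongDual.toWeakDual g, fun x => ?_⟩, fun x => rfl⟩
  have h1 := ContinuousLinearMap.le_of_opNorm_le _ hg x
  rw [one_mul, Real.norm_eq_abs] at h1
  exact h1

theorem KB.norming (x : X) : ∃ f : KB X, f.1 x = ‖x‖ := by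
  obtain ⟨g, hg, hx⟩ := exists_dual_vector'' ℝ x
  obtain ⟨f, hf⟩ := kb1_of_dual g hg
  exact ⟨f, by rw [hf, hx]; rfl⟩

theorem KB.hahn (W : Submodule ℝ X) (hW : IsClosed (W : Set X)) (x : X) (hx : x ∉ W) :
    ∃ f : KB X, (∀ z ∈ W, f.1 z = 0) ∧ f.1 x ≠ 0 := by
  obtain ⟨g, u, hgx, hgu⟩ := geometric_hahn_banach_point_closed W.convex hW hx
  have h0 : u < 0 := by
    have := hgu 0 W.zero_mem
    rwa [map_zero] at this
  have hz : ∀ z ∈ W, g z = 0 := by
    intro z hz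
    by_contra hne
    have h1 := hgu ((u / g z) • z) (W.smul_mem _ hz)
    rw [map_smul, smul_eq_mul, div_mul_cancel₀ _ hne] at h1
    exact lt_irrefl _ h1
  have hpos : 0 < ‖g‖ + 1 := by positivity
  have hn : ‖(‖g‖ + 1)⁻¹ • g‖ ≤ 1 := by
    rw [norm_smul, norm_inv, Real.norm_eq_abs, abs_of_pos hpos]
    rw [inv_mul_le_iff₀ hpos]
    linarith
  obtain ⟨f, hf⟩ := kb1_of_dual _ hn
  refine ⟨f, fun z hzW => ?_, ?_⟩
  · rw [hf]
    show (‖g‖ + 1)⁻¹ • g z = 0
    rw [hz z hzW, smul_zero]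
  · rw [hf]
    show (‖g‖ + 1)⁻¹ • g x ≠ 0
    rw [smul_eq_mul]
    exact mul_ne_zero (inv_ne_zero hpos.ne') (by linarith)

end Pool.Agent.D7

/-! ### RT1 -/
namespace Pool.Agent.D7

variable {K Γ : Type} {Φ : K → Γ → ℝ}

theorem Phi_ret {A : Set Γ} (hA : Adm Φ A) (k : K) : Φ (ret Φ A k) = A.indicator (Φ k) := by
  unfold ret
  rw [dif_pos (hA k)]
  exact (hA k).choose_spec

theorem ret_univ (hi : Function.Injective Φ) (k : K) : ret Φ Set.univ k = k := by
  have hA : Adm Φ Set.univ := fun k => ⟨k, by rw [Set.indicator_univ]⟩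
  apply hi
  rw [Phi_ret hA, Set.indicator_univ]

theorem ret_eq_self (hi : Function.Injective Φ) {A : Set Γ} (hA : Adm Φ A) {k : K}
    (h : ∀ γ, γ ∉ A → Φ k γ = 0) : ret Φ A k = k := by
  apply hi
  rw [Phi_ret hA]
  funext γ
  by_cases hγ : γ ∈ A
  · rw [Set.indicator_of_mem hγ]
  · rw [Set.indicator_of_notMem hγ, h γ hγ]

/-- `r_A r_B = r_A` for `A ⊆ B`. -/
theorem ret_ret_left (hi : Function.Injective Φ) {A B : Set Γ} (hA : Adm Φ A) (hB : Adm Φ B)
    (hAB : A ⊆ B) (k : K) : ret Φ A (ret Φ B k) = ret Φ A k := by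
  apply hi
  rw [Phi_ret hA, Phi_ret hB, Phi_ret hA, Set.indicator_indicator, Set.inter_eq_left.mpr hAB]

/-- `r_B r_A = r_A` for `A ⊆ B`. -/
theorem ret_ret_right (hi : Function.Injective Φ) {A B : Set Γ} (hA : Adm Φ A) (hB : Adm Φ B)
    (hAB : A ⊆ B) (k : K) : ret Φ B (ret Φ A k) = ret Φ A k := by
  apply hi
  rw [Phi_ret hB, Phi_ret hA, Set.indicator_indicator, Set.inter_eq_right.mpr hAB]

theorem ret_comm (hi : Function.Injective Φ) {A B : Set Γ} (hA : Adm Φ A) (hB : Adm Φ B) (k : K) :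
    ret Φ A (ret Φ B k) = ret Φ B (ret Φ A k) := by
  apply hi
  rw [Phi_ret hA, Phi_ret hB, Phi_ret hB, Phi_ret hA, Set.indicator_indicator,
    Set.indicator_indicator, Set.inter_comm]

theorem continuous_ret [TopologicalSpace K] [CompactSpace K] (hc : Continuous Φ)
    (hi : Function.Injective Φ) {A : Set Γ} (hA : Adm Φ A) : Continuous (ret Φ A) := by
  rw [(hc.isClosedEmbedding hi).isEmbedding.isInducing.continuous_iff]
  refine continuous_pi fun γ => ?_
  have h : (fun k => (Φ ∘ ret Φ A) k γ) = fun k => A.indicator (Φ k) γ := by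
    funext k
    show Φ (ret Φ A k) γ = _
    rw [Phi_ret hA]
  rw [h]
  by_cases hγ : γ ∈ A
  · have e : (fun k => A.indicator (Φ k) γ) = fun k => Φ k γ := by
      funext k
      rw [Set.indicator_of_mem hγ]
    rw [e]
    exact (continuous_apply γ).comp hc
  · have e : (fun k => A.indicator (Φ k) γ) = fun _ => (0 : ℝ) := by
      funext k
      rw [Set.indicator_of_notMem hγ]
    rw [e]
    exact continuous_const

end Pool.Agent.D7

/-! ### RT2 -/
namespace Pool.Agent.D7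

theorem rt2_dense {K Γ : Type} (Φ : K → Γ → ℝ) (G : Finset Γ) :
    ∃ D : Set K, D.Countable ∧ ∀ k, ∀ ε : ℝ, 0 < ε → ∃ k' ∈ D, ∀ γ ∈ G, |Φ k' γ - Φ k γ| < ε := by
  classical
  let ev : K → (G → ℝ) := fun k γ => Φ k γ
  obtain ⟨s, hs, hd⟩ := TopologicalSpace.exists_countable_dense (Set.range ev)
  have hch : ∀ r : Set.range ev, ∃ k, ev k = r.1 := fun r => r.2
  choose g hg using hch
  refine ⟨g '' s, hs.image g, fun k ε hε => ?_⟩
  obtain ⟨y, hy, hyd⟩ := hd.exists_dist_lt ⟨ev k, k, rfl⟩ hε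
  refine ⟨g y, ⟨y, hy, rfl⟩, fun γ hγ => ?_⟩
  have h1 : dist (ev k) y.1 < ε := hyd
  rw [dist_pi_lt_iff hε] at h1
  have h2 := h1 ⟨γ, hγ⟩
  rw [← hg y, dist_comm, Real.dist_eq] at h2
  exact h2

theorem exists_w1 {K Γ : Type} [TopologicalSpace K] [CompactSpace K] (Φ : K → Γ → ℝ)
    (hc : Continuous Φ) (hcs : ∀ k, {γ | Φ k γ ≠ 0}.Countable) :
    ∃ w : Finset Γ → Set Γ, (∀ F, (w F).Countable) ∧ ∀ A, IsCl w A → Adm Φ A := by
  classical
  choose D hD hDd using fun G : Finset Γ => rt2_dense Φ G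
  refine ⟨fun G => ⋃ k ∈ D G, {γ | Φ k γ ≠ 0}, fun G => (hD G).biUnion fun k _ => hcs k, ?_⟩
  intro A hA f
  let S : Finset Γ × ℕ → Set K :=
    fun p => {k | ∀ γ ∈ p.1, |Φ k γ - A.indicator (Φ f) γ| ≤ 1 / ((p.2 : ℝ) + 1)}
  have hcont : ∀ γ, Continuous fun k => Φ k γ := fun γ => (continuous_apply γ).comp hc
  have hclosed : ∀ p, IsClosed (S p) := by
    intro p
    have h1 : S p = ⋂ γ ∈ p.1, {k | |Φ k γ - A.indicator (Φ f) γ| ≤ 1 / ((p.2 : ℝ) + 1)} := by
      ext k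
      simp [S]
    rw [h1]
    exact isClosed_biInter fun γ _ =>
      isClosed_le ((hcont γ).sub continuous_const).abs continuous_const
  have hne : ∀ p, (S p).Nonempty := by
    intro p
    have hpos : (0 : ℝ) < 1 / ((p.2 : ℝ) + 1) := by positivity
    obtain ⟨k, hk, hkd⟩ := hDd (p.1.filter (· ∈ A)) f _ hpos
    refine ⟨k, fun γ hγ => ?_⟩
    by_cases hγA : γ ∈ A
    · rw [Set.indicator_of_mem hγA]
      exact (hkd γ (Finset.mem_filter.2 ⟨hγ, hγA⟩)).le
    · rw [Set.indicator_of_notMem hγA]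
      have hsub := hA (p.1.filter (· ∈ A)) (fun x hx => (Finset.mem_filter.1 (Finset.mem_coe.1 hx)).2)
      have h0 : Φ k γ = 0 := by
        by_contra hne
        exact hγA (hsub (Set.mem_biUnion hk hne))
      rw [h0, sub_zero, abs_zero]
      exact hpos.le
  have hdir : Directed (· ⊇ ·) S := by
    intro p q
    refine ⟨(p.1 ∪ q.1, max p.2 q.2), ?_, ?_⟩
    · intro k hk γ hγ
      refine (hk γ (Finset.mem_union_left _ hγ)).trans ?_
      have h1 : (p.2 : ℝ) ≤ ((max p.2 q.2 : ℕ) : ℝ) := by exact_mod_cast le_max_left _ _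
      exact one_div_le_one_div_of_le (by positivity) (by linarith)
    · intro k hk γ hγ
      refine (hk γ (Finset.mem_union_right _ hγ)).trans ?_
      have h1 : (q.2 : ℝ) ≤ ((max p.2 q.2 : ℕ) : ℝ) := by exact_mod_cast le_max_right _ _
      exact one_div_le_one_div_of_le (by positivity) (by linarith)
  obtain ⟨k, hk⟩ := IsCompact.nonempty_iInter_of_directed_nonempty_isCompact_isClosed S hdir hne
    (fun p => (hclosed p).isCompact) hclosed
  refine ⟨k, funext fun γ => ?_⟩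
  have hall : ∀ n : ℕ, |Φ k γ - A.indicator (Φ f) γ| ≤ 1 / ((n : ℝ) + 1) := fun n =>
    Set.mem_iInter.1 hk ({γ}, n) γ (Finset.mem_singleton_self γ)
  by_contra hne'
  have hpos : 0 < |Φ k γ - A.indicator (Φ f) γ| := abs_pos.2 (sub_ne_zero.2 hne')
  obtain ⟨n, hn⟩ := exists_nat_one_div_lt hpos
  exact absurd (hall n) (not_le.2 hn)

end Pool.Agent.D7

/-! ### RT3 -/
namespace Pool.Agent.D7

theorem dep_finite {K ι : Type} [TopologicalSpace K] [CompactSpace K] (u : ι → K → ℝ)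
    (hu : ∀ i, Continuous (u i)) (hsep : ∀ k k', (∀ i, u i k = u i k') → k = k')
    (φ : K → ℝ) (hφ : Continuous φ) (ε : ℝ) (hε : 0 < ε) :
    ∃ F : Finset ι, ∀ k k', (∀ i ∈ F, u i k = u i k') → |φ k - φ k'| < ε := by
  have hcl : IsClosed {p : K × K | ε ≤ |φ p.1 - φ p.2|} :=
    isClosed_le continuous_const ((hφ.comp continuous_fst).sub (hφ.comp continuous_snd)).abs
  have hcp : IsCompact {p : K × K | ε ≤ |φ p.1 - φ p.2|} := hcl.isCompact
  have hop : ∀ i, IsOpen {p : K × K | u i p.1 ≠ u i p.2} := fun i =>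
    isOpen_ne_fun ((hu i).comp continuous_fst) ((hu i).comp continuous_snd)
  have hcov : {p : K × K | ε ≤ |φ p.1 - φ p.2|} ⊆ ⋃ i, {p : K × K | u i p.1 ≠ u i p.2} := by
    intro p hp
    by_contra hc
    rw [Set.mem_iUnion] at hc
    push Not at hc
    have h1 : p.1 = p.2 := hsep _ _ fun i => by
      by_contra h2
      exact hc i h2
    have h3 : ε ≤ |φ p.1 - φ p.2| := hp
    rw [h1, sub_self, abs_zero] at h3
    linarith
  obtain ⟨F, hF⟩ := hcp.elim_finite_subcover _ hop hcov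
  refine ⟨F, fun k k' h => ?_⟩
  by_contra hc
  push Not at hc
  have h1 := hF (show (k, k') ∈ {p : K × K | ε ≤ |φ p.1 - φ p.2|} from hc)
  rw [Set.mem_iUnion₂] at h1
  obtain ⟨i, hi, h2⟩ := h1
  exact h2 (h i hi)

theorem dep_countable {K ι : Type} [TopologicalSpace K] [CompactSpace K] (u : ι → K → ℝ)
    (hu : ∀ i, Continuous (u i)) (hsep : ∀ k k', (∀ i, u i k = u i k') → k = k')
    (φ : K → ℝ) (hφ : Continuous φ) :
    ∃ S : Set ι, S.Countable ∧ ∀ k k', (∀ i ∈ S, u i k = u i k') → φ k = φ k' := by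
  choose F hF using fun n : ℕ => dep_finite u hu hsep φ hφ (1 / ((n : ℝ) + 1)) (by positivity)
  refine ⟨⋃ n, (F n : Set ι), Set.countable_iUnion fun n => (F n).countable_toSet, fun k k' h => ?_⟩
  by_contra hne
  have hpos : 0 < |φ k - φ k'| := abs_pos.2 (sub_ne_zero.2 hne)
  obtain ⟨n, hn⟩ := exists_nat_one_div_lt hpos
  have h1 := hF n k k' fun i hi => h i (Set.mem_iUnion.2 ⟨n, hi⟩)
  linarith

end Pool.Agent.D7

/-! ### RT4 -/
namespace Pool.Agent.D7

theorem ret_directed {K Γ : Type} [TopologicalSpace K] [CompactSpace K] {Φ : K → Γ → ℝ}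
    (hc : Continuous Φ) (hi : Function.Injective Φ) {ι : Type} [Nonempty ι] (B : ι → Set Γ)
    (hd : Directed (· ⊆ ·) B) (hB : ∀ i, Adm Φ (B i)) (hU : Adm Φ (⋃ i, B i))
    (θ : K → ℝ) (hθ : Continuous θ) (k : K) (h0 : ∀ i, θ (ret Φ (B i) k) = 0) :
    θ (ret Φ (⋃ i, B i) k) = 0 := by
  classical
  by_contra hne
  have hε : 0 < |θ (ret Φ (⋃ i, B i) k)| := abs_pos.mpr hne
  obtain ⟨F, hF⟩ := dep_finite (fun (γ : Γ) (k : K) => Φ k γ)
    (fun γ => (continuous_apply γ).comp hc) (fun k k' h => hi (funext h)) θ hθ _ hε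
  have hsub : (↑(F.filter (· ∈ ⋃ i, B i)) : Set Γ) ⊆ ⋃ i, B i := by
    intro γ hγ
    exact (Finset.mem_filter.mp (Finset.mem_coe.mp hγ)).2
  obtain ⟨i, hi'⟩ := finset_subset_directed B hd _ hsub
  have h1 := hF (ret Φ (⋃ i, B i) k) (ret Φ (B i) k) (by
    intro γ hγ
    show Φ (ret Φ (⋃ i, B i) k) γ = Φ (ret Φ (B i) k) γ
    rw [Phi_ret hU, Phi_ret (hB i)]
    by_cases hγU : γ ∈ ⋃ i, B i
    · have hγi : γ ∈ B i := hi' (Finset.mem_coe.mpr (Finset.mem_filter.mpr ⟨hγ, hγU⟩))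
      rw [Set.indicator_of_mem hγU, Set.indicator_of_mem hγi]
    · have hγi : γ ∉ B i := fun h => hγU (Set.mem_iUnion.mpr ⟨i, h⟩)
      rw [Set.indicator_of_notMem hγU, Set.indicator_of_notMem hγi])
  rw [h0 i, sub_zero] at h1
  exact lt_irrefl _ h1

theorem exists_dense_seq {K Γ : Type} [TopologicalSpace K] [CompactSpace K] [Nonempty K]
    {Φ : K → Γ → ℝ} (hc : Continuous Φ) (hi : Function.Injective Φ) {A : Set Γ}
    (hA : Adm Φ A) (hAc : A.Countable) :
    ∃ kk : ℕ → K, ∀ θ : K → ℝ, Continuous θ → (∀ n, θ (ret Φ A (kk n)) = 0) →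
      ∀ k, θ (ret Φ A k) = 0 := by
  classical
  have : Countable A := hAc.to_subtype
  let R : K → (A → ℝ) := fun k γ => Φ k γ.1
  have : Nonempty (Set.range R) := (Set.range_nonempty R).to_subtype
  choose kk hkk using fun n => (TopologicalSpace.denseSeq (Set.range R) n).2
  refine ⟨kk, fun θ hθ h0 k => ?_⟩
  let e : (A → ℝ) → (Γ → ℝ) := fun v γ => if h : γ ∈ A then v ⟨γ, h⟩ else 0
  have he : Continuous e := by
    refine continuous_pi fun γ => ?_
    by_cases h : γ ∈ A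
    · simp only [e, h, dite_true]
      exact continuous_apply _
    · simp only [e, h, dite_false]
      exact continuous_const
  have heR : ∀ k, e (R k) = Φ (ret Φ A k) := by
    intro k
    rw [Phi_ret hA]
    funext γ
    by_cases h : γ ∈ A
    · simp [e, R, h]
    · simp [e, h]
  have hcl : IsClosed (e ⁻¹' (Φ '' {k' | θ k' = 0})) := by
    refine IsClosed.preimage he ?_
    exact (hc.isClosedEmbedding hi).isClosedMap _ (isClosed_eq hθ continuous_const)
  have key : ∀ x : Set.range R, e x.1 ∈ Φ '' {k' | θ k' = 0} := by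
    intro x
    refine DenseRange.induction_on (TopologicalSpace.denseRange_denseSeq (Set.range R)) x
      (hcl.preimage continuous_subtype_val) ?_
    intro n
    refine ⟨ret Φ A (kk n), h0 n, ?_⟩
    rw [← heR, hkk n]
  obtain ⟨k', hk', hk2⟩ := key ⟨R k, k, rfl⟩
  have h3 : k' = ret Φ A k := hi (hk2.trans (heR k))
  rw [← h3]
  exact hk'

end Pool.Agent.D7
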