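import Pool.Agent.Lib.MP_d74bc6_an.D01

set_option autoImplicit false

/-! ### TD -/
namespace Pool.Agent.D7

section
variable {K Γ : Type} [LinearOrder Γ]

/-- `cl(l ∪ {β} ∪ Iio β)` -/
def Ap (w : Finset Γ → Set Γ) (l : List Γ) (β : Γ) : Set Γ :=
  cl w ({γ | γ ∈ β :: l} ∪ Set.Iio β)

/-- `cl(l ∪ Iio β)` -/
def Am (w : Finset Γ → Set Γ) (l : List Γ) (β : Γ) : Set Γ :=
  cl w ({γ | γ ∈ l} ∪ Set.Iio β)

/-- `cl(l)` -/
def Al (w : Finset Γ → Set Γ) (l : List Γ) : Set Γ := cl w {γ | γ ∈ l}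

/-- The functions `E_l` of Section 3. -/
noncomputable def Eop (Φ : K → Γ → ℝ) (w : Finset Γ → Set Γ) (φ : K → ℝ) :
    List Γ → K → ℝ
  | [] => φ
  | β :: l => fun k =>
      Eop Φ w φ l (ret Φ (Ap w l β) k) - Eop Φ w φ l (ret Φ (Am w l β) k)

end

end Pool.Agent.D7

/-! ### T1 -/
namespace Pool.Agent.D7

section
variable {K Γ : Type} [LinearOrder Γ] {Φ : K → Γ → ℝ} {w : Finset Γ → Set Γ}

theorem Am_subset_Ap (l : List Γ) (β : Γ) : Am w l β ⊆ Ap w l β := by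
  refine cl_mono ?_
  rintro γ (h | h)
  · exact Or.inl (List.mem_cons_of_mem _ h)
  · exact Or.inr h

theorem Ap_subset_Am (l : List Γ) {β β' : Γ} (h : β < β') : Ap w l β ⊆ Am w l β' := by
  refine cl_mono ?_
  rintro γ (h' | h')
  · rcases List.mem_cons.1 h' with h2 | h2
    · rw [h2]
      exact Or.inr h
    · exact Or.inl h2
  · exact Or.inr (lt_trans h' h)

theorem Ap_eq_Am (l : List Γ) (β : Γ) : Ap w l β = Am w (β :: l) β := by
  rfl

theorem Eop_linear (φ ψ : K → ℝ) (a b : ℝ) (l : List Γ) (k : K) :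
    Eop Φ w (a • φ + b • ψ) l k = a * Eop Φ w φ l k + b * Eop Φ w ψ l k := by
  induction l generalizing k with
  | nil => simp [Eop]
  | cons β l ih =>
    simp only [Eop, ih]
    ring

theorem Eop_bound (φ : K → ℝ) (c : ℝ) (h : ∀ k, |φ k| ≤ c) (l : List Γ) (k : K) :
    |Eop Φ w φ l k| ≤ 2 ^ l.length * c := by
  induction l generalizing k with
  | nil => simpa [Eop] using h k
  | cons β l ih =>
    simp only [Eop, List.length_cons]
    refine (abs_sub _ _).trans ?_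
    have h1 := ih (ret Φ (Ap w l β) k)
    have h2 := ih (ret Φ (Am w l β) k)
    rw [pow_succ]
    linarith

theorem Eop_comp_ret (hi : Function.Injective Φ) (hadm : ∀ A, IsCl w A → Adm Φ A)
    (φ : K → ℝ) {A : Set Γ} (hA : IsCl w A) (l : List Γ) (k : K) :
    Eop Φ w (fun k => φ (ret Φ A k)) l k = Eop Φ w φ l (ret Φ A k) := by
  induction l generalizing k with
  | nil => rfl
  | cons β l ih =>
    simp only [Eop, ih]
    rw [ret_comm hi (hadm A hA) (hadm _ (isCl_cl _) : Adm Φ (Ap w l β)),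
      ret_comm hi (hadm A hA) (hadm _ (isCl_cl _) : Adm Φ (Am w l β))]

theorem Eop_top (hi : Function.Injective Φ) (hadm : ∀ A, IsCl w A → Adm Φ A)
    (φ : K → ℝ) (l : List Γ) (β : Γ) (k : K) :
    Eop Φ w φ (β :: l) (ret Φ (Ap w l β) k) = Eop Φ w φ (β :: l) k := by
  have hp : Adm Φ (Ap w l β) := hadm _ (isCl_cl _)
  have hm : Adm Φ (Am w l β) := hadm _ (isCl_cl _)
  simp only [Eop]
  rw [ret_ret_left hi hp hp (Set.Subset.refl _), ret_ret_left hi hm hp (Am_subset_Ap l β)]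

theorem Eop_continuous [TopologicalSpace K] [CompactSpace K] (hc : Continuous Φ)
    (hi : Function.Injective Φ) (hadm : ∀ A, IsCl w A → Adm Φ A)
    (φ : K → ℝ) (hφ : Continuous φ) (l : List Γ) : Continuous (Eop Φ w φ l) := by
  induction l with
  | nil => exact hφ
  | cons β l ih =>
    have hp : Adm Φ (Ap w l β) := hadm _ (isCl_cl _)
    have hm : Adm Φ (Am w l β) := hadm _ (isCl_cl _)
    exact (ih.comp (continuous_ret hc hi hp)).sub (ih.comp (continuous_ret hc hi hm))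

end

end Pool.Agent.D7

/-! ### T2 -/
namespace Pool.Agent.D7

section
variable {K Γ : Type} [LinearOrder Γ] {Φ : K → Γ → ℝ} {w : Finset Γ → Set Γ}
variable [TopologicalSpace K] [CompactSpace K]

theorem chain_finite (hc : Continuous Φ) (hi : Function.Injective Φ)
    (hadm : ∀ A, IsCl w A → Adm Φ A) (θ : K → ℝ) (hθ : Continuous θ) (l : List Γ) (ε : ℝ)
    (hε : 0 < ε) :
    {β | ∃ k, ε ≤ |θ (ret Φ (Ap w l β) k) - θ (ret Φ (Am w l β) k)|}.Finite := by
  obtain ⟨F, hF⟩ := dep_finite (fun γ k => Φ k γ) (fun γ => (continuous_apply γ).comp hc)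
    (fun k k' h => hi (funext h)) θ hθ ε hε
  have hsub : {β | ∃ k, ε ≤ |θ (ret Φ (Ap w l β) k) - θ (ret Φ (Am w l β) k)|} ⊆
      ⋃ γ ∈ F, {β | γ ∈ Ap w l β ∧ γ ∉ Am w l β} := by
    rintro β ⟨k, hk⟩
    have h1 : ∃ γ ∈ F, Φ (ret Φ (Ap w l β) k) γ ≠ Φ (ret Φ (Am w l β) k) γ := by
      by_contra hcon
      push Not at hcon
      exact absurd (hF _ _ hcon) (not_lt.2 hk)
    obtain ⟨γ, hγ, hne⟩ := h1
    have hAp : Adm Φ (Ap w l β) := hadm _ (isCl_cl _)
    have hAm : Adm Φ (Am w l β) := hadm _ (isCl_cl _)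
    rw [Phi_ret hAp, Phi_ret hAm] at hne
    simp only [Set.mem_iUnion]
    refine ⟨γ, hγ, ?_, ?_⟩
    · by_contra h2
      have h3 : γ ∉ Am w l β := fun h => h2 (Am_subset_Ap l β h)
      exact hne (by rw [Set.indicator_of_notMem h2, Set.indicator_of_notMem h3])
    · intro h3
      have h2 := Am_subset_Ap l β h3
      exact hne (by rw [Set.indicator_of_mem h2, Set.indicator_of_mem h3])
  refine Set.Finite.subset (Set.Finite.biUnion F.finite_toSet (fun γ _ => ?_)) hsub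
  refine Set.Subsingleton.finite ?_
  rintro β ⟨h1, h2⟩ β' ⟨h3, h4⟩
  rcases lt_trichotomy β β' with h | h | h
  · exact absurd (Ap_subset_Am l h h1) h4
  · exact h
  · exact absurd (Ap_subset_Am l h h3) h2

theorem Eop_finite (hc : Continuous Φ) (hi : Function.Injective Φ)
    (hadm : ∀ A, IsCl w A → Adm Φ A) (φ : K → ℝ) (hφ : Continuous φ) (m : ℕ) (ε : ℝ)
    (hε : 0 < ε) :
    {l : List Γ | l.length = m ∧ ∃ k, ε ≤ |Eop Φ w φ l k|}.Finite := by
  induction m generalizing ε with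
  | zero =>
    refine (Set.finite_singleton ([] : List Γ)).subset ?_
    rintro l ⟨h, -⟩
    exact List.length_eq_zero_iff.1 h
  | succ m ih =>
    have hsub : {l : List Γ | l.length = m + 1 ∧ ∃ k, ε ≤ |Eop Φ w φ l k|} ⊆
        ⋃ l ∈ {l : List Γ | l.length = m ∧ ∃ k, ε / 2 ≤ |Eop Φ w φ l k|},
          (fun β => β :: l) '' {β | ∃ k, ε ≤ |Eop Φ w φ l (ret Φ (Ap w l β) k) -
            Eop Φ w φ l (ret Φ (Am w l β) k)|} := by
      rintro l ⟨hl, k, hk⟩
      cases l with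
      | nil => simp at hl
      | cons β l =>
        have hl' : l.length = m := by simpa using hl
        have hk' : ε ≤ |Eop Φ w φ l (ret Φ (Ap w l β) k) - Eop Φ w φ l (ret Φ (Am w l β) k)| := hk
        simp only [Set.mem_iUnion]
        refine ⟨l, ⟨hl', ?_⟩, β, ⟨k, hk'⟩, rfl⟩
        by_contra hcon
        push Not at hcon
        have h1 := hcon (ret Φ (Ap w l β) k)
        have h2 := hcon (ret Φ (Am w l β) k)
        have h3 := abs_sub (Eop Φ w φ l (ret Φ (Ap w l β) k)) (Eop Φ w φ l (ret Φ (Am w l β) k))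
        linarith
    refine Set.Finite.subset (Set.Finite.biUnion (ih (ε / 2) (half_pos hε)) (fun l _ => ?_)) hsub
    exact (chain_finite hc hi hadm _ (Eop_continuous hc hi hadm φ hφ l) l ε hε).image _

end

end Pool.Agent.D7

/-! ### T4 -/
namespace Pool.Agent.D7

section
variable {K Γ : Type} [LinearOrder Γ] {Φ : K → Γ → ℝ} {w : Finset Γ → Set Γ}
variable [TopologicalSpace K] [CompactSpace K]

/-- The common part of `vanish` and `vanish_top`: `S` is a lower set. -/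
theorem t4_union (hc : Continuous Φ) (hi : Function.Injective Φ)
    (hadm : ∀ A, IsCl w A → Adm Φ A) (θ : K → ℝ) (hθ : Continuous θ) (l : List Γ) (S : Set Γ)
    (hS : ∀ β ∈ S, Set.Iio β ⊆ S)
    (h0 : ∀ k, θ (ret Φ (Al w l) k) = 0)
    (h1 : ∀ β' ∈ S, ∀ k, θ (ret Φ (Ap w l β') k) = 0) (k : K) :
    θ (ret Φ (cl w ({γ | γ ∈ l} ∪ S)) k) = 0 := by
  let C : Option S → Set Γ := fun o =>
    match o with
    | none => {γ | γ ∈ l}
    | some β' => {γ | γ ∈ β'.1 :: l} ∪ Set.Iio β'.1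
  have hmono : ∀ β' β'' : S, β'.1 ≤ β''.1 → C (some β') ⊆ C (some β'') := by
    rintro β' β'' hle γ (hγ | hγ)
    · rcases List.mem_cons.1 hγ with h | h
      · rcases lt_or_eq_of_le hle with h2 | h2
        · right
          show γ < β''.1
          rw [h]; exact h2
        · left
          exact List.mem_cons.2 (Or.inl (h.trans h2))
      · left
        exact List.mem_cons.2 (Or.inr h)
    · right
      exact lt_of_lt_of_le hγ hle
  have hnone : ∀ o : Option S, C none ⊆ C o := by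
    intro o γ hγ
    cases o with
    | none => exact hγ
    | some β' => exact Or.inl (List.mem_cons.2 (Or.inr hγ))
  have hdC : Directed (· ⊆ ·) C := by
    intro o o'
    cases o with
    | none => exact ⟨o', hnone o', subset_rfl⟩
    | some β' =>
      cases o' with
      | none => exact ⟨some β', subset_rfl, hnone (some β')⟩
      | some β'' =>
        rcases le_total β'.1 β''.1 with h | h
        · exact ⟨some β'', hmono _ _ h, subset_rfl⟩
        · exact ⟨some β', subset_rfl, hmono _ _ h⟩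
  have hU : (⋃ o, C o) = {γ | γ ∈ l} ∪ S := by
    apply Set.Subset.antisymm
    · intro γ hγ
      obtain ⟨o, ho⟩ := Set.mem_iUnion.1 hγ
      cases o with
      | none => exact Or.inl ho
      | some β' =>
        rcases ho with ho | ho
        · rcases List.mem_cons.1 ho with h | h
          · right
            rw [h]; exact β'.2
          · exact Or.inl h
        · exact Or.inr (hS β'.1 β'.2 ho)
    · rintro γ (hγ | hγ)
      · exact Set.mem_iUnion.2 ⟨none, hγ⟩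
      · exact Set.mem_iUnion.2 ⟨some ⟨γ, hγ⟩, Or.inl (List.mem_cons.2 (Or.inl rfl))⟩
  have hcl : cl w ({γ | γ ∈ l} ∪ S) = ⋃ o, cl w (C o) := by
    rw [← hU]
    exact cl_directed C hdC
  rw [hcl]
  refine ret_directed hc hi (fun o => cl w (C o)) ?_ (fun o => hadm _ (isCl_cl _)) ?_ θ hθ k ?_
  · intro o o'
    obtain ⟨o'', h2, h3⟩ := hdC o o'
    exact ⟨o'', cl_mono h2, cl_mono h3⟩
  · rw [← hcl]
    exact hadm _ (isCl_cl _)
  · intro o
    cases o with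
    | none => exact h0 k
    | some β' => exact h1 β'.1 β'.2 k

theorem vanish (hc : Continuous Φ) (hi : Function.Injective Φ)
    (hadm : ∀ A, IsCl w A → Adm Φ A) (θ : K → ℝ) (hθ : Continuous θ) (l : List Γ) (β : Γ)
    (h0 : ∀ k, θ (ret Φ (Al w l) k) = 0)
    (h1 : ∀ β' < β, ∀ k, θ (ret Φ (Ap w l β') k) = 0) (k : K) :
    θ (ret Φ (Am w l β) k) = 0 := by
  exact t4_union hc hi hadm θ hθ l (Set.Iio β) (fun β' hβ' γ hγ => lt_trans hγ hβ') h0
    (fun β' hβ' => h1 β' hβ') k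

theorem vanish_top (hc : Continuous Φ) (hi : Function.Injective Φ)
    (hadm : ∀ A, IsCl w A → Adm Φ A) (θ : K → ℝ) (hθ : Continuous θ) (l : List Γ)
    (h0 : ∀ k, θ (ret Φ (Al w l) k) = 0)
    (h1 : ∀ β', ∀ k, θ (ret Φ (Ap w l β') k) = 0) (k : K) :
    θ k = 0 := by
  have h := t4_union hc hi hadm θ hθ l Set.univ (fun _ _ => Set.subset_univ _) h0
    (fun β' _ => h1 β') k
  have h2 : cl w ({γ | γ ∈ l} ∪ Set.univ) = Set.univ := by
    apply Set.eq_univ_of_univ_subset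
    exact Set.subset_union_right.trans (subset_cl _)
  rw [h2, ret_univ hi] at h
  exact h

theorem descend_step [WellFoundedLT Γ] (hc : Continuous Φ) (hi : Function.Injective Φ)
    (hadm : ∀ A, IsCl w A → Adm Φ A) (θ : K → ℝ) (hθ : Continuous θ) (l : List Γ) (b : Γ)
    (hne : ∃ k, θ k ≠ 0) (hinv : ∀ k, θ (ret Φ (Am w l b) k) = θ k) :
    (∃ k, θ (ret Φ (Al w l) k) ≠ 0) ∨
    ∃ β < b, (∃ k, θ (ret Φ (Ap w l β) k) ≠ 0) ∧ ∀ k, θ (ret Φ (Am w l β) k) = 0 := by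
  by_cases hA : ∃ k, θ (ret Φ (Al w l) k) ≠ 0
  · exact Or.inl hA
  right
  push Not at hA
  have hex : ∃ β < b, ∃ k, θ (ret Φ (Ap w l β) k) ≠ 0 := by
    by_contra hcon
    push Not at hcon
    obtain ⟨k, hk⟩ := hne
    apply hk
    rw [← hinv k]
    exact vanish hc hi hadm θ hθ l b hA hcon k
  obtain ⟨β0, hβ0, hk0⟩ := hex
  obtain ⟨m, hm, hmin⟩ := (wellFounded_lt (α := Γ)).has_min
    {β : Γ | ∃ k, θ (ret Φ (Ap w l β) k) ≠ 0} ⟨β0, hk0⟩
  refine ⟨m, lt_of_le_of_lt (not_lt.1 (hmin β0 hk0)) hβ0, hm, ?_⟩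
  intro k
  refine vanish hc hi hadm θ hθ l m hA ?_ k
  intro β' hβ' k'
  by_contra hcon
  exact hmin β' ⟨k', hcon⟩ hβ'

theorem descend_top [WellFoundedLT Γ] (hc : Continuous Φ) (hi : Function.Injective Φ)
    (hadm : ∀ A, IsCl w A → Adm Φ A) (θ : K → ℝ) (hθ : Continuous θ) (l : List Γ)
    (hne : ∃ k, θ k ≠ 0) :
    (∃ k, θ (ret Φ (Al w l) k) ≠ 0) ∨
    ∃ β, (∃ k, θ (ret Φ (Ap w l β) k) ≠ 0) ∧ ∀ k, θ (ret Φ (Am w l β) k) = 0 := by
  by_cases hA : ∃ k, θ (ret Φ (Al w l) k) ≠ 0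
  · exact Or.inl hA
  right
  push Not at hA
  have hex : ∃ β, ∃ k, θ (ret Φ (Ap w l β) k) ≠ 0 := by
    by_contra hcon
    push Not at hcon
    obtain ⟨k, hk⟩ := hne
    exact hk (vanish_top hc hi hadm θ hθ l hA hcon k)
  obtain ⟨β0, hk0⟩ := hex
  obtain ⟨m, hm, hmin⟩ := (wellFounded_lt (α := Γ)).has_min
    {β : Γ | ∃ k, θ (ret Φ (Ap w l β) k) ≠ 0} ⟨β0, hk0⟩
  refine ⟨m, hm, ?_⟩
  intro k
  refine vanish hc hi hadm θ hθ l m hA ?_ k
  intro β' hβ' k'
  by_contra hcon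
  exact hmin β' ⟨k', hcon⟩ hβ'

end

end Pool.Agent.D7

/-! ### T5 -/
namespace Pool.Agent.D7

section
variable {K Γ : Type} [LinearOrder Γ] {Φ : K → Γ → ℝ} {w : Finset Γ → Set Γ}
variable [TopologicalSpace K] [CompactSpace K] [WellFoundedLT Γ]

theorem Eop_descend (hc : Continuous Φ) (hi : Function.Injective Φ)
    (hadm : ∀ A, IsCl w A → Adm Φ A) (φ : K → ℝ) (hφ : Continuous φ) (β : Γ) :
    ∀ l : List Γ, (∃ k, Eop Φ w φ (β :: l) k ≠ 0) →
    ∃ l' : List Γ, ∃ k, Eop Φ w φ l' (ret Φ (Al w l') k) ≠ 0 := by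
  induction β using WellFoundedLT.induction with
  | ind β ih =>
    intro l hne
    have hinv : ∀ k, Eop Φ w φ (β :: l) (ret Φ (Am w (β :: l) β) k) = Eop Φ w φ (β :: l) k := by
      intro k
      rw [← Ap_eq_Am]
      exact Eop_top hi hadm φ l β k
    rcases descend_step hc hi hadm (Eop Φ w φ (β :: l)) (Eop_continuous hc hi hadm φ hφ _) (β :: l) β
      hne hinv with h | ⟨β', hβ', ⟨k, hk⟩, h2⟩
    · exact ⟨β :: l, h⟩
    · refine ih β' hβ' (β :: l) ⟨k, ?_⟩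
      show Eop Φ w φ (β :: l) (ret Φ (Ap w (β :: l) β') k) -
        Eop Φ w φ (β :: l) (ret Φ (Am w (β :: l) β') k) ≠ 0
      rw [h2 k, sub_zero]
      exact hk

theorem Eop_injective (hc : Continuous Φ) (hi : Function.Injective Φ)
    (hadm : ∀ A, IsCl w A → Adm Φ A) (φ : K → ℝ) (hφ : Continuous φ)
    (h : ∀ l k, Eop Φ w φ l (ret Φ (Al w l) k) = 0) (k : K) : φ k = 0 := by
  by_contra hne
  rcases descend_top hc hi hadm φ hφ ([] : List Γ) ⟨k, hne⟩ with ⟨k', h1⟩ | ⟨β, ⟨k', hk'⟩, h2⟩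
  · exact h1 (h [] k')
  · obtain ⟨l', k'', h3⟩ := Eop_descend hc hi hadm φ hφ β [] ⟨k', by
      show φ (ret Φ (Ap w [] β) k') - φ (ret Φ (Am w [] β) k') ≠ 0
      rw [h2 k', sub_zero]
      exact hk'⟩
    exact h3 (h l' k'')

theorem Eop_T2 (hc : Continuous Φ) (hi : Function.Injective Φ)
    (hadm : ∀ A, IsCl w A → Adm Φ A) (φ : K → ℝ) (hφ : Continuous φ) {A : Set Γ}
    (hA : IsCl w A)
    (h : ∀ l, (∃ k, Eop Φ w φ l (ret Φ (Al w l) k) ≠ 0) → ∀ γ ∈ l, γ ∈ A) (k : K) :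
    φ (ret Φ A k) = φ k := by
  have hrc := continuous_ret hc hi (hadm A hA)
  have hlin : ∀ l k, Eop Φ w ((1 : ℝ) • (fun k => φ (ret Φ A k)) + (-1 : ℝ) • φ) l k =
      Eop Φ w φ l (ret Φ A k) - Eop Φ w φ l k := by
    intro l k
    rw [Eop_linear, Eop_comp_ret hi hadm φ hA]
    ring
  have h0 := Eop_injective hc hi hadm ((1 : ℝ) • (fun k => φ (ret Φ A k)) + (-1 : ℝ) • φ)
    (((hφ.comp hrc).const_smul (1 : ℝ)).add (hφ.const_smul (-1 : ℝ))) (by
      intro l k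
      rw [hlin]
      have hAl : Adm Φ (Al w l) := hadm _ (isCl_cl _)
      by_cases hl : ∀ γ ∈ l, γ ∈ A
      · have hsub : Al w l ⊆ A := cl_min hl hA
        rw [ret_ret_right hi hAl (hadm A hA) hsub, sub_self]
      · have hz : ∀ k, Eop Φ w φ l (ret Φ (Al w l) k) = 0 := by
          intro k
          by_contra hk
          exact hl (h l ⟨k, hk⟩)
        rw [ret_comm hi (hadm A hA) hAl, hz, hz, sub_self]) k
  have h1 : ((1 : ℝ) • (fun k => φ (ret Φ A k)) + (-1 : ℝ) • φ) k = φ (ret Φ A k) - φ k := by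
    simp only [Pi.add_apply, Pi.smul_apply, smul_eq_mul]
    ring
  rw [h1] at h0
  linarith

end

end Pool.Agent.D7

/-! ### T7 -/
namespace Pool.Agent.D7

section
variable {K Γ : Type} [LinearOrder Γ] {Φ : K → Γ → ℝ} {w : Finset Γ → Set Γ}

theorem t7_Al_countable (hwc : ∀ F, (w F).Countable) (l : List Γ) : (Al w l).Countable := by
  exact cl_countable hwc (List.finite_toSet l).countable

/-- the operator of Section 3 -/
noncomputable def t7T (Φ : K → Γ → ℝ) (w : Finset Γ → Set Γ) (kk : List Γ → ℕ → K) :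
    (K → ℝ) →ₗ[ℝ] (List Γ × ℕ → ℝ) where
  toFun φ := fun i => (1 / 4 : ℝ) ^ i.1.length * (1 / 2 : ℝ) ^ i.2 *
    Eop Φ w φ i.1 (ret Φ (Al w i.1) (kk i.1 i.2))
  map_add' φ ψ := by
    funext i
    have h := Eop_linear (Φ := Φ) (w := w) φ ψ 1 1 i.1 (ret Φ (Al w i.1) (kk i.1 i.2))
    rw [one_smul, one_smul, one_mul, one_mul] at h
    rw [h, Pi.add_apply]
    ring
  map_smul' c φ := by
    funext i
    have h := Eop_linear (Φ := Φ) (w := w) φ 0 c 0 i.1 (ret Φ (Al w i.1) (kk i.1 i.2))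
    rw [smul_zero, add_zero, zero_mul, add_zero] at h
    rw [h, Pi.smul_apply, smul_eq_mul, RingHom.id_apply]
    ring

theorem t7_apply (kk : List Γ → ℕ → K) (φ : K → ℝ) (l : List Γ) (n : ℕ) :
    t7T Φ w kk φ (l, n) = (1 / 4 : ℝ) ^ l.length * (1 / 2 : ℝ) ^ n *
      Eop Φ w φ l (ret Φ (Al w l) (kk l n)) := rfl

theorem t7_bound (kk : List Γ → ℕ → K) (φ : K → ℝ) (c : ℝ) (h : ∀ k, |φ k| ≤ c)
    (l : List Γ) (n : ℕ) : |t7T Φ w kk φ (l, n)| ≤ (1 / 2 : ℝ) ^ l.length * (1 / 2 : ℝ) ^ n * c := by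
  rw [t7_apply, abs_mul, abs_of_nonneg (by positivity : (0 : ℝ) ≤ (1 / 4 : ℝ) ^ l.length * (1 / 2 : ℝ) ^ n)]
  have h1 := Eop_bound (Φ := Φ) (w := w) φ c h l (ret Φ (Al w l) (kk l n))
  have h2 : (1 / 4 : ℝ) ^ l.length * 2 ^ l.length = (1 / 2 : ℝ) ^ l.length := by
    rw [← mul_pow]
    norm_num
  calc (1 / 4 : ℝ) ^ l.length * (1 / 2 : ℝ) ^ n * |Eop Φ w φ l (ret Φ (Al w l) (kk l n))|
      ≤ (1 / 4 : ℝ) ^ l.length * (1 / 2 : ℝ) ^ n * (2 ^ l.length * c) :=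
        mul_le_mul_of_nonneg_left h1 (by positivity)
    _ = ((1 / 4 : ℝ) ^ l.length * 2 ^ l.length) * (1 / 2 : ℝ) ^ n * c := by ring
    _ = (1 / 2 : ℝ) ^ l.length * (1 / 2 : ℝ) ^ n * c := by rw [h2]

theorem t7_le_Eop (kk : List Γ → ℕ → K) (φ : K → ℝ) (l : List Γ) (n : ℕ) :
    |t7T Φ w kk φ (l, n)| ≤ |Eop Φ w φ l (ret Φ (Al w l) (kk l n))| := by
  rw [t7_apply, abs_mul, abs_of_nonneg (by positivity : (0 : ℝ) ≤ (1 / 4 : ℝ) ^ l.length * (1 / 2 : ℝ) ^ n)]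
  have h1 : (1 / 4 : ℝ) ^ l.length ≤ 1 := pow_le_one₀ (by norm_num) (by norm_num)
  have h2 : (1 / 2 : ℝ) ^ n ≤ 1 := pow_le_one₀ (by norm_num) (by norm_num)
  have h3 : (1 / 4 : ℝ) ^ l.length * (1 / 2 : ℝ) ^ n ≤ 1 :=
    mul_le_one₀ h1 (by positivity) h2
  calc (1 / 4 : ℝ) ^ l.length * (1 / 2 : ℝ) ^ n * |Eop Φ w φ l (ret Φ (Al w l) (kk l n))|
      ≤ 1 * |Eop Φ w φ l (ret Φ (Al w l) (kk l n))| :=
        mul_le_mul_of_nonneg_right h3 (abs_nonneg _)
    _ = _ := one_mul _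

theorem t7_zero (kk : List Γ → ℕ → K) (φ : K → ℝ) (l : List Γ) (n : ℕ)
    (h : t7T Φ w kk φ (l, n) = 0) : Eop Φ w φ l (ret Φ (Al w l) (kk l n)) = 0 := by
  rw [t7_apply] at h
  rcases mul_eq_zero.1 h with h | h
  · exact absurd h (by positivity)
  · exact h

end

theorem exists_T {K Γ : Type} [TopologicalSpace K] [CompactSpace K] [Nonempty K]
    {Φ : K → Γ → ℝ} (hc : Continuous Φ) (hi : Function.Injective Φ)
    {w : Finset Γ → Set Γ} (hwc : ∀ F, (w F).Countable) (hadm : ∀ A, IsCl w A → Adm Φ A) :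
    ∃ T : (K → ℝ) →ₗ[ℝ] (List Γ × ℕ → ℝ),
      (∀ φ c, 0 ≤ c → (∀ k, |φ k| ≤ c) → ∀ i, |T φ i| ≤ c) ∧
      (∀ φ, Continuous φ → C0 (T φ)) ∧
      (∀ φ, Continuous φ → (∀ i, T φ i = 0) → ∀ k, φ k = 0) ∧
      (∀ φ, Continuous φ → ∀ A, IsCl w A → (∀ i, T φ i ≠ 0 → ∀ γ ∈ i.1, γ ∈ A) →
        ∀ k, φ (ret Φ A k) = φ k) := by
  classical
  obtain ⟨hlo, hwf⟩ := exists_wellFoundedLT Γ
  have hAl : ∀ l : List Γ, IsCl w (Al w l) := fun l => isCl_cl _
  have hex : ∀ l : List Γ, ∃ kk : ℕ → K, ∀ θ : K → ℝ, Continuous θ →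
      (∀ n, θ (ret Φ (Al w l) (kk n)) = 0) → ∀ k, θ (ret Φ (Al w l) k) = 0 := fun l =>
    exists_dense_seq hc hi (hadm _ (hAl l)) (t7_Al_countable hwc l)
  choose kk hkk using hex
  -- if all coordinates with the list `l` vanish then `E_l φ` vanishes on the range of the retraction
  have hzero : ∀ φ, Continuous φ → ∀ l : List Γ, (∀ n, t7T Φ w kk φ (l, n) = 0) →
      ∀ k, Eop Φ w φ l (ret Φ (Al w l) k) = 0 := fun φ hφ l h =>
    hkk l _ (Eop_continuous hc hi hadm φ hφ l) (fun n => t7_zero kk φ l n (h n))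
  refine ⟨t7T Φ w kk, ?_, ?_, ?_, ?_⟩
  · rintro φ c hc0 h ⟨l, n⟩
    refine (t7_bound kk φ c h l n).trans ?_
    have h1 : (1 / 2 : ℝ) ^ l.length ≤ 1 := pow_le_one₀ (by norm_num) (by norm_num)
    have h2 : (1 / 2 : ℝ) ^ n ≤ 1 := pow_le_one₀ (by norm_num) (by norm_num)
    have h3 : (1 / 2 : ℝ) ^ l.length * (1 / 2 : ℝ) ^ n ≤ 1 := mul_le_one₀ h1 (by positivity) h2
    calc (1 / 2 : ℝ) ^ l.length * (1 / 2 : ℝ) ^ n * c ≤ 1 * c := mul_le_mul_of_nonneg_right h3 hc0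
      _ = c := one_mul c
  · intro φ hφ ε hε
    obtain ⟨c0, hc0⟩ := isCompact_univ.exists_bound_of_continuousOn (f := φ) hφ.continuousOn
    set c : ℝ := max c0 1 with hcdef
    have hcpos : 0 < c := lt_of_lt_of_le one_pos (le_max_right _ _)
    have hb : ∀ k, |φ k| ≤ c := fun k => by
      have := hc0 k (Set.mem_univ k)
      rw [Real.norm_eq_abs] at this
      exact this.trans (le_max_left _ _)
    obtain ⟨N, hN⟩ := exists_pow_lt_of_lt_one (div_pos hε hcpos) (by norm_num : (1 / 2 : ℝ) < 1)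
    have hN' : ∀ m, N ≤ m → (1 / 2 : ℝ) ^ m * c < ε := by
      intro m hm
      have h1 : (1 / 2 : ℝ) ^ m ≤ (1 / 2 : ℝ) ^ N := pow_le_pow_of_le_one (by norm_num) (by norm_num) hm
      have h2 : (1 / 2 : ℝ) ^ m < ε / c := lt_of_le_of_lt h1 hN
      exact (lt_div_iff₀ hcpos).1 h2
    have hfin : (⋃ m ∈ Finset.range N, {l : List Γ | l.length = m ∧ ∃ k, ε ≤ |Eop Φ w φ l k|}).Finite :=
      Set.Finite.biUnion (Finset.finite_toSet _) (fun m _ => Eop_finite hc hi hadm φ hφ m ε hε)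
    refine (hfin.prod (Set.finite_Iio N)).subset ?_
    rintro ⟨l, n⟩ hln
    have hln' : ε ≤ |t7T Φ w kk φ (l, n)| := hln
    have hbd := t7_bound (Φ := Φ) (w := w) kk φ c hb l n
    have h1 : (1 / 2 : ℝ) ^ l.length ≤ 1 := pow_le_one₀ (by norm_num) (by norm_num)
    have h2 : (1 / 2 : ℝ) ^ n ≤ 1 := pow_le_one₀ (by norm_num) (by norm_num)
    have hl : l.length < N := by
      by_contra hcon
      push Not at hcon
      have h3 := hN' _ hcon
      have h4 : (1 / 2 : ℝ) ^ l.length * (1 / 2 : ℝ) ^ n * c ≤ (1 / 2 : ℝ) ^ l.length * c := by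
        have : (1 / 2 : ℝ) ^ l.length * (1 / 2 : ℝ) ^ n ≤ (1 / 2 : ℝ) ^ l.length * 1 :=
          mul_le_mul_of_nonneg_left h2 (by positivity)
        rw [mul_one] at this
        exact mul_le_mul_of_nonneg_right this hcpos.le
      linarith
    have hn : n < N := by
      by_contra hcon
      push Not at hcon
      have h3 := hN' _ hcon
      have h4 : (1 / 2 : ℝ) ^ l.length * (1 / 2 : ℝ) ^ n * c ≤ (1 / 2 : ℝ) ^ n * c := by
        have : (1 / 2 : ℝ) ^ l.length * (1 / 2 : ℝ) ^ n ≤ 1 * (1 / 2 : ℝ) ^ n :=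
          mul_le_mul_of_nonneg_right h1 (by positivity)
        rw [one_mul] at this
        exact mul_le_mul_of_nonneg_right this hcpos.le
      linarith
    refine ⟨?_, hn⟩
    rw [Set.mem_iUnion₂]
    exact ⟨l.length, Finset.mem_range.2 hl, rfl, _, hln'.trans (t7_le_Eop kk φ l n)⟩
  · intro φ hφ h k
    exact Eop_injective hc hi hadm φ hφ (fun l => hzero φ hφ l (fun n => h (l, n))) k
  · intro φ hφ A hA h k
    refine Eop_T2 hc hi hadm φ hφ hA ?_ k
    rintro l ⟨k', hk'⟩ γ hγ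
    by_contra hγA
    refine hk' (hzero φ hφ l (fun n => ?_) k')
    by_contra hne
    exact hγA (h (l, n) hne γ hγ)

end Pool.Agent.D7
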