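import Pool.Agent.Lib.MP_d74bc6_an.D01

set_option autoImplicit false

/-! ### C31 -/
namespace Pool.Agent.D7

theorem core3 {K Γ Y : Type} [TopologicalSpace K] [CompactSpace K] (Φ : K → Γ → ℝ)
    (hc : Continuous Φ) (hcs : ∀ k, {γ | Φ k γ ≠ 0}.Countable)
    (G : Y → Set Γ) (hG : ∀ y, (G y).Countable) (H : Set K) (P : Y → K → Prop)
    {ρ : ℝ} (hρ : 0 < ρ) :
    ∃ v : Set Γ, v.Countable ∧ ∀ (A : Set Γ) (g : K) (C₀ : Finset Γ), v ⊆ A → g ∈ H →
      (∀ γ, γ ∉ A → Φ g γ = 0) → (∀ γ ∈ C₀, γ ∉ A) →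
      (∃ y, ∀ h ∈ H, (∀ c ∈ C₀, |Φ h c| ≤ ρ) → P y h) → ∃ y, G y ⊆ A ∧ P y g := by
  classical
  let CC : Set (Finset Γ) := {C | ∃ y, ∀ h ∈ H, (∀ c ∈ C, |Φ h c| ≤ ρ) → P y h}
  have hCC : ∀ C : CC, ∃ y, ∀ h ∈ H, (∀ c ∈ (C : Finset Γ), |Φ h c| ≤ ρ) → P y h :=
    fun C => C.2
  choose y hy using hCC
  obtain ⟨U, hU⟩ := zorn_subset {U : Set (Finset Γ) | U ⊆ CC ∧ U.PairwiseDisjoint id} (by
    intro c hc1 hc2
    refine ⟨⋃₀ c, ⟨Set.sUnion_subset fun s hs => (hc1 hs).1, ?_⟩,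
      fun s hs => Set.subset_sUnion_of_mem hs⟩
    intro a ha b hb hab
    obtain ⟨s, hs, has⟩ := ha
    obtain ⟨t, ht, hbt⟩ := hb
    rcases hc2.total hs ht with h | h
    · exact (hc1 ht).2 (h has) hbt hab
    · exact (hc1 hs).2 has (h hbt) hab)
  have hUC : U ⊆ CC := hU.prop.1
  have hUd : U.PairwiseDisjoint id := hU.prop.2
  by_cases hUc : U.Countable
  · have : Countable U := hUc.to_subtype
    refine ⟨⋃ C : U, ((↑(C : Finset Γ) : Set Γ) ∪ G (y ⟨C, hUC C.2⟩)), ?_, ?_⟩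
    · exact Set.countable_iUnion fun C => ((C : Finset Γ).countable_toSet).union (hG _)
    · intro A g C₀ hv hg hA hC₀ hC₀C
      have hmem : C₀ ∈ CC := hC₀C
      have hUv : ∀ C (hC : C ∈ U), (↑C : Set Γ) ⊆ A ∧ G (y ⟨C, hUC hC⟩) ⊆ A := by
        intro C hC
        have h1 : ((↑C : Set Γ) ∪ G (y ⟨C, hUC hC⟩)) ⊆ A := by
          refine Set.Subset.trans ?_ hv
          exact Set.subset_iUnion (fun C : U => ((↑(C : Finset Γ) : Set Γ) ∪ G (y ⟨C, hUC C.2⟩)))
            ⟨C, hC⟩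
        exact ⟨Set.subset_union_left.trans h1, Set.subset_union_right.trans h1⟩
      have hC₀U : C₀ ∈ U := by
        have h2 : insert C₀ U ∈ {U : Set (Finset Γ) | U ⊆ CC ∧ U.PairwiseDisjoint id} := by
          refine ⟨Set.insert_subset hmem hUC, ?_⟩
          apply Set.PairwiseDisjoint.insert hUd
          intro C hC _
          rw [id, id, Finset.disjoint_left]
          intro γ hγ hγ'
          exact hC₀ γ hγ ((hUv C hC).1 (Finset.mem_coe.mpr hγ'))
        exact hU.le_of_ge h2 (Set.subset_insert _ _) (Set.mem_insert _ _)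
      refine ⟨y ⟨C₀, hUC hC₀U⟩, (hUv C₀ hC₀U).2, ?_⟩
      apply hy ⟨C₀, hUC hC₀U⟩ g hg
      intro c hcc
      rw [hA c (hC₀ c hcc), abs_zero]
      exact hρ.le
  · have hcov : ∀ h : K, ∃ C : U, ∀ c ∈ (C : Finset Γ), Φ h c = 0 := by
      intro h
      by_contra hcon
      push Not at hcon
      choose f hf1 hf2 using hcon
      apply hUc
      rw [← Set.countable_coe_iff]
      have : Countable {γ | Φ h γ ≠ 0} := (hcs h).to_subtype
      apply Function.Injective.countable (f := fun C : U => (⟨f C, hf2 C⟩ : {γ | Φ h γ ≠ 0}))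
      intro C D hCD
      by_contra hne
      have h1 : f C = f D := congrArg Subtype.val hCD
      have h2 : (C : Finset Γ) ≠ (D : Finset Γ) := fun h => hne (Subtype.ext h)
      have h3 := hUd C.2 D.2 h2
      rw [Function.onFun, id, id, Finset.disjoint_left] at h3
      apply h3 (hf1 C)
      rw [h1]
      exact hf1 D
    obtain ⟨t, ht⟩ := isCompact_univ.elim_finite_subcover
      (fun C : U => {h : K | ∀ c ∈ (C : Finset Γ), |Φ h c| < ρ})
      (by
        intro C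
        have h1 : {h : K | ∀ c ∈ (C : Finset Γ), |Φ h c| < ρ}
            = ⋂ c ∈ (C : Finset Γ), {h : K | |Φ h c| < ρ} := by
          ext h
          simp only [Set.mem_ofPred_eq, Set.mem_iInter]
        rw [h1]
        apply isOpen_biInter_finset
        intro c _
        exact isOpen_lt ((continuous_apply c).comp hc).abs continuous_const)
      (by
        intro h _
        obtain ⟨C, hC⟩ := hcov h
        rw [Set.mem_iUnion]
        refine ⟨C, ?_⟩
        intro c hcc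
        rw [hC c hcc, abs_zero]
        exact hρ)
    refine ⟨⋃ C ∈ t, G (y ⟨C, hUC C.2⟩), ?_, ?_⟩
    · exact t.countable_toSet.biUnion fun C _ => hG _
    · intro A g C₀ hv hg _ _ _
      have h1 := ht (Set.mem_univ g)
      rw [Set.mem_iUnion₂] at h1
      obtain ⟨C, hCt, hCg⟩ := h1
      refine ⟨y ⟨C, hUC C.2⟩, ?_, ?_⟩
      · refine Set.Subset.trans ?_ hv
        exact Set.subset_biUnion_of_mem (u := fun C : U => G (y ⟨C, hUC C.2⟩)) hCt
      · apply hy ⟨C, hUC C.2⟩ g hg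
        intro c hcc
        exact (hCg c hcc).le

end Pool.Agent.D7

/-! ### W1 -/
namespace Pool.Agent.D7

variable {X Γ : Type} [NormedAddCommGroup X] [NormedSpace ℝ X]

theorem exists_Y {Φ : KB X → Γ → ℝ} (hc : Continuous Φ) (γ : Γ) :
    ∃ Y : Set X, Y.Countable ∧ ∀ f f' : KB X, (∀ y ∈ Y, f.1 y = f'.1 y) → Φ f γ = Φ f' γ := by
  obtain ⟨S, hS, h⟩ := dep_countable (K := KB X) (ι := X) (fun x f => f.1 x)
    (fun x => KB.continuous_eval x) (fun k k' h => KB.ext h) (fun f => Φ f γ)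
    ((continuous_apply γ).comp hc)
  exact ⟨S, hS, h⟩

theorem exists_G {Φ : KB X → Γ → ℝ} (hc : Continuous Φ) (hi : Function.Injective Φ) (y : X) :
    ∃ G : Set Γ, G.Countable ∧ ∀ f f' : KB X, (∀ γ ∈ G, Φ f γ = Φ f' γ) → f.1 y = f'.1 y := by
  obtain ⟨S, hS, h⟩ := dep_countable (K := KB X) (ι := Γ) (fun γ f => Φ f γ)
    (fun γ => (continuous_apply γ).comp hc) (fun k k' h => hi (funext h)) (fun f => f.1 y)
    (KB.continuous_eval y)
  exact ⟨S, hS, h⟩

theorem exists_Q (Y : Γ → Set X) (hY : ∀ γ, (Y γ).Countable) :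
    ∃ Q : Finset Γ → Set X, (∀ F, (Q F).Countable) ∧ (∀ F, (0 : X) ∈ Q F) ∧
      (∀ F F' : Finset Γ, F ⊆ F' → Q F ⊆ Q F') ∧
      (∀ F, Q F ⊆ (Submodule.span ℝ (⋃ γ ∈ F, Y γ) : Submodule ℝ X)) ∧
      (∀ F, ((Submodule.span ℝ (⋃ γ ∈ F, Y γ) : Submodule ℝ X) : Set X) ⊆ closure (Q F)) := by
  have hsep : ∀ F : Finset Γ, TopologicalSpace.IsSeparable
      ((Submodule.span ℝ (⋃ γ ∈ F, Y γ) : Submodule ℝ X) : Set X) := by
    intro F
    have hc : (⋃ γ ∈ F, Y γ).Countable := F.countable_toSet.biUnion fun γ _ => hY γ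
    exact hc.isSeparable.span
  have hex : ∀ F : Finset Γ, ∃ t : Set X,
      t ⊆ ((Submodule.span ℝ (⋃ γ ∈ F, Y γ) : Submodule ℝ X) : Set X) ∧ t.Countable ∧
      ((Submodule.span ℝ (⋃ γ ∈ F, Y γ) : Submodule ℝ X) : Set X) ⊆ closure t := fun F =>
    (hsep F).exists_countable_dense_subset
  choose D hD1 hD2 hD3 using hex
  refine ⟨fun F => {0} ∪ ⋃ F' ∈ F.powerset, D F', ?_, ?_, ?_, ?_, ?_⟩
  · intro F
    refine (Set.countable_singleton 0).union ?_
    exact F.powerset.countable_toSet.biUnion fun F' _ => hD2 F'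
  · intro F
    exact Or.inl rfl
  · intro F F' hF x hx
    rcases hx with hx | hx
    · exact Or.inl hx
    · refine Or.inr ?_
      rw [Set.mem_iUnion₂] at hx ⊢
      obtain ⟨F'', h1, h2⟩ := hx
      exact ⟨F'', Finset.mem_powerset.mpr ((Finset.mem_powerset.mp h1).trans hF), h2⟩
  · intro F x hx
    rcases hx with hx | hx
    · rw [Set.mem_singleton_iff] at hx
      rw [hx]
      exact Submodule.zero_mem _
    · rw [Set.mem_iUnion₂] at hx
      obtain ⟨F'', h1, h2⟩ := hx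
      have h3 := hD1 F'' h2
      refine Submodule.span_mono ?_ h3
      exact Set.biUnion_subset_biUnion_left (fun γ hγ => Finset.mem_powerset.mp h1 hγ)
  · intro F
    refine (hD3 F).trans (closure_mono ?_)
    intro x hx
    refine Or.inr ?_
    rw [Set.mem_iUnion₂]
    exact ⟨F, Finset.mem_powerset.mpr (Finset.Subset.refl F), hx⟩

theorem XA_submodule (Φ : KB X → Γ → ℝ) (A : Set Γ) :
    ∃ W : Submodule ℝ X, (W : Set X) = XA Φ A ∧ IsClosed (W : Set X) := by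
  refine ⟨{ carrier := XA Φ A
            add_mem' := ?_
            zero_mem' := ?_
            smul_mem' := ?_ }, rfl, ?_⟩
  · intro a b ha hb f
    rw [map_add f.1, map_add (ret Φ A f).1, ha f, hb f]
  · intro f
    rw [map_zero f.1, map_zero (ret Φ A f).1]
  · intro c a ha f
    rw [map_smul f.1, map_smul (ret Φ A f).1, ha f]
  · show IsClosed (XA Φ A)
    have h : XA Φ A = ⋂ f : KB X, {x | f.1 x = (ret Φ A f).1 x} := by
      ext x
      simp only [XA, Set.mem_iInter]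
      rfl
    rw [h]
    refine isClosed_iInter fun f => ?_
    exact isClosed_eq (map_continuous f.1) (map_continuous (ret Φ A f).1)

theorem XA_mono {Φ : KB X → Γ → ℝ} (hi : Function.Injective Φ) {A B : Set Γ}
    (hA : Adm Φ A) (hB : Adm Φ B) (hAB : A ⊆ B) : XA Φ A ⊆ XA Φ B := by
  intro x hx f
  have h1 : f.1 x = (ret Φ A f).1 x := hx f
  have h2 : (ret Φ B f).1 x = (ret Φ A (ret Φ B f)).1 x := hx (ret Φ B f)
  rw [ret_ret_left hi hA hB hAB] at h2
  rw [h1, h2]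

end Pool.Agent.D7

/-! ### W2 -/
namespace Pool.Agent.D7

variable {X Γ : Type} [NormedAddCommGroup X] [NormedSpace ℝ X]

theorem exists_w3 (Φ : KB X → Γ → ℝ) (hc : Continuous Φ) (hi : Function.Injective Φ)
    (hcs : ∀ k, {γ | Φ k γ ≠ 0}.Countable) (G : X → Set Γ) (hG : ∀ y, (G y).Countable)
    (Q : Finset Γ → Set X) (hQ : ∀ F, (Q F).Countable)
    (hmono : ∀ F F' : Finset Γ, F ⊆ F' → Q F ⊆ Q F') (Ω : Set X) (ψ : X → ℝ) :
    ∃ w : Finset Γ → Set Γ, (∀ F, (w F).Countable) ∧ ∀ A, IsCl w A → ∀ g : KB X,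
      (∀ γ, γ ∉ A → Φ g γ = 0) → ∀ q ∈ QA Q A, ∀ k : ℕ, 0 < k → ∀ τ : ℝ, ∀ y' ∈ Ω,
        τ < g.1 y' - ψ y' - 1 / (k : ℝ) * ‖y' - q‖ →
        ∃ y ∈ Ω, G y ⊆ A ∧ τ < g.1 y - ψ y - 1 / (k : ℝ) * ‖y - q‖ := by
  classical
  have key : ∀ (F : Finset Γ) (D : (F → ℚ) × ℕ × ℕ × ℚ × (Q F)),
      ∃ v : Set Γ, v.Countable ∧ ∀ (A : Set Γ) (g : KB X) (C₀ : Finset Γ), v ⊆ A →
        g ∈ {h : KB X | ∀ γ : F, |Φ h γ - (D.1 γ : ℝ)| ≤ 1 / ((D.2.1 : ℝ) + 1)} →
        (∀ γ, γ ∉ A → Φ g γ = 0) → (∀ γ ∈ C₀, γ ∉ A) →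
        (∃ y : Ω, ∀ h ∈ {h : KB X | ∀ γ : F, |Φ h γ - (D.1 γ : ℝ)| ≤ 1 / ((D.2.1 : ℝ) + 1)},
            (∀ c ∈ C₀, |Φ h c| ≤ 1 / ((D.2.1 : ℝ) + 1)) →
            ((D.2.2.2.1 : ℝ) < h.1 (y : X) - ψ y
              - 1 / ((D.2.2.1 : ℝ)) * ‖(y : X) - (D.2.2.2.2 : X)‖)) →
        ∃ y : Ω, G y ⊆ A ∧ ((D.2.2.2.1 : ℝ) < g.1 (y : X) - ψ y
              - 1 / ((D.2.2.1 : ℝ)) * ‖(y : X) - (D.2.2.2.2 : X)‖) := by
    intro F D
    exact core3 Φ hc hcs (fun y : Ω => G y.1) (fun y => hG _) _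
      (fun (y : Ω) (h : KB X) => ((D.2.2.2.1 : ℝ) < h.1 (y : X) - ψ y
              - 1 / ((D.2.2.1 : ℝ)) * ‖(y : X) - (D.2.2.2.2 : X)‖)) (by positivity)
  choose v hv1 hv2 using key
  refine ⟨fun F => ⋃ D, v F D, ?_, ?_⟩
  · intro F
    have := (hQ F).to_subtype
    exact Set.countable_iUnion fun D => hv1 F D
  · intro A hA g hg q hq k hk τ y' hy' hτ
    obtain ⟨F₀, hF₀, hqF₀⟩ := hq
    obtain ⟨τ', h1, h2⟩ := exists_rat_btwn hτ
    -- the open set
    have hO : IsOpen {h : KB X | (τ' : ℝ) < h.1 y' - ψ y' - 1 / (k : ℝ) * ‖y' - q‖} :=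
      isOpen_lt continuous_const
        (((KB.continuous_eval y').sub continuous_const).sub continuous_const)
    have hind : Topology.IsInducing Φ := (hc.isClosedEmbedding hi).isInducing
    obtain ⟨U, hU, hUO⟩ := hind.isOpen_iff.1 hO
    have hgU : Φ g ∈ U := by
      have : g ∈ Φ ⁻¹' U := by rw [hUO]; exact h2
      exact this
    obtain ⟨E, u, hu, hEU⟩ := isOpen_pi_iff.1 hU (Φ g) hgU
    have hn : ∀ e ∈ E, ∃ n : ℕ, ∀ z : ℝ, |z - Φ g e| ≤ 2 / ((n : ℝ) + 1) → z ∈ u e := by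
      intro e he
      obtain ⟨δ, hδ, hball⟩ := Metric.isOpen_iff.1 (hu e he).1 (Φ g e) (hu e he).2
      obtain ⟨n, hn⟩ := exists_nat_gt (2 / δ)
      refine ⟨n, fun z hz => hball ?_⟩
      rw [Metric.mem_ball, Real.dist_eq]
      refine lt_of_le_of_lt hz ?_
      rw [div_lt_iff₀ hδ] at hn
      rw [div_lt_iff₀ (by positivity)]
      nlinarith
    choose! n hn using hn
    set N : ℕ := E.sup n with hN
    have hNe : ∀ e ∈ E, ∀ z : ℝ, |z - Φ g e| ≤ 2 / ((N : ℝ) + 1) → z ∈ u e := by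
      intro e he z hz
      refine hn e he z (hz.trans ?_)
      have hle : (n e : ℝ) ≤ (N : ℝ) := by exact_mod_cast Finset.le_sup (f := n) he
      gcongr
    set F : Finset Γ := F₀ ∪ E.filter (· ∈ A) with hF
    set C₀ : Finset Γ := E.filter (· ∉ A) with hC₀
    have hFA : (↑F : Set Γ) ⊆ A := by
      intro γ hγ
      rw [hF, Finset.mem_coe, Finset.mem_union] at hγ
      rcases hγ with hγ | hγ
      · exact hF₀ hγ
      · exact (Finset.mem_filter.1 hγ).2
    have hqF : q ∈ Q F := hmono F₀ F Finset.subset_union_left hqF₀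
    have hNpos : (0 : ℝ) < 1 / ((N : ℝ) + 1) := by positivity
    have ha : ∀ γ : F, ∃ r : ℚ, |Φ g γ - (r : ℝ)| < 1 / ((N : ℝ) + 1) :=
      fun γ => exists_rat_near (Φ g γ) hNpos
    choose a ha using ha
    have hwA : v F ⟨a, N, k, τ', ⟨q, hqF⟩⟩ ⊆ A :=
      (Set.subset_iUnion (fun D => v F D) ⟨a, N, k, τ', ⟨q, hqF⟩⟩).trans (hA F hFA)
    obtain ⟨y, hy1, hy2⟩ := hv2 F ⟨a, N, k, τ', ⟨q, hqF⟩⟩ A g C₀ hwA
      (fun γ => (ha γ).le) hg (fun γ hγ => (Finset.mem_filter.1 hγ).2)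
      ⟨⟨y', hy'⟩, fun h hh hc' => by
        have hmem : h ∈ Φ ⁻¹' U := by
          apply hEU
          intro e he
          apply hNe e he
          by_cases heA : e ∈ A
          · have heF : e ∈ F := by
              rw [hF, Finset.mem_union]
              right
              exact Finset.mem_filter.2 ⟨he, heA⟩
            have i1 := hh ⟨e, heF⟩
            have i2 := ha ⟨e, heF⟩
            have i3 : (2 : ℝ) / ((N : ℝ) + 1) = 1 / ((N : ℝ) + 1) + 1 / ((N : ℝ) + 1) := by ring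
            rw [i3]
            simp only at i1 i2
            rw [abs_le] at i1 ⊢
            rw [abs_lt] at i2
            constructor <;> linarith [i1.1, i1.2, i2.1, i2.2]
          · have i1 := hc' e (Finset.mem_filter.2 ⟨he, heA⟩)
            rw [hg e heA, sub_zero]
            have i3 : (2 : ℝ) / ((N : ℝ) + 1) = 1 / ((N : ℝ) + 1) + 1 / ((N : ℝ) + 1) := by ring
            rw [i3]
            simp only at i1
            linarith
        rw [hUO] at hmem
        exact hmem⟩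
    exact ⟨y.1, y.2, hy1, h1.trans hy2⟩

end Pool.Agent.D7

/-! ### W3 -/
namespace Pool.Agent.D7

variable {X Γ : Type} [NormedAddCommGroup X] [NormedSpace ℝ X]

theorem exists_sys (Φ : KB X → Γ → ℝ) (hc : Continuous Φ) (hi : Function.Injective Φ)
    (h0 : Φ (zeroKB X) = 0) (hcs : ∀ k, {γ | Φ k γ ≠ 0}.Countable) (Ω : Set X) (ψ : X → ℝ) :
    ∃ (w : Finset Γ → Set Γ) (Q : Finset Γ → Set X), Sys Φ Ω ψ w Q := by
  classical
  choose Y hYc hY using fun γ => exists_Y hc γ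
  choose G hGc hG using fun y => exists_G hc hi y
  obtain ⟨Q, hQc, hQ0, hQm, hQs, hQd⟩ := exists_Q Y hYc
  obtain ⟨w₁, hw₁c, hw₁⟩ := exists_w1 Φ hc hcs
  obtain ⟨w₃, hw₃c, hw₃⟩ := exists_w3 Φ hc hi hcs G hGc Q hQc hQm Ω ψ
  let w : Finset Γ → Set Γ := fun F => w₁ F ∪ (⋃ γ ∈ F, ⋃ y ∈ Y γ, G y) ∪ w₃ F
  have cl1 : ∀ A, IsCl w A → IsCl w₁ A := fun A hA F hF x hx => hA F hF (Or.inl (Or.inl hx))
  have cl3 : ∀ A, IsCl w A → IsCl w₃ A := fun A hA F hF x hx => hA F hF (Or.inr hx)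
  have adm : ∀ A, IsCl w A → Adm Φ A := fun A hA => hw₁ A (cl1 A hA)
  have hGA : ∀ A, IsCl w A → ∀ γ ∈ A, ∀ y ∈ Y γ, G y ⊆ A := by
    intro A hA γ hγ y hy x hx
    refine hA {γ} (by simpa using hγ) (Or.inl (Or.inr ?_))
    simp only [Finset.mem_singleton, Set.iUnion_iUnion_eq_left, Set.mem_iUnion]
    exact ⟨y, hy, hx⟩
  have hx : ∀ A, IsCl w A → ∀ y, G y ⊆ A → y ∈ XA Φ A := by
    intro A hA y hy f
    refine hG y f _ fun γ hγ => ?_
    rw [Phi_ret (adm A hA), Set.indicator_of_mem (hy hγ)]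
  have hYX : ∀ A, IsCl w A → ∀ γ ∈ A, Y γ ⊆ XA Φ A :=
    fun A hA γ hγ y hy => hx A hA y (hGA A hA γ hγ y hy)
  have hspan : ∀ A, IsCl w A →
      ((Submodule.span ℝ (⋃ γ ∈ A, Y γ) : Submodule ℝ X) : Set X) ⊆ XA Φ A := by
    intro A hA
    obtain ⟨W, hW, -⟩ := XA_submodule Φ A
    rw [← hW]
    refine Submodule.span_le.2 ?_
    rw [hW]
    exact Set.iUnion₂_subset (hYX A hA)
  refine ⟨w, Q, ⟨hc, hi, h0, ?_, hQc, hQ0, hQm, adm, ?_, ?_, ?_, ?_⟩⟩
  · intro F
    refine ((hw₁c F).union ?_).union (hw₃c F)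
    exact F.countable_toSet.biUnion fun γ _ => (hYc γ).biUnion fun y _ => hGc y
  · rintro A hA q ⟨F, hF, hq⟩
    refine hspan A hA ?_
    have h1 := hQs F hq
    exact Submodule.span_mono (Set.iUnion₂_subset fun γ hγ =>
      Set.subset_iUnion₂_of_subset γ (hF hγ) subset_rfl) h1
  · intro A hA x hxA
    set U : Set X := ⋃ γ ∈ A, Y γ with hU
    have h1 : x ∈ (Submodule.span ℝ U).topologicalClosure := by
      by_contra hx'
      obtain ⟨f, hf1, hf2⟩ := KB.hahn (Submodule.span ℝ U).topologicalClosure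
        (Submodule.isClosed_topologicalClosure _) x hx'
      have h2 : ∀ γ ∈ A, Φ f γ = 0 := by
        intro γ hγ
        have h3 : Φ f γ = Φ (zeroKB X) γ := by
          refine hY γ f _ fun y hy => ?_
          rw [zeroKB_apply]
          exact hf1 y (Submodule.le_topologicalClosure _
            (Submodule.subset_span (Set.mem_biUnion hγ hy)))
        rw [h3, h0]
        rfl
      have h4 : ret Φ A f = zeroKB X := by
        apply hi
        rw [Phi_ret (adm A hA), h0]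
        funext γ
        by_cases hγ : γ ∈ A
        · rw [Set.indicator_of_mem hγ, h2 γ hγ]
          rfl
        · rw [Set.indicator_of_notMem hγ]
          rfl
      apply hf2
      rw [hxA f, h4, zeroKB_apply]
    have h5 : ((Submodule.span ℝ U : Submodule ℝ X) : Set X) ⊆ closure (QA Q A) := by
      intro z hz
      have h6 : ∃ F : Finset Γ, (↑F : Set Γ) ⊆ A ∧ z ∈ Submodule.span ℝ (⋃ γ ∈ F, Y γ) := by
        refine Submodule.span_induction ?_ ?_ ?_ ?_ hz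
        · intro y hy
          obtain ⟨γ, hγ, hy⟩ := Set.mem_iUnion₂.1 hy
          exact ⟨{γ}, by simpa using hγ, Submodule.subset_span (by simpa using hy)⟩
        · exact ⟨∅, by simp, Submodule.zero_mem _⟩
        · rintro a b _ _ ⟨F, hF, ha⟩ ⟨F', hF', hb⟩
          refine ⟨F ∪ F', by rw [Finset.coe_union]; exact Set.union_subset hF hF',
            Submodule.add_mem _ ?_ ?_⟩
          · exact Submodule.span_mono (Set.iUnion₂_subset fun γ hγ =>
              Set.subset_iUnion₂_of_subset γ (Finset.mem_union_left _ hγ) subset_rfl) ha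
          · exact Submodule.span_mono (Set.iUnion₂_subset fun γ hγ =>
              Set.subset_iUnion₂_of_subset γ (Finset.mem_union_right _ hγ) subset_rfl) hb
        · rintro c a _ ⟨F, hF, ha⟩
          exact ⟨F, hF, Submodule.smul_mem _ c ha⟩
      obtain ⟨F, hF, hz'⟩ := h6
      have h8 : Q F ⊆ QA Q A := fun q hq => ⟨F, hF, hq⟩
      exact closure_mono h8 (hQd F hz')
    have h7 : x ∈ closure ((Submodule.span ℝ U : Submodule ℝ X) : Set X) := h1
    exact closure_minimal h5 isClosed_closure h7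
  · intro A hA f f' hff
    apply hi
    rw [Phi_ret (adm A hA), Phi_ret (adm A hA)]
    funext γ
    by_cases hγ : γ ∈ A
    · rw [Set.indicator_of_mem hγ, Set.indicator_of_mem hγ]
      exact hY γ f f' fun y hy => hff y (hYX A hA γ hγ hy)
    · rw [Set.indicator_of_notMem hγ, Set.indicator_of_notMem hγ]
  · intro A hA g hg q hq k hk τ y' hy' hτ
    obtain ⟨y, hy, hyG, h⟩ := hw₃ A (cl3 A hA) g hg q hq k hk τ y' hy' hτ
    exact ⟨y, hy, hx A hA y hyG, h⟩

end Pool.Agent.D7
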