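import Pool.Agent.Lib.MP_d74bc6_an.D01
import Pool.Agent.Lib.MP_d74bc6_an.D03

set_option autoImplicit false

/-! ### EK -/
namespace Pool.Agent.D7

open Filter Topology

theorem ek_step {E : Type} [MetricSpace E] (S : Set E) (φ : E → ℝ) (m : ℝ)
    (hm : ∀ y ∈ S, m ≤ φ y) (η : ℝ) (n : ℕ) (z : {x : E // x ∈ S}) :
    ∃ y : {x : E // x ∈ S}, φ y.1 + η * dist y.1 z.1 ≤ φ z.1 ∧
      ∀ x ∈ S, φ x + η * dist x z.1 ≤ φ z.1 → φ y.1 - (1 / 2) ^ n ≤ φ x := by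
  set A : Set ℝ := φ '' {y | y ∈ S ∧ φ y + η * dist y z.1 ≤ φ z.1} with hA
  have hne : A.Nonempty := ⟨φ z.1, z.1, ⟨z.2, by simp⟩, rfl⟩
  have hbdd : BddBelow A := by
    refine ⟨m, ?_⟩
    rintro _ ⟨y, hy, rfl⟩
    exact hm y hy.1
  obtain ⟨a, ⟨y, hy, rfl⟩, hlt⟩ := Real.lt_sInf_add_pos hne (ε := (1 / 2) ^ n) (by positivity)
  refine ⟨⟨y, hy.1⟩, hy.2, ?_⟩
  intro x hx hx2
  have : sInf A ≤ φ x := csInf_le hbdd ⟨x, ⟨hx, hx2⟩, rfl⟩
  simp only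
  linarith

theorem ekeland {E : Type} [MetricSpace E] [CompleteSpace E] (S : Set E) (hS : IsClosed S)
    (φ : E → ℝ) (hφ : ContinuousOn φ S) (m : ℝ) (hm : ∀ y ∈ S, m ≤ φ y) (x₀ : E)
    (hx₀ : x₀ ∈ S) (η : ℝ) (hη : 0 < η) :
    ∃ z ∈ S, φ z ≤ φ x₀ ∧ ∀ y ∈ S, φ z - η * dist y z ≤ φ y := by
  choose f hf1 hf2 using ek_step S φ m hm η
  let z : ℕ → {x : E // x ∈ S} := fun n => Nat.rec ⟨x₀, hx₀⟩ (fun n w => f n w) n
  have hz0 : z 0 = ⟨x₀, hx₀⟩ := rfl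
  have hzs : ∀ n, z (n + 1) = f n (z n) := fun n => rfl
  have hstep : ∀ n, φ (z (n + 1)).1 + η * dist (z (n + 1)).1 (z n).1 ≤ φ (z n).1 := by
    intro n
    rw [hzs]
    exact hf1 n (z n)
  have hchain : ∀ n k, φ (z (n + k)).1 + η * dist (z (n + k)).1 (z n).1 ≤ φ (z n).1 := by
    intro n k
    induction k with
    | zero => simp
    | succ k ih =>
      have h1 := hstep (n + k)
      have h2 := dist_triangle (z (n + k + 1)).1 (z (n + k)).1 (z n).1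
      have h3 := mul_le_mul_of_nonneg_left h2 hη.le
      rw [mul_add] at h3
      rw [← add_assoc]
      linarith
  have hanti : Antitone fun n => φ (z n).1 := by
    refine antitone_nat_of_succ_le ?_
    intro n
    have h1 := hstep n
    have h2 : 0 ≤ η * dist (z (n + 1)).1 (z n).1 := by positivity
    linarith
  have hbdd : BddBelow (Set.range fun n => φ (z n).1) := by
    refine ⟨m, ?_⟩
    rintro _ ⟨n, rfl⟩
    exact hm _ (z n).2
  have hconv := tendsto_atTop_ciInf hanti hbdd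
  set L := ⨅ n, φ (z n).1 with hL
  have hLle : ∀ n, L ≤ φ (z n).1 := fun n => ciInf_le hbdd n
  have hcau : CauchySeq fun n => (z n).1 := by
    refine cauchySeq_of_le_tendsto_0' (fun n => (φ (z n).1 - L) / η) ?_ ?_
    · intro n k hnk
      obtain ⟨j, rfl⟩ := Nat.exists_eq_add_of_le hnk
      rw [dist_comm, le_div_iff₀ hη]
      have h1 := hchain n j
      have h2 := hLle (n + j)
      linarith
    · have h1 : Tendsto (fun n => (φ (z n).1 - L) / η) atTop (𝓝 ((L - L) / η)) :=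
        (hconv.sub_const L).div_const η
      simpa using h1
  obtain ⟨w, hw⟩ := cauchySeq_tendsto_of_complete hcau
  have hwS : w ∈ S := hS.mem_of_tendsto hw (Eventually.of_forall fun n => (z n).2)
  have hφw : Tendsto (fun n => φ (z n).1) atTop (𝓝 (φ w)) := by
    have h1 := (hφ w hwS).tendsto
    exact h1.comp (tendsto_nhdsWithin_iff.mpr ⟨hw, Eventually.of_forall fun n => (z n).2⟩)
  have hwA : ∀ n, φ w + η * dist w (z n).1 ≤ φ (z n).1 := by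
    intro n
    have h1 : Tendsto (fun k => φ (z k).1 + η * dist (z k).1 (z n).1) atTop
        (𝓝 (φ w + η * dist w (z n).1)) :=
      hφw.add ((hw.dist tendsto_const_nhds).const_mul η)
    refine le_of_tendsto h1 ?_
    filter_upwards [eventually_ge_atTop n] with k hk
    obtain ⟨j, rfl⟩ := Nat.exists_eq_add_of_le hk
    exact hchain n j
  refine ⟨w, hwS, ?_, ?_⟩
  · have h1 := hwA 0
    have h2 : 0 ≤ η * dist w (z 0).1 := by positivity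
    have h3 : φ (z 0).1 = φ x₀ := rfl
    linarith
  · intro y hy
    by_contra hlt
    push Not at hlt
    have hyA : ∀ n, φ y + η * dist y (z n).1 ≤ φ (z n).1 := by
      intro n
      have h1 := hwA n
      have h2 := dist_triangle y w (z n).1
      have h3 := mul_le_mul_of_nonneg_left h2 hη.le
      rw [mul_add] at h3
      linarith
    have h4 : ∀ n, φ (z (n + 1)).1 - (1 / 2) ^ n ≤ φ y := by
      intro n
      rw [hzs]
      exact hf2 n (z n) y hy (hyA n)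
    have h5 : Tendsto (fun n : ℕ => φ (z (n + 1)).1 - (1 / 2 : ℝ) ^ n) atTop
        (𝓝 (φ w - 0)) := by
      refine Tendsto.sub (hφw.comp (tendsto_add_atTop_nat 1)) ?_
      exact tendsto_pow_atTop_nhds_zero_of_lt_one (by norm_num) (by norm_num)
    have h6 : φ w - 0 ≤ φ y := le_of_tendsto' h5 h4
    have h7 : 0 ≤ η * dist y w := by positivity
    linarith

end Pool.Agent.D7

/-! ### Z1 -/
namespace Pool.Agent.D7

variable {X : Type} [NormedAddCommGroup X] [NormedSpace ℝ X] {Ω : Set X} {ψ : X → ℝ} {R : ℝ}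

theorem Z1_abs (hb : Bump Ω ψ R) (f : KB X) {y : X} (hy : y ∈ Ω) : f.1 y ≤ R :=
  ((le_abs_self _).trans (f.2 y)).trans (hb.bdd y hy)

theorem Z1_le (hb : Bump Ω ψ R) (q : X) {η : ℝ} (hη : 0 ≤ η) (f : KB X) {y : X} (hy : y ∈ Ω) :
    f.1 y - ψ y - η * ‖y - q‖ ≤ R := by
  have h1 := Z1_abs hb f hy
  have h2 := hb.nonneg y
  have h3 : 0 ≤ η * ‖y - q‖ := mul_nonneg hη (norm_nonneg _)
  linarith

theorem Z_bddAbove (hb : Bump Ω ψ R) (q : X) {η : ℝ} (hη : 0 ≤ η) (f : KB X) :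
    BddAbove (Set.range fun y : Ω => (f.1 (y : X) - ψ y - η * ‖(y : X) - q‖)) := by
  refine ⟨R, ?_⟩
  rintro _ ⟨y, rfl⟩
  exact Z1_le hb q hη f y.2

theorem le_Z (hb : Bump Ω ψ R) (q : X) {η : ℝ} (hη : 0 ≤ η) (f : KB X) {y : X} (hy : y ∈ Ω) :
    f.1 y - ψ y - η * ‖y - q‖ ≤ Z Ω ψ q η f := by
  exact le_ciSup (Z_bddAbove hb q hη f) (⟨y, hy⟩ : Ω)

theorem Z_le (hb : Bump Ω ψ R) (q : X) {η : ℝ} (f : KB X) {C : ℝ}
    (h : ∀ y ∈ Ω, f.1 y - ψ y - η * ‖y - q‖ ≤ C) : Z Ω ψ q η f ≤ C := by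
  haveI : Nonempty Ω := ⟨⟨0, hb.zero_mem⟩⟩
  exact ciSup_le fun y => h y y.2

theorem Z_le_R (hb : Bump Ω ψ R) (q : X) {η : ℝ} (hη : 0 ≤ η) (f : KB X) :
    Z Ω ψ q η f ≤ R := by
  exact Z_le hb q f fun y hy => Z1_le hb q hη f hy

theorem Z_ge (hb : Bump Ω ψ R) (q : X) {η : ℝ} (hη : 0 ≤ η) (f : KB X) :
    -ψ 0 - η * ‖q‖ ≤ Z Ω ψ q η f := by
  have h := le_Z hb q hη f hb.zero_mem
  have h0 : f.1 (0 : X) = 0 := map_zero f.1
  rw [h0, zero_sub, zero_sub, norm_neg] at h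
  exact h

theorem Z_lip (hb : Bump Ω ψ R) (q q' : X) {η : ℝ} (hη : 0 ≤ η) (f : KB X) :
    Z Ω ψ q η f ≤ Z Ω ψ q' η f + η * ‖q - q'‖ := by
  refine Z_le hb q f fun y hy => ?_
  have h1 := le_Z hb q' hη f hy
  have h2 : ‖y - q'‖ ≤ ‖y - q‖ + ‖q - q'‖ := by
    have h3 : y - q' = (y - q) + (q - q') := by abel
    rw [h3]
    exact norm_add_le _ _
  have h4 := mul_le_mul_of_nonneg_left h2 hη
  rw [mul_add] at h4
  linarith

theorem Z_mid (hb : Bump Ω ψ R) (q : X) {η : ℝ} (hη : 0 ≤ η) (f g : KB X) :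
    Z Ω ψ q η (mid f g) ≤ (Z Ω ψ q η f + Z Ω ψ q η g) / 2 := by
  refine Z_le hb q _ fun y hy => ?_
  have h1 := le_Z hb q hη f hy
  have h2 := le_Z hb q hη g hy
  rw [mid_apply]
  linarith

theorem Z_lsc (hb : Bump Ω ψ R) (q : X) {η : ℝ} (hη : 0 ≤ η) :
    LowerSemicontinuous (Z Ω ψ q η) := by
  intro f c hc
  haveI : Nonempty Ω := ⟨⟨0, hb.zero_mem⟩⟩
  obtain ⟨y, hy⟩ := exists_lt_of_lt_ciSup hc
  have hcont : Continuous fun g : KB X => g.1 (y : X) - ψ y - η * ‖(y : X) - q‖ :=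
    ((KB.continuous_eval (y : X)).sub continuous_const).sub continuous_const
  have h1 : ∀ᶠ g in nhds f, c < g.1 (y : X) - ψ y - η * ‖(y : X) - q‖ :=
    hcont.continuousAt.eventually (lt_mem_nhds hy)
  exact h1.mono fun g hg => lt_of_lt_of_le hg (le_Z hb q hη g y.2)

end Pool.Agent.D7

/-! ### Z3 -/
namespace Pool.Agent.D7

variable {X Γ : Type} [NormedAddCommGroup X] [NormedSpace ℝ X] {Ω : Set X} {ψ : X → ℝ} {R : ℝ}
variable {Φ : KB X → Γ → ℝ} {w : Finset Γ → Set Γ} {Q : Finset Γ → Set X}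

theorem sepLe (hs : Sys Φ Ω ψ w Q) (hb : Bump Ω ψ R) {A : Set Γ} (hA : IsCl w A) (f : KB X)
    {q : X} (hq : q ∈ QA Q A) {k : ℕ} (hk : 0 < k) :
    Z Ω ψ q (1 / (k : ℝ)) (ret Φ A f) ≤ Z Ω ψ q (1 / (k : ℝ)) f := by
  by_contra hcon
  rw [not_le] at hcon
  have hη : (0 : ℝ) ≤ 1 / (k : ℝ) := by positivity
  have : Nonempty Ω := ⟨⟨0, hb.zero_mem⟩⟩
  have h0 : Z Ω ψ q (1 / (k : ℝ)) f <
      ⨆ y : Ω, ((ret Φ A f).1 (y : X) - ψ y - 1 / (k : ℝ) * ‖(y : X) - q‖) := hcon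
  obtain ⟨y', hy'⟩ := exists_lt_of_lt_ciSup h0
  have hg : ∀ γ, γ ∉ A → Φ (ret Φ A f) γ = 0 := by
    intro γ hγ
    rw [Phi_ret (hs.adm A hA) f]
    exact Set.indicator_of_notMem hγ _
  obtain ⟨y, hyΩ, hyA, hlt⟩ := hs.g2 A hA (ret Φ A f) hg q hq k hk _ y'.1 y'.2 hy'
  have he : f.1 y = (ret Φ A f).1 y := hyA f
  rw [← he] at hlt
  exact absurd hlt (not_lt.mpr (le_Z hb q hη f hyΩ))

theorem z3_cont (g : KB X) : Continuous fun y : X => g.1 y := by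
  have h : LipschitzWith 1 fun y : X => g.1 y := by
    apply LipschitzWith.of_dist_le_mul
    intro x y
    have h1 : g.1 x - g.1 y = g.1 (x - y) := (map_sub g.1 x y).symm
    rw [Real.dist_eq, h1, dist_eq_norm]
    simpa using g.2 (x - y)
  exact h.continuous

theorem ekeland_point [CompleteSpace X] (hs : Sys Φ Ω ψ w Q) (hb : Bump Ω ψ R) {A : Set Γ}
    (hA : IsCl w A) (g : KB X) (hg : ∀ γ, γ ∉ A → Φ g γ = 0) {k : ℕ} (hk : 0 < k) :
    ∃ z ∈ Ω, z ∈ XA Φ A ∧ ∀ y ∈ Ω,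
      g.1 y - ψ y - 1 / (k : ℝ) * ‖y - z‖ ≤ g.1 z - ψ z := by
  have hkR : (1 : ℝ) ≤ (k : ℝ) := by exact_mod_cast hk
  have hη : (0 : ℝ) < 1 / (k : ℝ) := by positivity
  have hη1 : 1 / (k : ℝ) ≤ 1 := by
    rw [div_le_one (by linarith)]
    exact hkR
  have hg0 : g.1 (0 : X) = 0 := map_zero g.1
  have hgR : ∀ y ∈ Ω, |g.1 y| ≤ R := fun y hy => (g.2 y).trans (hb.bdd y hy)
  obtain ⟨W, hW, hWc⟩ := XA_submodule Φ A
  have h0A : (0 : X) ∈ XA Φ A := by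
    rw [← hW]
    exact W.zero_mem
  set S : Set X := {y | y ∈ Ω ∧ y ∈ XA Φ A ∧ ψ y - g.1 y ≤ ψ 0 - g.1 0} with hSdef
  set D : Set X := {y | y ∈ Ω ∧ ψ y ≤ ψ 0 + R} with hDdef
  have hDc : IsClosed D := hb.closed (ψ 0 + R)
  have hDO : D ⊆ Ω := fun y hy => hy.1
  have hφD : ContinuousOn (fun y => ψ y - g.1 y) D :=
    (hb.cont.mono hDO).sub (z3_cont g).continuousOn
  have hSD : S ⊆ D := by
    intro y hy
    refine ⟨hy.1, ?_⟩
    have h1 := hy.2.2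
    have h2 := (abs_le.mp (hgR y hy.1)).2
    rw [hg0] at h1
    linarith
  have hS : IsClosed S := by
    have h1 : IsClosed (D ∩ (fun y => ψ y - g.1 y) ⁻¹' Set.Iic (ψ 0 - g.1 0)) :=
      hφD.preimage_isClosed_of_isClosed hDc isClosed_Iic
    have h2 : IsClosed (XA Φ A) := by
      rw [← hW]
      exact hWc
    have h3 : S = (D ∩ (fun y => ψ y - g.1 y) ⁻¹' Set.Iic (ψ 0 - g.1 0)) ∩ XA Φ A := by
      ext y
      constructor
      · intro hy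
        exact ⟨⟨hSD hy, hy.2.2⟩, hy.2.1⟩
      · intro hy
        exact ⟨hy.1.1.1, hy.2, hy.1.2⟩
    rw [h3]
    exact h1.inter h2
  obtain ⟨z, hzS, hz0, hz⟩ := ekeland S hS (fun y => ψ y - g.1 y) (hφD.mono hSD) (-R)
    (fun y hy => by
      have h1 := hb.nonneg y
      have h2 := (abs_le.mp (hgR y hy.1)).2
      show -R ≤ ψ y - g.1 y
      linarith) 0 ⟨hb.zero_mem, h0A, le_rfl⟩ (1 / (k : ℝ)) hη
  have hzA : ∀ y ∈ Ω, y ∈ XA Φ A →
      g.1 y - ψ y - 1 / (k : ℝ) * ‖y - z‖ ≤ g.1 z - ψ z := by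
    intro y hy hyA
    by_cases hyS : y ∈ S
    · have h1 := hz y hyS
      rw [dist_eq_norm] at h1
      have h1' : ψ z - g.1 z - 1 / (k : ℝ) * ‖y - z‖ ≤ ψ y - g.1 y := h1
      linarith
    · have h1 : ψ 0 - g.1 0 < ψ y - g.1 y := by
        by_contra hc
        exact hyS ⟨hy, hyA, not_lt.mp hc⟩
      have h2 : ψ z - g.1 z ≤ ψ 0 - g.1 0 := hz0
      have h3 : 0 ≤ 1 / (k : ℝ) * ‖y - z‖ := by positivity
      linarith
  refine ⟨z, hzS.1, hzS.2.1, ?_⟩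
  intro y' hy'
  by_contra hcon
  rw [not_le] at hcon
  set δ : ℝ := (g.1 y' - ψ y' - 1 / (k : ℝ) * ‖y' - z‖ - (g.1 z - ψ z)) / 4 with hδ
  have hδ0 : 0 < δ := by
    rw [hδ]
    linarith
  have hcl : z ∈ closure (QA Q A) := hs.dense A hA hzS.2.1
  obtain ⟨q, hqQ, hqd⟩ := Metric.mem_closure_iff.mp hcl δ hδ0
  rw [dist_eq_norm] at hqd
  have hmul : 1 / (k : ℝ) * ‖z - q‖ ≤ δ := by
    calc 1 / (k : ℝ) * ‖z - q‖ ≤ 1 * ‖z - q‖ :=
          mul_le_mul_of_nonneg_right hη1 (norm_nonneg _)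
      _ ≤ δ := by rw [one_mul]; exact hqd.le
  have htri1 : 1 / (k : ℝ) * ‖y' - q‖ ≤ 1 / (k : ℝ) * ‖y' - z‖ + 1 / (k : ℝ) * ‖z - q‖ := by
    rw [← mul_add]
    apply mul_le_mul_of_nonneg_left _ hη.le
    have : y' - q = (y' - z) + (z - q) := by abel
    rw [this]
    exact norm_add_le _ _
  have h4 : g.1 z - ψ z + 2 * δ < g.1 y' - ψ y' - 1 / (k : ℝ) * ‖y' - q‖ := by
    have h5 : g.1 y' - ψ y' - 1 / (k : ℝ) * ‖y' - z‖ = (g.1 z - ψ z) + 4 * δ := by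
      rw [hδ]
      ring
    linarith
  obtain ⟨y, hyΩ, hyA, hlt⟩ := hs.g2 A hA g hg q hqQ k hk _ y' hy' h4
  have h6 := hzA y hyΩ hyA
  have htri2 : 1 / (k : ℝ) * ‖y - z‖ ≤ 1 / (k : ℝ) * ‖y - q‖ + 1 / (k : ℝ) * ‖z - q‖ := by
    rw [← mul_add]
    apply mul_le_mul_of_nonneg_left _ hη.le
    have : y - z = (y - q) - (z - q) := by abel
    rw [this]
    exact norm_sub_le _ _
  linarith

end Pool.Agent.D7

/-! ### Z4 -/
namespace Pool.Agent.D7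

variable {X Γ : Type} [NormedAddCommGroup X] [NormedSpace ℝ X] {Ω : Set X} {ψ : X → ℝ} {R : ℝ}
variable {Φ : KB X → Γ → ℝ} {w : Finset Γ → Set Γ} {Q : Finset Γ → Set X}

theorem z4_eps {f : ℝ → ℝ} {a : ℝ} (hf : HasDerivAt f a 0) (ε : ℝ) (hε : 0 < ε) :
    ∃ δ > 0, ∀ t : ℝ, |t| < δ → |f t - f 0 - t * a| ≤ ε * |t| := by
  rw [hasDerivAt_iff_isLittleO, Asymptotics.isLittleO_iff] at hf
  obtain ⟨δ, hδ, h⟩ := Metric.eventually_nhds_iff.1 (hf hε)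
  refine ⟨δ, hδ, fun t ht => ?_⟩
  have h1 := h (y := t) (by rw [dist_zero_right, Real.norm_eq_abs]; exact ht)
  simpa only [sub_zero, smul_eq_mul, Real.norm_eq_abs] using h1

theorem sepLt [CompleteSpace X] (hs : Sys Φ Ω ψ w Q) (hb : Bump Ω ψ R) {A : Set Γ}
    (hA : IsCl w A) (f : KB X) (hf : ret Φ A f ≠ f) :
    ∃ q ∈ QA Q A, ∃ k : ℕ, 0 < k ∧
      Z Ω ψ q (1 / (k : ℝ)) (ret Φ A f) < Z Ω ψ q (1 / (k : ℝ)) f := by
  obtain ⟨g, hgd⟩ : ∃ g, g = ret Φ A f := ⟨_, rfl⟩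
  rw [← hgd] at hf ⊢
  have hg0 : ∀ γ, γ ∉ A → Φ g γ = 0 := by
    intro γ hγ
    rw [hgd, Phi_ret (hs.adm A hA), Set.indicator_of_notMem hγ]
  have hv : ∃ v : X, g.1 v < f.1 v := by
    have h1 : ∃ x, g.1 x ≠ f.1 x := by
      by_contra hcon
      push Not at hcon
      exact hf (KB.ext hcon)
    obtain ⟨x, hx⟩ := h1
    rcases lt_or_gt_of_ne hx with h | h
    · exact ⟨x, h⟩
    · refine ⟨-x, ?_⟩
      rw [map_neg, map_neg]
      linarith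
  obtain ⟨v, hv⟩ := hv
  obtain ⟨d, hd⟩ : ∃ d, d = f.1 v - g.1 v := ⟨_, rfl⟩
  have hd0 : 0 < d := by rw [hd]; linarith
  obtain ⟨k, hk⟩ := exists_nat_gt (2 * ‖v‖ / d)
  have hk0' : (0 : ℝ) < k := lt_of_le_of_lt (by positivity) hk
  have hk0 : 0 < k := by exact_mod_cast hk0'
  obtain ⟨η, hη⟩ : ∃ η : ℝ, η = 1 / (k : ℝ) := ⟨_, rfl⟩
  have hη0 : 0 < η := by rw [hη]; positivity
  have hη1 : η ≤ 1 := by
    rw [hη, div_le_one hk0']
    exact_mod_cast hk0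
  have hηv : 2 * η * ‖v‖ < d := by
    rw [div_lt_iff₀ hd0] at hk
    rw [hη]
    have e : 2 * (1 / (k : ℝ)) * ‖v‖ = 2 * ‖v‖ / k := by ring
    rw [e, div_lt_iff₀ hk0']
    linarith
  obtain ⟨z, hz, hzA, hek⟩ := ekeland_point hs hb hA g hg0 hk0
  rw [← hη] at hek
  obtain ⟨a, ha⟩ := hb.diff z hz v
  have hΩ : ∃ δ > 0, ∀ t : ℝ, |t| < δ → z + t • v ∈ Ω := by
    have hc : Continuous fun t : ℝ => z + t • v := by fun_prop
    have h1 : ∀ᶠ t : ℝ in nhds 0, z + t • v ∈ Ω := by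
      refine hc.continuousAt.eventually ?_
      show Ω ∈ nhds (z + (0 : ℝ) • v)
      rw [zero_smul, add_zero]
      exact hb.isOpen.mem_nhds hz
    obtain ⟨δ, hδ, h2⟩ := Metric.eventually_nhds_iff.1 h1
    exact ⟨δ, hδ, fun t ht => h2 (by rw [dist_zero_right, Real.norm_eq_abs]; exact ht)⟩
  obtain ⟨δ0, hδ0, hΩ⟩ := hΩ
  have hnorm : ∀ t : ℝ, ‖z + t • v - z‖ = |t| * ‖v‖ := by
    intro t
    rw [add_sub_cancel_left, norm_smul, Real.norm_eq_abs]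
  have hlin : ∀ (h : KB X) (t : ℝ), h.1 (z + t • v) = h.1 z + t * h.1 v := by
    intro h t
    rw [map_add, map_smul, smul_eq_mul]
  -- step 1
  have hstep1 : a ≤ g.1 v + η * ‖v‖ := by
    by_contra hcon
    rw [not_le] at hcon
    obtain ⟨e, he⟩ : ∃ e, e = (a - g.1 v - η * ‖v‖) / 2 := ⟨_, rfl⟩
    have he0 : 0 < e := by rw [he]; linarith
    obtain ⟨δ1, hδ1, h1⟩ := z4_eps ha e he0
    obtain ⟨t, ht⟩ : ∃ t, t = min δ0 δ1 / 2 := ⟨_, rfl⟩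
    have ht0 : 0 < t := by rw [ht]; exact half_pos (lt_min hδ0 hδ1)
    have ht1 : t < δ0 := by
      have := min_le_left δ0 δ1
      rw [ht]; linarith [lt_min hδ0 hδ1]
    have ht2 : t < δ1 := by
      have := min_le_right δ0 δ1
      rw [ht]; linarith [lt_min hδ0 hδ1]
    have hab : |-t| = t := by rw [abs_neg, abs_of_pos ht0]
    have h2 := h1 (-t) (by rw [hab]; exact ht2)
    have h3 := hek _ (hΩ (-t) (by rw [hab]; exact ht1))
    rw [hnorm, hlin, hab] at h3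
    rw [hab, zero_smul, add_zero] at h2
    have h4 := (abs_le.1 h2).2
    have h5 : t * (2 * e) ≤ t * e := by
      have e1 : t * (2 * e) = t * a - t * g.1 v - t * (η * ‖v‖) := by rw [he]; ring
      rw [e1]
      linarith
    nlinarith
  -- step 2
  have hstep2 : g.1 z - ψ z < Z Ω ψ z η f := by
    obtain ⟨e, he⟩ : ∃ e, e = (d - 2 * η * ‖v‖) / 2 := ⟨_, rfl⟩
    have he0 : 0 < e := by rw [he]; linarith
    obtain ⟨δ1, hδ1, h1⟩ := z4_eps ha e he0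
    obtain ⟨t, ht⟩ : ∃ t, t = min δ0 δ1 / 2 := ⟨_, rfl⟩
    have ht0 : 0 < t := by rw [ht]; exact half_pos (lt_min hδ0 hδ1)
    have ht1 : t < δ0 := by
      have := min_le_left δ0 δ1
      rw [ht]; linarith [lt_min hδ0 hδ1]
    have ht2 : t < δ1 := by
      have := min_le_right δ0 δ1
      rw [ht]; linarith [lt_min hδ0 hδ1]
    have hab : |t| = t := abs_of_pos ht0
    have h2 := h1 t (by rw [hab]; exact ht2)
    have h3 := le_Z hb z hη0.le f (hΩ t (by rw [hab]; exact ht1))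
    rw [hnorm, hlin, hab] at h3
    rw [hab, zero_smul, add_zero] at h2
    have h4 := (abs_le.1 h2).2
    have h5 : f.1 z = g.1 z := by rw [hgd]; exact hzA f
    have h6 : t * a ≤ t * (g.1 v + η * ‖v‖) := mul_le_mul_of_nonneg_left hstep1 ht0.le
    have h7 : t * (2 * e) = t * d - 2 * (t * (η * ‖v‖)) := by rw [he]; ring
    have h8 : t * d = t * f.1 v - t * g.1 v := by rw [hd]; ring
    have h9 : 0 < t * e := mul_pos ht0 he0
    rw [h5] at h3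
    linarith
  have hstep3 : Z Ω ψ z η g ≤ g.1 z - ψ z := Z_le hb z g hek
  obtain ⟨gap, hgap⟩ : ∃ gap, gap = Z Ω ψ z η f - Z Ω ψ z η g := ⟨_, rfl⟩
  have hgap0 : 0 < gap := by rw [hgap]; linarith
  obtain ⟨q, hq, hqz⟩ := Metric.mem_closure_iff.1 (hs.dense A hA hzA) (gap / 2) (half_pos hgap0)
  rw [dist_eq_norm] at hqz
  refine ⟨q, hq, k, hk0, ?_⟩
  rw [← hη]
  have h1 := Z_lip hb q z hη0.le g
  have h2 := Z_lip hb z q hη0.le f
  rw [norm_sub_rev] at h1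
  have h3 : η * ‖z - q‖ ≤ 1 * ‖z - q‖ := mul_le_mul_of_nonneg_right hη1 (norm_nonneg _)
  linarith

end Pool.Agent.D7
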