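import Pool.Agent.Lib.MP_d74bc6_an.D01
import Pool.Agent.Lib.MP_d74bc6_an.D04

set_option autoImplicit false

/-! ### WS1 -/
namespace Pool.Agent.D7

variable {K : Type} (σ : ℕ → K → ℝ)

theorem ws1_geo : HasSum (fun m : ℕ => (1 / 2 : ℝ) ^ (m + 1)) 1 := by
  have h := hasSum_geometric_two.mul_left (1 / 2 : ℝ)
  have e : (fun m : ℕ => (1 / 2 : ℝ) ^ (m + 1)) = fun m : ℕ => (1 / 2 : ℝ) * (1 / 2) ^ m := by
    funext m
    rw [pow_succ]
    ring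
  rw [e]
  simpa using h

theorem wsum_summable (h0 : ∀ m f, 0 ≤ σ m f) (h1 : ∀ m f, σ m f ≤ 1) (f : K) :
    Summable fun m : ℕ => (1 / 2 : ℝ) ^ (m + 1) * σ m f := by
  refine Summable.of_nonneg_of_le (fun m => mul_nonneg (by positivity) (h0 m f)) (fun m => ?_)
    ws1_geo.summable
  exact mul_le_of_le_one_right (by positivity) (h1 m f)

theorem wsum_nonneg (h0 : ∀ m f, 0 ≤ σ m f) (f : K) : 0 ≤ wsum σ f :=
  tsum_nonneg fun m => mul_nonneg (by positivity) (h0 m f)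

theorem ws1_has (h0 : ∀ m f, 0 ≤ σ m f) (h1 : ∀ m f, σ m f ≤ 1) (f : K) :
    HasSum (fun m : ℕ => (1 / 2 : ℝ) ^ (m + 1) * σ m f) (wsum σ f) :=
  (wsum_summable σ h0 h1 f).hasSum

theorem wsum_le_one (h0 : ∀ m f, 0 ≤ σ m f) (h1 : ∀ m f, σ m f ≤ 1) (f : K) :
    wsum σ f ≤ 1 :=
  hasSum_le (fun m => mul_le_of_le_one_right (by positivity) (h1 m f)) (ws1_has σ h0 h1 f) ws1_geo

theorem wsum_le (h0 : ∀ m f, 0 ≤ σ m f) (h1 : ∀ m f, σ m f ≤ 1) (f g : K)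
    (h : ∀ m, σ m f ≤ σ m g) : wsum σ f ≤ wsum σ g :=
  hasSum_le (fun m => mul_le_mul_of_nonneg_left (h m) (by positivity)) (ws1_has σ h0 h1 f)
    (ws1_has σ h0 h1 g)

theorem wsum_lt (h0 : ∀ m f, 0 ≤ σ m f) (h1 : ∀ m f, σ m f ≤ 1) (f g : K)
    (h : ∀ m, σ m f ≤ σ m g) (m₀ : ℕ) (h' : σ m₀ f < σ m₀ g) : wsum σ f < wsum σ g :=
  hasSum_lt (i := m₀) (fun m => mul_le_mul_of_nonneg_left (h m) (by positivity))
    (mul_lt_mul_of_pos_left h' (by positivity)) (ws1_has σ h0 h1 f) (ws1_has σ h0 h1 g)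

theorem ws1_mid (h0 : ∀ m f, 0 ≤ σ m f) (h1 : ∀ m f, σ m f ≤ 1) (f g : K) :
    HasSum (fun m : ℕ => (1 / 2 : ℝ) ^ (m + 1) * ((σ m f + σ m g) / 2))
      ((wsum σ f + wsum σ g) / 2) := by
  have h := ((ws1_has σ h0 h1 f).add (ws1_has σ h0 h1 g)).div_const 2
  have e : (fun m : ℕ => (1 / 2 : ℝ) ^ (m + 1) * ((σ m f + σ m g) / 2)) =
      fun m : ℕ => ((1 / 2 : ℝ) ^ (m + 1) * σ m f + (1 / 2 : ℝ) ^ (m + 1) * σ m g) / 2 := by
    funext m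
    ring
  rw [e]
  exact h

theorem wsum_mid (h0 : ∀ m f, 0 ≤ σ m f) (h1 : ∀ m f, σ m f ≤ 1) (f g h : K)
    (hh : ∀ m, σ m h ≤ (σ m f + σ m g) / 2) : wsum σ h ≤ (wsum σ f + wsum σ g) / 2 :=
  hasSum_le (fun m => mul_le_mul_of_nonneg_left (hh m) (by positivity)) (ws1_has σ h0 h1 h)
    (ws1_mid σ h0 h1 f g)

theorem wsum_mid_lt (h0 : ∀ m f, 0 ≤ σ m f) (h1 : ∀ m f, σ m f ≤ 1) (f g h : K)
    (hh : ∀ m, σ m h ≤ (σ m f + σ m g) / 2) (m₀ : ℕ) (h' : σ m₀ h < (σ m₀ f + σ m₀ g) / 2) :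
    wsum σ h < (wsum σ f + wsum σ g) / 2 :=
  hasSum_lt (i := m₀) (fun m => mul_le_mul_of_nonneg_left (hh m) (by positivity))
    (mul_lt_mul_of_pos_left h' (by positivity)) (ws1_has σ h0 h1 h) (ws1_mid σ h0 h1 f g)

theorem wsum_lsc [TopologicalSpace K] (h0 : ∀ m f, 0 ≤ σ m f) (h1 : ∀ m f, σ m f ≤ 1)
    (hl : ∀ m, LowerSemicontinuous (σ m)) : LowerSemicontinuous (wsum σ) := by
  intro f c hc
  have ht := (ws1_has σ h0 h1 f).tendsto_sum_nat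
  obtain ⟨N, hN⟩ := (ht.eventually_const_lt hc).exists
  have hls : LowerSemicontinuous
      (fun f : K => ∑ m ∈ Finset.range N, (1 / 2 : ℝ) ^ (m + 1) * σ m f) := by
    refine lowerSemicontinuous_sum fun m _ => ?_
    intro x y hy
    have hp : (0 : ℝ) < (1 / 2) ^ (m + 1) := by positivity
    have hy' : y < (1 / 2 : ℝ) ^ (m + 1) * σ m x := hy
    have h2 : y / (1 / 2 : ℝ) ^ (m + 1) < σ m x := (div_lt_iff₀ hp).2 (by linarith)
    filter_upwards [hl m x _ h2] with z hz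
    have h3 := (div_lt_iff₀ hp).1 hz
    linarith
  filter_upwards [hls f c hN] with g hg
  refine hg.trans_le ?_
  exact (wsum_summable σ h0 h1 g).sum_le_tsum _ fun m _ => mul_nonneg (by positivity) (h0 m g)

end Pool.Agent.D7

/-! ### SF1 -/
namespace Pool.Agent.D7

variable {X : Type} [NormedAddCommGroup X] [NormedSpace ℝ X] {Ω : Set X} {ψ : X → ℝ} {R : ℝ}

theorem sf1_eta (k : ℕ) : (0 : ℝ) ≤ 1 / (k : ℝ) := by positivity

theorem sf1_den (hb : Bump Ω ψ R) (q : X) (k : ℕ) : 0 < R + ψ 0 + 1 / (k : ℝ) * ‖q‖ := by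
  have h1 := hb.pos
  have h2 := hb.nonneg 0
  have h3 : 0 ≤ 1 / (k : ℝ) * ‖q‖ := mul_nonneg (sf1_eta k) (norm_nonneg q)
  linarith

theorem sf1_zero (q : X) (f : KB X) : sig Ω ψ R q 0 f = (f.1 q) ^ 2 / (1 + ‖q‖) ^ 2 := by
  simp [sig]

theorem sf1_pos (q : X) {k : ℕ} (hk : 0 < k) (f : KB X) : sig Ω ψ R q k f =
    (Z Ω ψ q (1 / (k : ℝ)) f + ψ 0 + 1 / (k : ℝ) * ‖q‖) / (R + ψ 0 + 1 / (k : ℝ) * ‖q‖) := by
  unfold sig
  rw [if_neg hk.ne']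

theorem sig_nonneg (hb : Bump Ω ψ R) (q : X) (k : ℕ) (f : KB X) : 0 ≤ sig Ω ψ R q k f := by
  rcases Nat.eq_zero_or_pos k with rfl | hk
  · rw [sf1_zero]; positivity
  · rw [sf1_pos q hk]
    apply div_nonneg _ (sf1_den hb q k).le
    have := Z_ge hb q (sf1_eta k) f
    linarith

theorem sig_le_one (hb : Bump Ω ψ R) (q : X) (k : ℕ) (f : KB X) : sig Ω ψ R q k f ≤ 1 := by
  rcases Nat.eq_zero_or_pos k with rfl | hk
  · rw [sf1_zero]
    have h1 : |f.1 q| ≤ 1 + ‖q‖ := by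
      have := f.2 q
      linarith
    have h0 : 0 < (1 + ‖q‖) ^ 2 := by positivity
    rw [div_le_one h0, ← sq_abs (f.1 q)]
    exact pow_le_pow_left₀ (abs_nonneg _) h1 2
  · rw [sf1_pos q hk, div_le_one (sf1_den hb q k)]
    have := Z_le_R hb q (sf1_eta k) f
    linarith

theorem sig_mid (hb : Bump Ω ψ R) (q : X) (k : ℕ) (f g : KB X) :
    sig Ω ψ R q k (mid f g) ≤ (sig Ω ψ R q k f + sig Ω ψ R q k g) / 2 := by
  rcases Nat.eq_zero_or_pos k with rfl | hk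
  · rw [sf1_zero, sf1_zero, sf1_zero, mid_apply]
    have h0 : 0 < (1 + ‖q‖) ^ 2 := by positivity
    rw [← add_div, div_div, div_le_div_iff₀ h0 (by positivity)]
    nlinarith [mul_nonneg h0.le (sq_nonneg (f.1 q - g.1 q))]
  · rw [sf1_pos q hk, sf1_pos q hk, sf1_pos q hk]
    have h0 := sf1_den hb q k
    have h1 := Z_mid hb q (sf1_eta k) f g
    rw [← add_div, div_div, div_le_div_iff₀ h0 (by positivity)]
    nlinarith

theorem sig_mid_lt (q : X) (f g : KB X) (h : f.1 q ≠ g.1 q) :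
    sig Ω ψ R q 0 (mid f g) < (sig Ω ψ R q 0 f + sig Ω ψ R q 0 g) / 2 := by
  rw [sf1_zero, sf1_zero, sf1_zero, mid_apply]
  have h0 : 0 < (1 + ‖q‖) ^ 2 := by positivity
  have h1 : 0 < (f.1 q - g.1 q) ^ 2 := by
    have : f.1 q - g.1 q ≠ 0 := sub_ne_zero.2 h
    positivity
  rw [← add_div, div_div, div_lt_div_iff₀ h0 (by positivity)]
  nlinarith [mul_pos h0 h1]

theorem sig_lsc (hb : Bump Ω ψ R) (q : X) (k : ℕ) : LowerSemicontinuous (sig Ω ψ R q k) := by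
  rcases Nat.eq_zero_or_pos k with rfl | hk
  · have h1 : Continuous (sig Ω ψ R q 0) := by
      have h2 : (sig Ω ψ R q 0) = fun f : KB X => (f.1 q) ^ 2 / (1 + ‖q‖) ^ 2 := by
        funext f; exact sf1_zero q f
      rw [h2]
      exact ((KB.continuous_eval q).pow 2).div_const _
    exact h1.lowerSemicontinuous
  · intro f c hc
    have h0 := sf1_den hb q k
    rw [sf1_pos q hk, gt_iff_lt, lt_div_iff₀ h0] at hc
    have h1 := Z_lsc hb q (sf1_eta k) f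
      (c * (R + ψ 0 + 1 / (k : ℝ) * ‖q‖) - ψ 0 - 1 / (k : ℝ) * ‖q‖) (by linarith)
    filter_upwards [h1] with g hg
    change c < sig Ω ψ R q k g
    rw [sf1_pos q hk, lt_div_iff₀ h0]
    linarith

theorem sig_zero_eq (q : X) (f g : KB X) (h : f.1 q = g.1 q) :
    sig Ω ψ R q 0 f = sig Ω ψ R q 0 g := by
  rw [sf1_zero, sf1_zero, h]

theorem sig_le_of (hb : Bump Ω ψ R) (q : X) {k : ℕ} (hk : 0 < k) (f g : KB X)
    (h : Z Ω ψ q (1 / (k : ℝ)) g ≤ Z Ω ψ q (1 / (k : ℝ)) f) :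
    sig Ω ψ R q k g ≤ sig Ω ψ R q k f := by
  rw [sf1_pos q hk, sf1_pos q hk]
  apply div_le_div_of_nonneg_right _ (sf1_den hb q k).le
  linarith

theorem sig_lt_of (hb : Bump Ω ψ R) (q : X) {k : ℕ} (hk : 0 < k) (f g : KB X)
    (h : Z Ω ψ q (1 / (k : ℝ)) g < Z Ω ψ q (1 / (k : ℝ)) f) :
    sig Ω ψ R q k g < sig Ω ψ R q k f := by
  rw [sf1_pos q hk, sf1_pos q hk]
  apply div_lt_div_of_pos_right _ (sf1_den hb q k)
  linarith

end Pool.Agent.D7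

/-! ### SD -/
namespace Pool.Agent.D7

/-- The properties of the family `S_F`. -/
structure SProp {X Γ : Type} [NormedAddCommGroup X] [NormedSpace ℝ X] (Ω : Set X) (ψ : X → ℝ)
    (w : Finset Γ → Set Γ) (Q : Finset Γ → Set X)
    (S : Finset (List Γ × ℕ) → KB X → ℝ) : Prop where
  nonneg : ∀ F f, 0 ≤ S F f
  le_one : ∀ F f, S F f ≤ 1
  lsc : ∀ F, LowerSemicontinuous (S F)
  midc : ∀ F f g, S F (mid f g) ≤ (S F f + S F g) / 2
  midlt : ∀ (F : Finset (List Γ × ℕ)) (f g : KB X), (∃ q ∈ QA Q (AF w (↑F : Set (List Γ × ℕ))), f.1 q ≠ g.1 q) →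
    S F (mid f g) < (S F f + S F g) / 2
  cmp : ∀ (F : Finset (List Γ × ℕ)) (f g : KB X), (∀ q ∈ QA Q (AF w (↑F : Set (List Γ × ℕ))), f.1 q = g.1 q) →
    (∀ q ∈ QA Q (AF w (↑F : Set (List Γ × ℕ))), ∀ k : ℕ, 0 < k →
      Z Ω ψ q (1 / (k : ℝ)) g ≤ Z Ω ψ q (1 / (k : ℝ)) f) → S F g ≤ S F f
  cmplt : ∀ (F : Finset (List Γ × ℕ)) (f g : KB X), (∀ q ∈ QA Q (AF w (↑F : Set (List Γ × ℕ))), f.1 q = g.1 q) →
    (∀ q ∈ QA Q (AF w (↑F : Set (List Γ × ℕ))), ∀ k : ℕ, 0 < k →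
      Z Ω ψ q (1 / (k : ℝ)) g ≤ Z Ω ψ q (1 / (k : ℝ)) f) →
    (∃ q ∈ QA Q (AF w (↑F : Set (List Γ × ℕ))), ∃ k : ℕ, 0 < k ∧
      Z Ω ψ q (1 / (k : ℝ)) g < Z Ω ψ q (1 / (k : ℝ)) f) → S F g < S F f

end Pool.Agent.D7

/-! ### SF2 -/
namespace Pool.Agent.D7

theorem exists_S {X Γ : Type} [NormedAddCommGroup X] [NormedSpace ℝ X] {Ω : Set X} {ψ : X → ℝ}
    {R : ℝ} {Φ : KB X → Γ → ℝ} {w : Finset Γ → Set Γ} {Q : Finset Γ → Set X}
    (hs : Sys Φ Ω ψ w Q) (hb : Bump Ω ψ R) :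
    ∃ S : Finset (List Γ × ℕ) → KB X → ℝ, SProp Ω ψ w Q S := by
  classical
  have key : ∀ F : Finset (List Γ × ℕ), ∃ e : ℕ → X × ℕ,
      {p : X × ℕ | p.1 ∈ QA Q (AF w (↑F : Set (List Γ × ℕ)))} = Set.range e := by
    intro F
    have hfin : {γ : Γ | ∃ i ∈ (↑F : Set (List Γ × ℕ)), γ ∈ i.1}.Finite := by
      have h1 : {γ : Γ | ∃ i ∈ (↑F : Set (List Γ × ℕ)), γ ∈ i.1} =
          ⋃ i ∈ (↑F : Set (List Γ × ℕ)), {γ | γ ∈ i.1} := by
        ext γ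
        simp
      rw [h1]
      exact F.finite_toSet.biUnion fun i _ => List.finite_toSet i.1
    have hAF : (AF w (↑F : Set (List Γ × ℕ))).Countable := cl_countable hs.wc hfin.countable
    have hQA : (QA Q (AF w (↑F : Set (List Γ × ℕ)))).Countable := by
      have h1 : QA Q (AF w (↑F : Set (List Γ × ℕ))) =
          ⋃ G ∈ {G : Finset Γ | (↑G : Set Γ) ⊆ AF w (↑F : Set (List Γ × ℕ))}, Q G := by
        ext q
        simp [QA]
      rw [h1]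
      exact (countable_finsets hAF).biUnion fun G _ => hs.qc G
    have h2 : {p : X × ℕ | p.1 ∈ QA Q (AF w (↑F : Set (List Γ × ℕ)))}.Countable := by
      have h1 : {p : X × ℕ | p.1 ∈ QA Q (AF w (↑F : Set (List Γ × ℕ)))} =
          (QA Q (AF w (↑F : Set (List Γ × ℕ)))) ×ˢ (Set.univ : Set ℕ) := by
        ext p
        simp
      rw [h1]
      exact hQA.prod Set.countable_univ
    exact h2.exists_eq_range ⟨(0, 0), ∅, by simp, hs.q0 ∅⟩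
  choose e he using key
  have hmem : ∀ (F : Finset (List Γ × ℕ)) (m : ℕ), (e F m).1 ∈ QA Q (AF w (↑F : Set (List Γ × ℕ))) := by
    intro F m
    have h1 : e F m ∈ {p : X × ℕ | p.1 ∈ QA Q (AF w (↑F : Set (List Γ × ℕ)))} := by
      rw [he F]
      exact Set.mem_range_self m
    exact h1
  have hsurj : ∀ (F : Finset (List Γ × ℕ)), ∀ q ∈ QA Q (AF w (↑F : Set (List Γ × ℕ))), ∀ k : ℕ, ∃ m, e F m = (q, k) := by
    intro F q hq k
    have h1 : (q, k) ∈ {p : X × ℕ | p.1 ∈ QA Q (AF w (↑F : Set (List Γ × ℕ)))} := hq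
    rw [he F] at h1
    exact h1
  have h0 : ∀ F, ∀ m (f : KB X), 0 ≤ sig Ω ψ R (e F m).1 (e F m).2 f :=
    fun F m f => sig_nonneg hb _ _ f
  have h1 : ∀ F, ∀ m (f : KB X), sig Ω ψ R (e F m).1 (e F m).2 f ≤ 1 :=
    fun F m f => sig_le_one hb _ _ f
  have hle : ∀ (F : Finset (List Γ × ℕ)) (f g : KB X),
      (∀ q ∈ QA Q (AF w (↑F : Set (List Γ × ℕ))), f.1 q = g.1 q) →
      (∀ q ∈ QA Q (AF w (↑F : Set (List Γ × ℕ))), ∀ k : ℕ, 0 < k →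
        Z Ω ψ q (1 / (k : ℝ)) g ≤ Z Ω ψ q (1 / (k : ℝ)) f) →
      ∀ m, sig Ω ψ R (e F m).1 (e F m).2 g ≤ sig Ω ψ R (e F m).1 (e F m).2 f := by
    intro F f g hfg hZ m
    rcases Nat.eq_zero_or_pos (e F m).2 with hk | hk
    · rw [hk]
      exact (sig_zero_eq (e F m).1 f g (hfg _ (hmem F m))).ge
    · exact sig_le_of hb _ hk f g (hZ _ (hmem F m) _ hk)
  refine ⟨fun F f => wsum (fun m f => sig Ω ψ R (e F m).1 (e F m).2 f) f, ?_⟩
  refine ⟨?_, ?_, ?_, ?_, ?_, ?_, ?_⟩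
  · intro F f
    exact wsum_nonneg _ (h0 F) f
  · intro F f
    exact wsum_le_one _ (h0 F) (h1 F) f
  · intro F
    exact wsum_lsc _ (h0 F) (h1 F) fun m => sig_lsc hb _ _
  · intro F f g
    exact wsum_mid _ (h0 F) (h1 F) f g (mid f g) fun m => sig_mid hb _ _ f g
  · intro F f g ⟨q, hq, hne⟩
    obtain ⟨m, hm⟩ := hsurj F q hq 0
    refine wsum_mid_lt _ (h0 F) (h1 F) f g (mid f g) (fun m => sig_mid hb _ _ f g) m ?_
    show sig Ω ψ R (e F m).1 (e F m).2 (mid f g) <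
      (sig Ω ψ R (e F m).1 (e F m).2 f + sig Ω ψ R (e F m).1 (e F m).2 g) / 2
    rw [hm]
    exact sig_mid_lt q f g hne
  · intro F f g hfg hZ
    exact wsum_le _ (h0 F) (h1 F) g f (hle F f g hfg hZ)
  · intro F f g hfg hZ ⟨q, hq, k, hk, hlt⟩
    obtain ⟨m, hm⟩ := hsurj F q hq k
    refine wsum_lt _ (h0 F) (h1 F) g f (hle F f g hfg hZ) m ?_
    show sig Ω ψ R (e F m).1 (e F m).2 g < sig Ω ψ R (e F m).1 (e F m).2 f
    rw [hm]
    exact sig_lt_of hb q hk f g hlt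

end Pool.Agent.D7
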