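import Pool.Agent.Lib.MP_d74bc6_an.D01

set_option autoImplicit false

/-! ### CH1 -/
namespace Pool.Agent.D7

variable {I : Type} [DecidableEq I] {C : Finset I → ℝ}

theorem Subm.nonneg (hC : Subm C) (F : Finset I) : 0 ≤ C F := by
  have h := hC.mono ∅ F (Finset.empty_subset F)
  rw [hC.empty] at h
  exact h

/-- The marginals are nonnegative. -/
theorem ch1_marg (hC : Subm C) (i : I) (F : Finset I) : 0 ≤ C (insert i F) - C F :=
  sub_nonneg.mpr (hC.mono F (insert i F) (Finset.subset_insert i F))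

theorem ch1_cons (s : I → ℝ) (i : I) (l : List I) :
    V C s (i :: l) = V C s l + (C (insert i l.toFinset) - C l.toFinset) * (s i) ^ 2 := rfl

theorem ch1_nil (s : I → ℝ) : V C s [] = 0 := rfl

theorem V_nonneg (hC : Subm C) (s : I → ℝ) (l : List I) : 0 ≤ V C s l := by
  induction l with
  | nil => exact le_of_eq (ch1_nil s).symm
  | cons i l ih =>
    rw [ch1_cons]
    exact add_nonneg ih (mul_nonneg (ch1_marg hC i _) (sq_nonneg _))

theorem V_le (hC : Subm C) (s : I → ℝ) (B : ℝ) (h : ∀ i, (s i) ^ 2 ≤ B) (l : List I) :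
    V C s l ≤ B * C l.toFinset := by
  induction l with
  | nil => rw [ch1_nil, List.toFinset_nil, hC.empty, mul_zero]
  | cons i l ih =>
    rw [ch1_cons, List.toFinset_cons]
    have h1 := mul_le_mul_of_nonneg_left (h i) (ch1_marg hC i l.toFinset)
    linarith

theorem V_convex (hC : Subm C) (s s' : I → ℝ) (a b : ℝ) (ha : 0 ≤ a) (hb : 0 ≤ b)
    (hab : a + b = 1) (l : List I) :
    V C (a • s + b • s') l ≤ a * V C s l + b * V C s' l := by
  induction l with
  | nil => rw [ch1_nil, ch1_nil, ch1_nil]; linarith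
  | cons i l ih =>
    rw [ch1_cons, ch1_cons, ch1_cons]
    have h0 : (a • s + b • s') i = a * s i + b * s' i := rfl
    have h1 : (a * s i + b * s' i) ^ 2 ≤ a * (s i) ^ 2 + b * (s' i) ^ 2 := by
      have h2 : a * (s i) ^ 2 + b * (s' i) ^ 2 - (a * s i + b * s' i) ^ 2 =
          a * b * (s i - s' i) ^ 2 := by
        have hb' : b = 1 - a := by linarith
        rw [hb']; ring
      have h3 : 0 ≤ a * b * (s i - s' i) ^ 2 := mul_nonneg (mul_nonneg ha hb) (sq_nonneg _)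
      linarith
    rw [h0]
    have h4 := mul_le_mul_of_nonneg_left h1 (ch1_marg hC i l.toFinset)
    nlinarith [ih, h4]

theorem V_lip (hC : Subm C) (s s' : I → ℝ) (δ : ℝ) (h : ∀ i, (s i) ^ 2 ≤ (s' i) ^ 2 + δ)
    (l : List I) : V C s l ≤ V C s' l + δ * C l.toFinset := by
  induction l with
  | nil => rw [ch1_nil, ch1_nil, List.toFinset_nil, hC.empty, mul_zero, add_zero]
  | cons i l ih =>
    rw [ch1_cons, ch1_cons, List.toFinset_cons]
    have h1 := mul_le_mul_of_nonneg_left (h i) (ch1_marg hC i l.toFinset)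
    linarith

theorem V_ind (hC : Subm C) (G : Finset I) (l : List I) :
    V C (fun i => if i ∈ G then 1 else 0) l ≤ C (l.toFinset ∩ G) := by
  induction l with
  | nil => rw [ch1_nil]; exact hC.nonneg _
  | cons i l ih =>
    rw [ch1_cons, List.toFinset_cons]
    by_cases hG : i ∈ G
    · rw [if_pos hG, Finset.insert_inter_of_mem hG]
      by_cases hl : i ∈ l.toFinset
      · have h1 : i ∈ l.toFinset ∩ G := Finset.mem_inter.mpr ⟨hl, hG⟩
        rw [Finset.insert_eq_of_mem hl, Finset.insert_eq_of_mem h1]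
        linarith
      · have h1 := hC.sub (l.toFinset ∩ G) l.toFinset i Finset.inter_subset_left hl
        linarith
    · rw [if_neg hG, Finset.insert_inter_of_notMem hG]
      linarith

theorem ch1_layer (hC : Subm C) (s : I → ℝ) (N : ℕ) (v : ℕ → ℝ)
    (F : ℕ → Finset I) (r : ℝ)
    (h : ∀ i, (s i) ^ 2 ≤ (∑ j ∈ Finset.range N, if i ∈ F j then v j else 0) + r)
    (l : List I) :
    V C s l ≤ (∑ j ∈ Finset.range N, v j * V C (fun i => if i ∈ F j then 1 else 0) l) +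
      r * C l.toFinset := by
  induction l with
  | nil =>
    rw [ch1_nil, List.toFinset_nil, hC.empty, mul_zero, add_zero]
    refine le_of_eq (Finset.sum_eq_zero fun j _ => ?_).symm
    rw [ch1_nil, mul_zero]
  | cons i l ih =>
    rw [ch1_cons, List.toFinset_cons]
    have h1 := mul_le_mul_of_nonneg_left (h i) (ch1_marg hC i l.toFinset)
    have h2 : ∑ j ∈ Finset.range N, v j * V C (fun i => if i ∈ F j then 1 else 0) (i :: l) =
        (∑ j ∈ Finset.range N, v j * V C (fun i => if i ∈ F j then 1 else 0) l) +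
        (C (insert i l.toFinset) - C l.toFinset) *
          ∑ j ∈ Finset.range N, if i ∈ F j then v j else 0 := by
      rw [Finset.mul_sum, ← Finset.sum_add_distrib]
      refine Finset.sum_congr rfl fun j _ => ?_
      rw [ch1_cons]
      by_cases hj : i ∈ F j
      · rw [if_pos hj, if_pos hj]; ring
      · rw [if_neg hj, if_neg hj]; ring
    rw [h2]
    linarith

theorem V_layer (hC : Subm C) (s : I → ℝ) (N : ℕ) (v : ℕ → ℝ) (hv : ∀ j, 0 ≤ v j)
    (F : ℕ → Finset I) (r : ℝ) (hr : 0 ≤ r)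
    (h : ∀ i, (s i) ^ 2 ≤ (∑ j ∈ Finset.range N, if i ∈ F j then v j else 0) + r)
    (l : List I) :
    V C s l ≤ (∑ j ∈ Finset.range N, v j * C (F j)) + r := by
  refine (ch1_layer hC s N v F r h l).trans (add_le_add (Finset.sum_le_sum fun j _ => ?_) ?_)
  · exact mul_le_mul_of_nonneg_left ((V_ind hC (F j) l).trans
      (hC.mono _ _ Finset.inter_subset_right)) (hv j)
  · calc r * C l.toFinset ≤ r * 1 := mul_le_mul_of_nonneg_left (hC.le_one _) hr
      _ = r := mul_one r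

end Pool.Agent.D7

/-! ### CH2 -/
namespace Pool.Agent.D7

section
variable {I : Type}

theorem C0.bdd {s : I → ℝ} (hs : C0 s) : ∃ B : ℝ, 0 ≤ B ∧ ∀ i, |s i| ≤ B := by
  have hf := hs 1 one_pos
  refine ⟨1 + ∑ i ∈ hf.toFinset, |s i|, ?_, ?_⟩
  · have : 0 ≤ ∑ i ∈ hf.toFinset, |s i| := Finset.sum_nonneg (fun i _ => abs_nonneg _)
    linarith
  · intro i
    by_cases h : 1 ≤ |s i|
    · have hi : i ∈ hf.toFinset := by simpa using h
      have := Finset.single_le_sum (f := fun i => |s i|) (fun i _ => abs_nonneg _) hi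
      linarith
    · have : 0 ≤ ∑ i ∈ hf.toFinset, |s i| := Finset.sum_nonneg (fun i _ => abs_nonneg _)
      push Not at h
      linarith

theorem C0.sq {s : I → ℝ} (hs : C0 s) : ∃ B : ℝ, 0 ≤ B ∧ ∀ i, (s i) ^ 2 ≤ B := by
  obtain ⟨B, hB, h⟩ := hs.bdd
  refine ⟨B ^ 2, by positivity, fun i => ?_⟩
  rw [← sq_abs]
  exact pow_le_pow_left₀ (abs_nonneg _) (h i) 2

theorem C0.add {s s' : I → ℝ} (hs : C0 s) (hs' : C0 s') : C0 (s + s') := by
  intro ε hε
  refine ((hs (ε / 2) (by linarith)).union (hs' (ε / 2) (by linarith))).subset ?_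
  intro i hi
  simp only [Set.mem_ofPred_eq, Pi.add_apply] at hi
  simp only [Set.mem_union, Set.mem_ofPred_eq]
  by_contra hcon
  push Not at hcon
  have := abs_add_le (s i) (s' i)
  linarith [hcon.1, hcon.2]

theorem C0.smul {s : I → ℝ} (hs : C0 s) (a : ℝ) : C0 (a • s) := by
  intro ε hε
  by_cases ha : a = 0
  · subst ha
    have : {i | ε ≤ |((0 : ℝ) • s) i|} = ∅ := by
      ext i
      simp only [Set.mem_ofPred_eq, zero_smul, Pi.zero_apply, abs_zero, Set.mem_empty_iff_false,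
        iff_false, not_le]
      exact hε
    rw [this]
    exact Set.finite_empty
  · have ha' : 0 < |a| := abs_pos.mpr ha
    refine (hs (ε / |a|) (div_pos hε ha')).subset ?_
    intro i hi
    simp only [Set.mem_ofPred_eq, Pi.smul_apply, smul_eq_mul, abs_mul] at hi
    simp only [Set.mem_ofPred_eq]
    rw [div_le_iff₀ ha']
    linarith [mul_comm (|a|) (|s i|)]

theorem C0.sub {s s' : I → ℝ} (hs : C0 s) (hs' : C0 s') : C0 (s - s') := by
  have : s - s' = s + (-1 : ℝ) • s' := by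
    rw [neg_one_smul, sub_eq_add_neg]
  rw [this]
  exact hs.add (hs'.smul _)

theorem C0.countable {s : I → ℝ} (hs : C0 s) : {i | s i ≠ 0}.Countable := by
  have : {i | s i ≠ 0} ⊆ ⋃ n : ℕ, {i | 1 / ((n : ℝ) + 1) ≤ |s i|} := by
    intro i hi
    obtain ⟨n, hn⟩ := exists_nat_one_div_lt (abs_pos.mpr hi)
    exact Set.mem_iUnion.mpr ⟨n, hn.le⟩
  refine (Set.countable_iUnion fun n => ?_).mono this
  exact (hs _ (by positivity)).countable

end

section
variable {I : Type} [DecidableEq I] {C : Finset I → ℝ}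

theorem ch2_le (hC : Subm C) (s : I → ℝ) (B : ℝ) (hB : 0 ≤ B) (h : ∀ i, (s i) ^ 2 ≤ B)
    (l : List I) : V C s l ≤ B := by
  refine (V_le hC s B h l).trans ?_
  have := hC.le_one l.toFinset
  nlinarith

theorem Qc_bddAbove (hC : Subm C) (s : I → ℝ) (B : ℝ) (hB : 0 ≤ B) (h : ∀ i, (s i) ^ 2 ≤ B) :
    BddAbove (Set.range fun l : List I => V C s l) := by
  refine ⟨B, ?_⟩
  rintro _ ⟨l, rfl⟩
  exact ch2_le hC s B hB h l

theorem Qc_nonneg (hC : Subm C) (s : I → ℝ) : 0 ≤ Qc C s :=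
  Real.iSup_nonneg (fun l => V_nonneg hC s l)

theorem Qc_le (hC : Subm C) (s : I → ℝ) (B : ℝ) (hB : 0 ≤ B) (h : ∀ i, (s i) ^ 2 ≤ B) :
    Qc C s ≤ B :=
  ciSup_le (fun l => ch2_le hC s B hB h l)

theorem V_le_Qc (hC : Subm C) {s : I → ℝ} (hs : C0 s) (l : List I) : V C s l ≤ Qc C s := by
  obtain ⟨B, hB, h⟩ := hs.sq
  exact le_ciSup (Qc_bddAbove hC s B hB h) l

theorem Qc_conv (hC : Subm C) {s s' : I → ℝ} (hs : C0 s) (hs' : C0 s') (a b : ℝ) (ha : 0 ≤ a)
    (hb : 0 ≤ b) (hab : a + b = 1) : Qc C (a • s + b • s') ≤ a * Qc C s + b * Qc C s' := by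
  refine ciSup_le (fun l => (V_convex hC s s' a b ha hb hab l).trans ?_)
  have h1 := V_le_Qc hC hs l
  have h2 := V_le_Qc hC hs' l
  have h3 := mul_le_mul_of_nonneg_left h1 ha
  have h4 := mul_le_mul_of_nonneg_left h2 hb
  linarith

theorem Qc_lip (hC : Subm C) {s s' : I → ℝ} (hs' : C0 s') (δ : ℝ) (hδ : 0 ≤ δ)
    (h : ∀ i, (s i) ^ 2 ≤ (s' i) ^ 2 + δ) : Qc C s ≤ Qc C s' + δ := by
  refine ciSup_le (fun l => (V_lip hC s s' δ h l).trans ?_)
  have h1 := V_le_Qc hC hs' l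
  have h2 := hC.le_one l.toFinset
  nlinarith

end

end Pool.Agent.D7

/-! ### CH3 -/
namespace Pool.Agent.D7

variable {I : Type}

/-- `γ` enumerates the support of `s` in decreasing order of `|s|`. -/
structure Enum (s : I → ℝ) (γ : ℕ → I) : Prop where
  inj : Function.Injective γ
  max : ∀ j i, (∀ j' < j, γ j' ≠ i) → |s i| ≤ |s (γ j)|

theorem exists_argmax [Infinite I] {s : I → ℝ} (hs : C0 s) (G : Finset I) :
    ∃ i, i ∉ G ∧ ∀ i', i' ∉ G → |s i'| ≤ |s i| := by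
  classical
  by_cases h : ∃ i₁, i₁ ∉ G ∧ s i₁ ≠ 0
  · obtain ⟨i₁, h1, h2⟩ := h
    have hT : {i | |s i₁| ≤ |s i|}.Finite := hs _ (abs_pos.2 h2)
    obtain ⟨m, hm, hmax⟩ := (hT.toFinset \ G).exists_max_image (fun i => |s i|)
      ⟨i₁, by simp [h1]⟩
    simp only [Finset.mem_sdiff, Set.Finite.mem_toFinset, Set.mem_ofPred_eq] at hm hmax
    refine ⟨m, hm.2, fun i' hi' => ?_⟩
    by_cases h3 : |s i₁| ≤ |s i'|
    · exact hmax i' ⟨h3, hi'⟩
    · exact (not_le.1 h3).le.trans hm.1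
  · push Not at h
    obtain ⟨i, hi⟩ := Infinite.exists_notMem_finset G
    refine ⟨i, hi, fun i' hi' => ?_⟩
    rw [h i' hi', abs_zero]
    exact abs_nonneg _

theorem exists_enum [Infinite I] {s : I → ℝ} (hs : C0 s) : ∃ γ : ℕ → I, Enum s γ := by
  classical
  choose f hf1 hf2 using exists_argmax hs
  let Gs : ℕ → Finset I := fun n => Nat.rec ∅ (fun _ G => insert (f G) G) n
  have hG0 : Gs 0 = ∅ := rfl
  have hGs : ∀ n, Gs (n + 1) = insert (f (Gs n)) (Gs n) := fun n => rfl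
  have hmem : ∀ n i, i ∈ Gs n ↔ ∃ j < n, f (Gs j) = i := by
    intro n
    induction n with
    | zero => intro i; simp [hG0]
    | succ n ih =>
      intro i
      rw [hGs, Finset.mem_insert, ih]
      constructor
      · rintro (h | ⟨j, hj, h⟩)
        · exact ⟨n, Nat.lt_succ_self n, h.symm⟩
        · exact ⟨j, hj.trans (Nat.lt_succ_self n), h⟩
      · rintro ⟨j, hj, h⟩
        rcases Nat.lt_succ_iff_lt_or_eq.1 hj with h' | h'
        · exact Or.inr ⟨j, h', h⟩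
        · subst h'
          exact Or.inl h.symm
  have hne : ∀ a b, a < b → f (Gs a) ≠ f (Gs b) := by
    intro a b hab he
    exact hf1 (Gs b) ((hmem b _).2 ⟨a, hab, he⟩)
  refine ⟨fun j => f (Gs j), ?_, ?_⟩
  · intro a b hab
    by_contra hne'
    rcases lt_or_gt_of_ne hne' with h | h
    · exact hne a b h hab
    · exact hne b a h hab.symm
  · intro j i hi
    apply hf2
    rw [hmem]
    rintro ⟨j', hj', h⟩
    exact hi j' hj' h

theorem Enum.anti {s : I → ℝ} {γ : ℕ → I} (hγ : Enum s γ) {j j' : ℕ} (h : j ≤ j') :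
    |s (γ j')| ≤ |s (γ j)| := by
  rcases h.eq_or_lt with rfl | h
  · exact le_rfl
  · exact hγ.max j (γ j') fun j'' hj'' he => absurd (hγ.inj he) (by omega)

theorem Enum.tendsto {s : I → ℝ} {γ : ℕ → I} (hγ : Enum s γ) (hs : C0 s) :
    Filter.Tendsto (fun j => (s (γ j)) ^ 2) Filter.atTop (nhds 0) := by
  have h1 : Filter.Tendsto (fun j => s (γ j)) Filter.atTop (nhds 0) := by
    rw [Metric.tendsto_nhds]
    intro ε hε
    have h2 : {j | ε ≤ |s (γ j)|}.Finite :=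
      Set.Finite.preimage (f := γ) (s := {i | ε ≤ |s i|}) hγ.inj.injOn (hs ε hε)
    have h3 := h2.eventually_cofinite_notMem
    rw [Nat.cofinite_eq_atTop] at h3
    filter_upwards [h3] with j hj
    rw [Real.dist_eq, sub_zero]
    exact not_le.1 hj
  simpa using h1.pow 2

theorem Enum.zero {s : I → ℝ} {γ : ℕ → I} (hγ : Enum s γ) (hs : C0 s) (i : I)
    (hi : ∀ j, γ j ≠ i) : s i = 0 := by
  by_contra h0
  have h1 : {i' | |s i| ≤ |s i'|}.Finite := hs _ (abs_pos.2 h0)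
  have h2 : Set.range γ ⊆ {i' | |s i| ≤ |s i'|} := by
    rintro _ ⟨j, rfl⟩
    exact hγ.max j i fun j' _ => hi j'
  exact Set.infinite_range_of_injective hγ.inj (h1.subset h2)

end Pool.Agent.D7

/-! ### CH4 -/
namespace Pool.Agent.D7

variable {I : Type} [DecidableEq I] {C : Finset I → ℝ}

/-- The initial segment `{γ 0, ..., γ j}`. -/
def Fg (γ : ℕ → I) (j : ℕ) : Finset I := (Finset.range (j + 1)).image γ

/-- The weights of the level sets. -/
def vg (s : I → ℝ) (γ : ℕ → I) (j : ℕ) : ℝ := (s (γ j)) ^ 2 - (s (γ (j + 1))) ^ 2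

theorem vg_nonneg {s : I → ℝ} {γ : ℕ → I} (hγ : Enum s γ) (j : ℕ) : 0 ≤ vg s γ j := by
  unfold vg
  have h1 := sq_le_sq.2 (hγ.anti (Nat.le_succ j))
  linarith

theorem ch4_toFinset (γ : ℕ → I) (N : ℕ) :
    (((List.range N).map γ).reverse).toFinset = (Finset.range N).image γ := by
  ext i
  simp

theorem ch4_list (s : I → ℝ) (γ : ℕ → I) (hC : Subm C) (N : ℕ) :
    V C s (((List.range N).map γ).reverse) =
      (∑ j ∈ Finset.range N, vg s γ j * C (Fg γ j)) + C ((Finset.range N).image γ) * (s (γ N)) ^ 2 := by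
  induction N with
  | zero => simp [V, hC.empty]
  | succ N ih =>
    have e1 : ((List.range (N + 1)).map γ).reverse = γ N :: ((List.range N).map γ).reverse := by
      rw [List.range_succ, List.map_append, List.reverse_append]
      rfl
    have e2 : insert (γ N) ((Finset.range N).image γ) = Fg γ N := by
      unfold Fg
      rw [Finset.range_add_one, Finset.image_insert]
    have e3 : (Finset.range (N + 1)).image γ = Fg γ N := rfl
    rw [e1]
    simp only [V]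
    rw [ih, ch4_toFinset, e2, Finset.sum_range_succ, e3]
    unfold vg
    ring

theorem ch4_mem {γ : ℕ → I} (hγ : Function.Injective γ) (a j : ℕ) : γ a ∈ Fg γ j ↔ a ≤ j := by
  unfold Fg
  rw [Finset.mem_image]
  constructor
  · rintro ⟨b, hb, hab⟩
    rw [Finset.mem_range] at hb
    have := hγ hab
    omega
  · intro h
    exact ⟨a, Finset.mem_range.2 (by omega), rfl⟩

theorem ch4_tel {s : I → ℝ} {γ : ℕ → I} (hγ : Function.Injective γ) (a N : ℕ) (h : a ≤ N) :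
    (∑ j ∈ Finset.range N, if γ a ∈ Fg γ j then vg s γ j else 0) = (s (γ a)) ^ 2 - (s (γ N)) ^ 2 := by
  induction N, h using Nat.le_induction with
  | base =>
    rw [sub_self]
    refine Finset.sum_eq_zero (fun j hj => ?_)
    rw [Finset.mem_range] at hj
    rw [if_neg]
    rw [ch4_mem hγ]
    omega
  | succ N hN ih =>
    rw [Finset.sum_range_succ, ih, if_pos ((ch4_mem hγ a N).2 hN)]
    unfold vg
    ring

theorem SW_lower (hC : Subm C) {s : I → ℝ} (hs : C0 s) {γ : ℕ → I} (hγ : Enum s γ) (N : ℕ) :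
    ∑ j ∈ Finset.range N, vg s γ j * C (Fg γ j) ≤ Qc C s := by
  have h1 := V_le_Qc hC hs (((List.range N).map γ).reverse)
  rw [ch4_list s γ hC] at h1
  have h2 : 0 ≤ C ((Finset.range N).image γ) * (s (γ N)) ^ 2 :=
    mul_nonneg (hC.nonneg _) (sq_nonneg _)
  linarith

theorem SW_upper (hC : Subm C) {s : I → ℝ} (hs : C0 s) {γ : ℕ → I} (hγ : Enum s γ) (N : ℕ) :
    Qc C s ≤ (∑ j ∈ Finset.range N, vg s γ j * C (Fg γ j)) + (s (γ N)) ^ 2 := by
  unfold Qc
  refine ciSup_le (fun l => ?_)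
  refine V_layer hC s N (vg s γ) (vg_nonneg hγ) (Fg γ) ((s (γ N)) ^ 2) (sq_nonneg _) (fun i => ?_) l
  by_cases h : ∃ a < N, γ a = i
  · obtain ⟨a, ha, rfl⟩ := h
    rw [ch4_tel hγ.inj a N ha.le]
    linarith
  · push Not at h
    have h1 := sq_le_sq.2 (hγ.max N i h)
    have h2 : 0 ≤ ∑ j ∈ Finset.range N, if i ∈ Fg γ j then vg s γ j else 0 :=
      Finset.sum_nonneg (fun j _ => by
        split_ifs
        · exact vg_nonneg hγ j
        · exact le_rfl)
    linarith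

end Pool.Agent.D7

/-! ### CH5 -/
namespace Pool.Agent.D7

variable {I : Type} [DecidableEq I] [Infinite I]

omit [Infinite I] in
theorem ch5_ne {s : I → ℝ} {γ : ℕ → I} (hγ : Enum s γ) (j : ℕ) (hv : vg s γ j ≠ 0) :
    ∀ i ∈ Fg γ j, s i ≠ 0 := by
  intro i hi h0
  have hv0 : 0 < vg s γ j := lt_of_le_of_ne (vg_nonneg hγ j) (Ne.symm hv)
  unfold vg at hv0
  rw [Fg, Finset.mem_image] at hi
  obtain ⟨a, ha, rfl⟩ := hi
  have ha' : a ≤ j := by
    have := Finset.mem_range.mp ha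
    omega
  have h1 := hγ.anti ha'
  rw [h0, abs_zero] at h1
  have h2 : s (γ j) = 0 := by
    have := abs_nonneg (s (γ j))
    exact abs_eq_zero.mp (le_antisymm h1 this)
  rw [h2] at hv0
  have h3 := sq_nonneg (s (γ (j + 1)))
  nlinarith

omit [Infinite I] in
theorem ch5_term {C₁ C₂ C₃ : Finset I → ℝ} {s : I → ℝ} {γ : ℕ → I} (hγ : Enum s γ)
    (h : ∀ F : Finset I, F.Nonempty → (∀ i ∈ F, s i ≠ 0) → (C₁ F + C₂ F) / 2 ≤ C₃ F) (j : ℕ) :
    vg s γ j * ((C₁ (Fg γ j) + C₂ (Fg γ j)) / 2) ≤ vg s γ j * C₃ (Fg γ j) := by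
  by_cases hv : vg s γ j = 0
  · rw [hv, zero_mul, zero_mul]
  · apply mul_le_mul_of_nonneg_left _ (vg_nonneg hγ j)
    apply h _ _ (ch5_ne hγ j hv)
    exact ⟨γ 0, by
      rw [Fg, Finset.mem_image]
      exact ⟨0, Finset.mem_range.mpr (Nat.succ_pos j), rfl⟩⟩

omit [Infinite I] in
theorem ch5_upper {C₁ C₂ : Finset I → ℝ} (h₁ : Subm C₁) (h₂ : Subm C₂) {s : I → ℝ} (hs : C0 s)
    {γ : ℕ → I} (hγ : Enum s γ) (N : ℕ) :
    (Qc C₁ s + Qc C₂ s) / 2 ≤
      (∑ j ∈ Finset.range N, vg s γ j * ((C₁ (Fg γ j) + C₂ (Fg γ j)) / 2)) + (s (γ N)) ^ 2 := by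
  have u1 := SW_upper h₁ hs hγ N
  have u2 := SW_upper h₂ hs hγ N
  have e : (∑ j ∈ Finset.range N, vg s γ j * ((C₁ (Fg γ j) + C₂ (Fg γ j)) / 2)) =
      ((∑ j ∈ Finset.range N, vg s γ j * C₁ (Fg γ j)) +
        (∑ j ∈ Finset.range N, vg s γ j * C₂ (Fg γ j))) / 2 := by
    rw [← Finset.sum_add_distrib, Finset.sum_div]
    apply Finset.sum_congr rfl
    intro j _
    ring
  rw [e]
  linarith

theorem Qc_mid {C₁ C₂ C₃ : Finset I → ℝ} (h₁ : Subm C₁) (h₂ : Subm C₂) (h₃ : Subm C₃)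
    {s : I → ℝ} (hs : C0 s)
    (h : ∀ F : Finset I, F.Nonempty → (∀ i ∈ F, s i ≠ 0) → (C₁ F + C₂ F) / 2 ≤ C₃ F) :
    (Qc C₁ s + Qc C₂ s) / 2 ≤ Qc C₃ s := by
  obtain ⟨γ, hγ⟩ := exists_enum hs
  have key : ∀ N : ℕ, (Qc C₁ s + Qc C₂ s) / 2 ≤ Qc C₃ s + (s (γ N)) ^ 2 := by
    intro N
    have u := ch5_upper h₁ h₂ hs hγ N
    have l := SW_lower h₃ hs hγ N
    have t : (∑ j ∈ Finset.range N, vg s γ j * ((C₁ (Fg γ j) + C₂ (Fg γ j)) / 2)) ≤
        ∑ j ∈ Finset.range N, vg s γ j * C₃ (Fg γ j) :=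
      Finset.sum_le_sum fun j _ => ch5_term hγ h j
    linarith
  have hlim : Filter.Tendsto (fun N => Qc C₃ s + (s (γ N)) ^ 2) Filter.atTop
      (nhds (Qc C₃ s + 0)) := Filter.Tendsto.const_add _ (hγ.tendsto hs)
  rw [add_zero] at hlim
  exact ge_of_tendsto' hlim key

theorem Qc_mid_lt {C₁ C₂ C₃ : Finset I → ℝ} (h₁ : Subm C₁) (h₂ : Subm C₂) (h₃ : Subm C₃)
    {s : I → ℝ} (hs : C0 s)
    (h : ∀ F : Finset I, F.Nonempty → (∀ i ∈ F, s i ≠ 0) → (C₁ F + C₂ F) / 2 ≤ C₃ F)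
    (F₀ : Finset I) (hF₀ : F₀.Nonempty) (hF₀s : ∀ i ∈ F₀, s i ≠ 0)
    (h' : ∀ F : Finset I, F₀ ⊆ F → (∀ i ∈ F, s i ≠ 0) → (C₁ F + C₂ F) / 2 < C₃ F) :
    (Qc C₁ s + Qc C₂ s) / 2 < Qc C₃ s := by
  obtain ⟨γ, hγ⟩ := exists_enum hs
  -- the minimum of the squares over `F₀`
  obtain ⟨i₀, hi₀, hmin⟩ := Finset.exists_min_image F₀ (fun i => (s i) ^ 2) hF₀
  set m : ℝ := (s i₀) ^ 2 with hm
  have hmpos : 0 < m := by
    have := hF₀s i₀ hi₀
    positivity
  have hanti : ∀ {a b : ℕ}, a ≤ b → (s (γ b)) ^ 2 ≤ (s (γ a)) ^ 2 := by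
    intro a b hab
    exact sq_le_sq.mpr (hγ.anti hab)
  have hex : ∃ j, (s (γ j)) ^ 2 < m := by
    have := (hγ.tendsto hs).eventually (gt_mem_nhds hmpos)
    exact this.exists
  classical
  set j₁ := Nat.find hex with hj₁
  have hj₁s : (s (γ j₁)) ^ 2 < m := Nat.find_spec hex
  have hj₁m : ∀ j < j₁, m ≤ (s (γ j)) ^ 2 := fun j hj => not_lt.mp (Nat.find_min hex hj)
  have hrange : ∀ i ∈ F₀, ∃ a, a < j₁ ∧ γ a = i := by
    intro i hi
    have hne : ∃ a, γ a = i := by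
      by_contra hcon
      push Not at hcon
      exact hF₀s i hi (hγ.zero hs i hcon)
    obtain ⟨a, ha⟩ := hne
    refine ⟨a, ?_, ha⟩
    by_contra hlt
    have h1 := hanti (not_lt.mp hlt)
    have h2 := hmin i hi
    rw [← ha] at h2
    have h2' : m ≤ (s (γ a)) ^ 2 := h2
    linarith
  obtain ⟨a₀, ha₀, _⟩ := hrange i₀ hi₀
  obtain ⟨j₀, hj₀⟩ : ∃ j₀, j₁ = j₀ + 1 := ⟨j₁ - 1, by omega⟩
  have hv : 0 < vg s γ j₀ := by
    unfold vg
    have h1 := hj₁m j₀ (by omega)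
    rw [hj₀] at hj₁s
    linarith
  have hsub : F₀ ⊆ Fg γ j₀ := by
    intro i hi
    obtain ⟨a, ha, rfl⟩ := hrange i hi
    rw [Fg, Finset.mem_image]
    exact ⟨a, Finset.mem_range.mpr (by omega), rfl⟩
  have hδ := h' (Fg γ j₀) hsub (ch5_ne hγ j₀ hv.ne')
  set δ : ℝ := C₃ (Fg γ j₀) - (C₁ (Fg γ j₀) + C₂ (Fg γ j₀)) / 2 with hδdef
  have hδpos : 0 < δ := by linarith
  have key : ∀ N : ℕ, j₀ + 1 ≤ N →
      (Qc C₁ s + Qc C₂ s) / 2 + vg s γ j₀ * δ ≤ Qc C₃ s + (s (γ N)) ^ 2 := by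
    intro N hN
    have u := ch5_upper h₁ h₂ hs hγ N
    have l := SW_lower h₃ hs hγ N
    have t : (∑ j ∈ Finset.range N, vg s γ j * ((C₁ (Fg γ j) + C₂ (Fg γ j)) / 2)) +
        vg s γ j₀ * δ ≤ ∑ j ∈ Finset.range N, vg s γ j * C₃ (Fg γ j) := by
      have e : vg s γ j₀ * δ = ∑ j ∈ Finset.range N, if j = j₀ then vg s γ j₀ * δ else 0 := by
        rw [Finset.sum_ite_eq', if_pos (Finset.mem_range.mpr (by omega))]
      rw [e, ← Finset.sum_add_distrib]
      apply Finset.sum_le_sum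
      intro j _
      by_cases hj : j = j₀
      · rw [if_pos hj, hj, hδdef]
        apply le_of_eq
        ring
      · rw [if_neg hj, add_zero]
        exact ch5_term hγ h j
    linarith
  have hlim : Filter.Tendsto (fun N => Qc C₃ s + (s (γ N)) ^ 2) Filter.atTop
      (nhds (Qc C₃ s + 0)) := Filter.Tendsto.const_add _ (hγ.tendsto hs)
  rw [add_zero] at hlim
  have hfin : (Qc C₁ s + Qc C₂ s) / 2 + vg s γ j₀ * δ ≤ Qc C₃ s :=
    ge_of_tendsto hlim (Filter.eventually_atTop.mpr ⟨j₀ + 1, key⟩)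
  have := mul_pos hv hδpos
  linarith

end Pool.Agent.D7

/-! ### CH6 -/
namespace Pool.Agent.D7

theorem ch6_empty {K I : Type} [DecidableEq I] (S : Finset I → K → ℝ) (f : K) :
    Cf S f ∅ = 0 := by
  simp [Cf]

theorem ch6_ne {K I : Type} [DecidableEq I] (S : Finset I → K → ℝ) (f : K) {F : Finset I}
    (hF : F ≠ ∅) : Cf S f F = 1 - (1 / 2 : ℝ) ^ F.card - (1 / 16 : ℝ) ^ F.card * S F f := by
  simp [Cf, hF]

theorem ch6_lower {K I : Type} [DecidableEq I] (S : Finset I → K → ℝ)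
    (h0 : ∀ F f, 0 ≤ S F f) (h1 : ∀ F f, S F f ≤ 1) (f : K) (F : Finset I) (i : I)
    (hi : i ∉ F) :
    (1 / 2 : ℝ) ^ (F.card + 1) - (1 / 16 : ℝ) ^ (F.card + 1)
      ≤ Cf S f (insert i F) - Cf S f F := by
  have hne : insert i F ≠ ∅ := Finset.insert_ne_empty i F
  have hc : (insert i F).card = F.card + 1 := Finset.card_insert_of_notMem hi
  rw [ch6_ne S f hne, hc]
  have ha : (0 : ℝ) ≤ (1 / 16 : ℝ) ^ (F.card + 1) := by positivity
  have hb := h0 (insert i F) f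
  have hb' := h1 (insert i F) f
  have h2 : (1 / 16 : ℝ) ^ (F.card + 1) * S (insert i F) f ≤ (1 / 16 : ℝ) ^ (F.card + 1) := by
    nlinarith
  by_cases hF : F = ∅
  · subst hF
    rw [ch6_empty]
    simp only [Finset.card_empty, zero_add, pow_one] at h2 ⊢
    linarith
  · rw [ch6_ne S f hF]
    have h3 : (0 : ℝ) ≤ (1 / 16 : ℝ) ^ F.card * S F f :=
      mul_nonneg (by positivity) (h0 F f)
    have h4 : (1 / 2 : ℝ) ^ F.card = 2 * (1 / 2 : ℝ) ^ (F.card + 1) := by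
      rw [pow_succ]; ring
    linarith

theorem ch6_upper {K I : Type} [DecidableEq I] (S : Finset I → K → ℝ)
    (h0 : ∀ F f, 0 ≤ S F f) (h1 : ∀ F f, S F f ≤ 1) (f : K) (F : Finset I) (i : I)
    (hi : i ∉ F) (hF : F ≠ ∅) :
    Cf S f (insert i F) - Cf S f F ≤ (1 / 2 : ℝ) ^ (F.card + 1) + (1 / 16 : ℝ) ^ F.card := by
  have hne : insert i F ≠ ∅ := Finset.insert_ne_empty i F
  have hc : (insert i F).card = F.card + 1 := Finset.card_insert_of_notMem hi
  rw [ch6_ne S f hne, hc, ch6_ne S f hF]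
  have h3 : (0 : ℝ) ≤ (1 / 16 : ℝ) ^ (F.card + 1) * S (insert i F) f :=
    mul_nonneg (by positivity) (h0 _ f)
  have ha : (0 : ℝ) ≤ (1 / 16 : ℝ) ^ F.card := by positivity
  have hb := h0 F f
  have hb' := h1 F f
  have h2 : (1 / 16 : ℝ) ^ F.card * S F f ≤ (1 / 16 : ℝ) ^ F.card := by
    nlinarith
  have h4 : (1 / 2 : ℝ) ^ F.card = 2 * (1 / 2 : ℝ) ^ (F.card + 1) := by
    rw [pow_succ]; ring
  linarith

theorem ch6_pow (n : ℕ) : 2 * (1 / 16 : ℝ) ^ (n + 1) ≤ (1 / 2 : ℝ) ^ (n + 2) := by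
  have h1 : (1 / 16 : ℝ) ^ n ≤ (1 / 2 : ℝ) ^ n :=
    pow_le_pow_left₀ (by norm_num) (by norm_num) n
  have h2 : (0 : ℝ) ≤ (1 / 2 : ℝ) ^ n := by positivity
  rw [pow_succ, pow_add]
  nlinarith

theorem ch6_marg_nonneg {K I : Type} [DecidableEq I] (S : Finset I → K → ℝ)
    (h0 : ∀ F f, 0 ≤ S F f) (h1 : ∀ F f, S F f ≤ 1) (f : K) (F : Finset I) (i : I) :
    Cf S f F ≤ Cf S f (insert i F) := by
  by_cases hi : i ∈ F
  · rw [Finset.insert_eq_of_mem hi]
  · have h := ch6_lower S h0 h1 f F i hi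
    have h2 : (1 / 16 : ℝ) ^ (F.card + 1) ≤ (1 / 2 : ℝ) ^ (F.card + 1) :=
      pow_le_pow_left₀ (by norm_num) (by norm_num) _
    linarith

theorem Cf_subm {K I : Type} [DecidableEq I] (S : Finset I → K → ℝ)
    (h0 : ∀ F f, 0 ≤ S F f) (h1 : ∀ F f, S F f ≤ 1) (f : K) : Subm (Cf S f) := by
  refine ⟨ch6_empty S f, ?_, ?_, ?_⟩
  · intro F
    by_cases hF : F = ∅
    · subst hF
      rw [ch6_empty]; norm_num
    · rw [ch6_ne S f hF]
      have h3 : (0 : ℝ) ≤ (1 / 16 : ℝ) ^ F.card * S F f :=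
        mul_nonneg (by positivity) (h0 F f)
      have h4 : (0 : ℝ) ≤ (1 / 2 : ℝ) ^ F.card := by positivity
      linarith
  · have key : ∀ (F G : Finset I), Cf S f F ≤ Cf S f (F ∪ G) := by
      intro F G
      induction G using Finset.induction_on with
      | empty => rw [Finset.union_empty]
      | insert a G _ ih =>
        rw [Finset.union_insert]
        exact ih.trans (ch6_marg_nonneg S h0 h1 f (F ∪ G) a)
    intro F F' hFF
    have h := key F F'
    rwa [Finset.union_eq_right.mpr hFF] at h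
  · intro F F' i hFF hi
    by_cases hEq : F = F'
    · subst hEq; exact le_refl _
    · have hss : F ⊂ F' := lt_of_le_of_ne hFF hEq
      have hcard : F.card < F'.card := Finset.card_lt_card hss
      have hne : F' ≠ ∅ := by
        intro h
        rw [h] at hcard
        simp at hcard
      have hi' : i ∉ F := fun h => hi (hFF h)
      have hu := ch6_upper S h0 h1 f F' i hi hne
      have hl := ch6_lower S h0 h1 f F i hi'
      have e1 : (1 / 2 : ℝ) ^ (F'.card + 1) ≤ (1 / 2 : ℝ) ^ (F.card + 2) :=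
        pow_le_pow_of_le_one (by norm_num) (by norm_num) (by omega)
      have e2 : (1 / 16 : ℝ) ^ F'.card ≤ (1 / 16 : ℝ) ^ (F.card + 1) :=
        pow_le_pow_of_le_one (by norm_num) (by norm_num) (by omega)
      have e3 := ch6_pow F.card
      have e4 : (1 / 2 : ℝ) ^ (F.card + 1) = 2 * (1 / 2 : ℝ) ^ (F.card + 2) := by
        rw [pow_succ (1 / 2 : ℝ) (F.card + 1)]; ring
      linarith

theorem ch6_term {K I : Type} [DecidableEq I] [TopologicalSpace K]
    (S : Finset I → K → ℝ) (hl : ∀ F, LowerSemicontinuous (S F)) {F : Finset I} (hF : F ≠ ∅)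
    {v : ℝ} (hv : 0 ≤ v) : UpperSemicontinuous fun f => v * Cf S f F := by
  have e : (fun f => v * Cf S f F)
      = (fun x : ℝ => v * (1 - (1 / 2 : ℝ) ^ F.card - (1 / 16 : ℝ) ^ F.card * x)) ∘ (S F) := by
    funext f
    simp only [Function.comp]
    rw [ch6_ne S f hF]
  rw [e]
  refine Continuous.comp_lowerSemicontinuous_antitone ?_ (hl F) ?_
  · fun_prop
  · intro x y hxy
    have hp : (0 : ℝ) ≤ (1 / 16 : ℝ) ^ F.card := by positivity
    have h2 : (1 / 16 : ℝ) ^ F.card * x ≤ (1 / 16 : ℝ) ^ F.card * y :=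
      mul_le_mul_of_nonneg_left hxy hp
    exact mul_le_mul_of_nonneg_left (by linarith) hv

theorem Qf_usc {K I : Type} [DecidableEq I] [Infinite I] [TopologicalSpace K]
    (S : Finset I → K → ℝ) (h0 : ∀ F f, 0 ≤ S F f) (h1 : ∀ F f, S F f ≤ 1)
    (hl : ∀ F, LowerSemicontinuous (S F)) {s : I → ℝ} (hs : C0 s) :
    UpperSemicontinuous fun f => Qc (Cf S f) s := by
  obtain ⟨γ, hγ⟩ := exists_enum hs
  have hT : ∀ N : ℕ, UpperSemicontinuous fun f =>
      ∑ j ∈ Finset.range N, vg s γ j * Cf S f (Fg γ j) := by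
    intro N
    refine upperSemicontinuous_sum ?_
    intro j _
    refine ch6_term S hl ?_ (vg_nonneg hγ j)
    have hmem : γ 0 ∈ Fg γ j := by
      unfold Fg
      exact Finset.mem_image_of_mem γ (Finset.mem_range.mpr (Nat.succ_pos j))
    exact Finset.ne_empty_of_mem hmem
  intro f₀ c hc
  have hlim := hγ.tendsto hs
  have hpos : 0 < c - Qc (Cf S f₀) s := sub_pos.mpr hc
  obtain ⟨N, hN⟩ := (hlim.eventually (gt_mem_nhds hpos)).exists
  have hlow := SW_lower (Cf_subm S h0 h1 f₀) hs hγ N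
  have hlt : ∑ j ∈ Finset.range N, vg s γ j * Cf S f₀ (Fg γ j) < c - (s (γ N)) ^ 2 := by
    linarith
  have hev := hT N f₀ _ hlt
  filter_upwards [hev] with f hf
  have hup := SW_upper (Cf_subm S h0 h1 f) hs hγ N
  linarith

theorem qdata {X I : Type} [NormedAddCommGroup X] [NormedSpace ℝ X] [DecidableEq I] [Infinite I]
    (S : Finset I → KB X → ℝ) (h0 : ∀ F f, 0 ≤ S F f) (h1 : ∀ F f, S F f ≤ 1)
    (hl : ∀ F, LowerSemicontinuous (S F)) : QData fun (s : I → ℝ) f => Qc (Cf S f) s where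
  nonneg := fun s f => Qc_nonneg (Cf_subm S h0 h1 f) s
  le := fun s f B hB h => Qc_le (Cf_subm S h0 h1 f) s B hB h
  conv := fun _ _ f a b hs hs' ha hb hab =>
    Qc_conv (Cf_subm S h0 h1 f) hs hs' a b ha hb hab
  lip := fun _ _ f δ _ hs' hδ h => Qc_lip (Cf_subm S h0 h1 f) hs' δ hδ h
  usc := fun _ hs => Qf_usc S h0 h1 hl hs

end Pool.Agent.D7
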