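import Pool.Agent.Lib.MP_d74bc6_an.D01
import Pool.Agent.Lib.MP_d74bc6_an.D04
import Pool.Agent.Lib.MP_d74bc6_an.D05
import Pool.Agent.Lib.MP_d74bc6_an.D06

set_option autoImplicit false

/-! ### UN1 -/
namespace Pool.Agent.D7

variable {X Γ : Type} {w : Finset Γ → Set Γ}

theorem AF_mono {F F' : Set (List Γ × ℕ)} (h : F ⊆ F') : AF w F ⊆ AF w F' :=
  cl_mono fun _ ⟨i, hi, hγ⟩ => ⟨i, h hi, hγ⟩

theorem QA_mono [NormedAddCommGroup X] [NormedSpace ℝ X] {Q : Finset Γ → Set X} {A B : Set Γ}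
    (h : A ⊆ B) : QA Q A ⊆ QA Q B :=
  fun _ ⟨F, hF, hq⟩ => ⟨F, hF.trans h, hq⟩

theorem QA_AF [NormedAddCommGroup X] [NormedSpace ℝ X] {Q : Finset Γ → Set X}
    {D : Set (List Γ × ℕ)} {q : X} (hq : q ∈ QA Q (AF w D)) :
    ∃ F₀ : Finset (List Γ × ℕ), (↑F₀ : Set (List Γ × ℕ)) ⊆ D ∧
      q ∈ QA Q (AF w (↑F₀ : Set (List Γ × ℕ))) := by
  classical
  obtain ⟨F, hF, hqF⟩ := hq
  have : Nonempty {F₀ : Finset (List Γ × ℕ) // (↑F₀ : Set (List Γ × ℕ)) ⊆ D} := ⟨⟨∅, by simp⟩⟩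
  have hdir : Directed (· ⊆ ·) (fun F₀ : {F₀ : Finset (List Γ × ℕ) // (↑F₀ : Set (List Γ × ℕ)) ⊆ D} =>
      {γ : Γ | ∃ i ∈ (↑F₀.1 : Set (List Γ × ℕ)), γ ∈ i.1}) := by
    intro F₁ F₂
    refine ⟨⟨F₁.1 ∪ F₂.1, by rw [Finset.coe_union]; exact Set.union_subset F₁.2 F₂.2⟩, ?_, ?_⟩
    · rintro γ ⟨i, hi, hγ⟩
      exact ⟨i, by rw [Finset.coe_union]; exact Or.inl hi, hγ⟩
    · rintro γ ⟨i, hi, hγ⟩
      exact ⟨i, by rw [Finset.coe_union]; exact Or.inr hi, hγ⟩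
  have hU : {γ : Γ | ∃ i ∈ D, γ ∈ i.1} =
      ⋃ F₀ : {F₀ : Finset (List Γ × ℕ) // (↑F₀ : Set (List Γ × ℕ)) ⊆ D},
        {γ : Γ | ∃ i ∈ (↑F₀.1 : Set (List Γ × ℕ)), γ ∈ i.1} := by
    ext γ
    simp only [Set.mem_setOf_eq, Set.mem_iUnion]
    constructor
    · rintro ⟨i, hi, hγ⟩
      exact ⟨⟨{i}, by simpa using hi⟩, i, by simp, hγ⟩
    · rintro ⟨F₀, i, hi, hγ⟩
      exact ⟨i, F₀.2 hi, hγ⟩
  have hAF : AF w D = ⋃ F₀ : {F₀ : Finset (List Γ × ℕ) // (↑F₀ : Set (List Γ × ℕ)) ⊆ D},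
      AF w (↑F₀.1 : Set (List Γ × ℕ)) := by
    unfold AF
    rw [hU, cl_directed _ hdir]
  have hdir2 : Directed (· ⊆ ·) (fun F₀ : {F₀ : Finset (List Γ × ℕ) // (↑F₀ : Set (List Γ × ℕ)) ⊆ D} =>
      AF w (↑F₀.1 : Set (List Γ × ℕ))) := by
    intro F₁ F₂
    refine ⟨⟨F₁.1 ∪ F₂.1, by rw [Finset.coe_union]; exact Set.union_subset F₁.2 F₂.2⟩, ?_, ?_⟩
    · exact AF_mono (by rw [Finset.coe_union]; exact Set.subset_union_left)
    · exact AF_mono (by rw [Finset.coe_union]; exact Set.subset_union_right)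
  rw [hAF] at hF
  obtain ⟨F₀, hF₀⟩ := finset_subset_directed _ hdir2 F hF
  exact ⟨F₀.1, F₀.2, F, hF₀, hqF⟩

end Pool.Agent.D7

/-! ### UN2 -/
namespace Pool.Agent.D7

variable {X Γ : Type} [NormedAddCommGroup X] [NormedSpace ℝ X] {Ω : Set X} {ψ : X → ℝ} {R : ℝ}
variable {Φ : KB X → Γ → ℝ} {w : Finset Γ → Set Γ} {Q : Finset Γ → Set X}
variable {S : Finset (List Γ × ℕ) → KB X → ℝ}

theorem max_ret [DecidableEq (List Γ × ℕ)] [CompleteSpace X] (hs : Sys Φ Ω ψ w Q)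
    (hb : Bump Ω ψ R) (hS : SProp Ω ψ w Q S) (x : X) (s : List Γ × ℕ → ℝ) (hs0 : C0 s)
    (hne : ∃ i, s i ≠ 0) (hx : x ∈ XA Φ (AF w {i | s i ≠ 0})) (f : KB X)
    (hf : ∀ g : KB X, g.1 x + Qc (Cf S g) s ≤ f.1 x + Qc (Cf S f) s) :
    ret Φ (AF w {i | s i ≠ 0}) f = f := by
  by_contra hgf
  have hAcl : IsCl w (AF w {i | s i ≠ 0}) := isCl_cl _
  obtain ⟨q₀, hq₀, k₀, hk₀, hlt⟩ := sepLt hs hb hAcl f hgf
  obtain ⟨F₁, hF₁, hq₁⟩ := QA_AF hq₀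
  obtain ⟨i₀, hi₀⟩ := hne
  have hF₀ : ∀ i ∈ insert i₀ F₁, s i ≠ 0 := by
    intro i hi
    rcases Finset.mem_insert.mp hi with rfl | hi
    · exact hi₀
    · exact hF₁ (Finset.mem_coe.mpr hi)
  have hq₀' : q₀ ∈ QA Q (AF w (↑(insert i₀ F₁) : Set (List Γ × ℕ))) := by
    refine QA_mono (AF_mono ?_) hq₁
    intro i hi
    exact Finset.mem_coe.mpr (Finset.mem_insert_of_mem (Finset.mem_coe.mp hi))
  have hsub : ∀ F : Finset (List Γ × ℕ), (∀ i ∈ F, s i ≠ 0) →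
      AF w (↑F : Set (List Γ × ℕ)) ⊆ AF w {i | s i ≠ 0} := fun F hF =>
    AF_mono fun i hi => hF i (Finset.mem_coe.mp hi)
  have heq : ∀ F : Finset (List Γ × ℕ), (∀ i ∈ F, s i ≠ 0) →
      ∀ q ∈ QA Q (AF w (↑F : Set (List Γ × ℕ))),
        f.1 q = (ret Φ (AF w {i | s i ≠ 0}) f).1 q := fun F hF q hq =>
    hs.qx _ hAcl (QA_mono (hsub F hF) hq) f
  have hZ : ∀ F : Finset (List Γ × ℕ), (∀ i ∈ F, s i ≠ 0) →
      ∀ q ∈ QA Q (AF w (↑F : Set (List Γ × ℕ))), ∀ k : ℕ, 0 < k →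
        Z Ω ψ q (1 / (k : ℝ)) (ret Φ (AF w {i | s i ≠ 0}) f) ≤ Z Ω ψ q (1 / (k : ℝ)) f :=
    fun F hF q hq k hk => sepLe hs hb hAcl f (QA_mono (hsub F hF) hq) hk
  have hle : ∀ F : Finset (List Γ × ℕ), (∀ i ∈ F, s i ≠ 0) →
      S F (ret Φ (AF w {i | s i ≠ 0}) f) ≤ S F f := fun F hF =>
    hS.cmp F f _ (heq F hF) (hZ F hF)
  have hlt' : ∀ F : Finset (List Γ × ℕ), insert i₀ F₁ ⊆ F → (∀ i ∈ F, s i ≠ 0) →
      S F (ret Φ (AF w {i | s i ≠ 0}) f) < S F f := fun F hFF hF =>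
    hS.cmplt F f _ (heq F hF) (hZ F hF)
      ⟨q₀, QA_mono (AF_mono (Finset.coe_subset.mpr hFF)) hq₀', k₀, hk₀, hlt⟩
  have key := Qc_mid_lt (Cf_subm S hS.nonneg hS.le_one f) (Cf_subm S hS.nonneg hS.le_one f)
    (Cf_subm S hS.nonneg hS.le_one (ret Φ (AF w {i | s i ≠ 0}) f)) hs0
    (fun F hFne hF => by
      have h1 := hle F hF
      have h2 : (0 : ℝ) < (1 / 16 : ℝ) ^ F.card := by positivity
      have h3 := mul_le_mul_of_nonneg_left h1 h2.le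
      simp only [Cf, if_neg hFne.ne_empty]
      linarith)
    (insert i₀ F₁) ⟨i₀, Finset.mem_insert_self _ _⟩ hF₀
    (fun F hFF hF => by
      have h1 := hlt' F hFF hF
      have h2 : (0 : ℝ) < (1 / 16 : ℝ) ^ F.card := by positivity
      have h3 := mul_lt_mul_of_pos_left h1 h2
      have hFne : F ≠ ∅ := Finset.ne_empty_of_mem (hFF (Finset.mem_insert_self _ _))
      simp only [Cf, if_neg hFne]
      linarith)
  have h4 := hf (ret Φ (AF w {i | s i ≠ 0}) f)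
  have h5 : f.1 x = (ret Φ (AF w {i | s i ≠ 0}) f).1 x := hx f
  linarith

end Pool.Agent.D7

/-! ### UN3 -/
namespace Pool.Agent.D7

variable {X Γ : Type} [NormedAddCommGroup X] [NormedSpace ℝ X] {Ω : Set X} {ψ : X → ℝ} {R : ℝ}
variable {Φ : KB X → Γ → ℝ} {w : Finset Γ → Set Γ} {Q : Finset Γ → Set X}
variable {S : Finset (List Γ × ℕ) → KB X → ℝ}

theorem un3_Cf {K I : Type} [DecidableEq I] (S : Finset I → K → ℝ) (F : Finset I) (hF : F.Nonempty)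
    (f : K) : Cf S f F = 1 - (1 / 2 : ℝ) ^ F.card - (1 / 16 : ℝ) ^ F.card * S F f := by
  unfold Cf
  rw [if_neg hF.ne_empty]

theorem max_eq [DecidableEq (List Γ × ℕ)] [CompleteSpace X] (hs : Sys Φ Ω ψ w Q)
    (hb : Bump Ω ψ R) (hS : SProp Ω ψ w Q S) (x : X) (s : List Γ × ℕ → ℝ) (hs0 : C0 s)
    (hne : ∃ i, s i ≠ 0) (hx : x ∈ XA Φ (AF w {i | s i ≠ 0})) (f f' : KB X)
    (hf : ∀ g : KB X, g.1 x + Qc (Cf S g) s ≤ f.1 x + Qc (Cf S f) s)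
    (hf' : ∀ g : KB X, g.1 x + Qc (Cf S g) s ≤ f'.1 x + Qc (Cf S f') s) : f = f' := by
  obtain ⟨A, hAd⟩ : ∃ A, A = AF w {i : List Γ × ℕ | s i ≠ 0} := ⟨_, rfl⟩
  have hA : IsCl w A := by rw [hAd]; exact isCl_cl _
  have hfr : ret Φ A f = f := by rw [hAd]; exact max_ret hs hb hS x s hs0 hne hx f hf
  have hfr' : ret Φ A f' = f' := by rw [hAd]; exact max_ret hs hb hS x s hs0 hne hx f' hf'
  have heq : ∀ q ∈ QA Q A, f.1 q = f'.1 q := by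
    intro q hq
    by_contra hqne
    rw [hAd] at hq
    obtain ⟨F₀, hF₀, hqF⟩ := QA_AF hq
    obtain ⟨i₀, hi₀⟩ := hne
    have hF₁s : ∀ i ∈ insert i₀ F₀, s i ≠ 0 := by
      intro i hi
      rcases Finset.mem_insert.1 hi with rfl | hi
      · exact hi₀
      · exact hF₀ hi
    have h1 : ∀ F : Finset (List Γ × ℕ), F.Nonempty → (∀ i ∈ F, s i ≠ 0) →
        (Cf S f F + Cf S f' F) / 2 ≤ Cf S (mid f f') F := by
      intro F hF _
      rw [un3_Cf S F hF, un3_Cf S F hF, un3_Cf S F hF]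
      have e1 := hS.midc F f f'
      have e2 : (0 : ℝ) < (1 / 16 : ℝ) ^ F.card := by positivity
      have e3 := mul_le_mul_of_nonneg_left e1 e2.le
      linarith
    have h2 : ∀ F : Finset (List Γ × ℕ), insert i₀ F₀ ⊆ F → (∀ i ∈ F, s i ≠ 0) →
        (Cf S f F + Cf S f' F) / 2 < Cf S (mid f f') F := by
      intro F hFF _
      have hF : F.Nonempty := ⟨i₀, hFF (Finset.mem_insert_self _ _)⟩
      rw [un3_Cf S F hF, un3_Cf S F hF, un3_Cf S F hF]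
      have hsub : (↑F₀ : Set (List Γ × ℕ)) ⊆ (↑F : Set (List Γ × ℕ)) := by
        intro i hi
        exact hFF (Finset.mem_insert_of_mem hi)
      have e1 := hS.midlt F f f' ⟨q, QA_mono (AF_mono hsub) hqF, hqne⟩
      have e2 : (0 : ℝ) < (1 / 16 : ℝ) ^ F.card := by positivity
      have e3 := mul_lt_mul_of_pos_left e1 e2
      linarith
    have h3 := Qc_mid_lt (Cf_subm S hS.nonneg hS.le_one f) (Cf_subm S hS.nonneg hS.le_one f')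
      (Cf_subm S hS.nonneg hS.le_one (mid f f')) hs0 h1 (insert i₀ F₀) (Finset.insert_nonempty _ _)
      hF₁s h2
    have h4 := hf (mid f f')
    have h5 := hf' (mid f f')
    rw [mid_apply] at h4 h5
    linarith
  have hcl : closure (QA Q A) ⊆ {x : X | f.1 x = f'.1 x} :=
    closure_minimal heq (isClosed_eq (map_continuous f.1) (map_continuous f'.1))
  have hdet := hs.det A hA f f' (fun y hy => hcl (hs.dense A hA hy))
  rw [hfr, hfr'] at hdet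
  exact hdet

theorem unique_max [DecidableEq (List Γ × ℕ)] [CompleteSpace X] (hs : Sys Φ Ω ψ w Q)
    (hb : Bump Ω ψ R) (hS : SProp Ω ψ w Q S) (x : X) (s : List Γ × ℕ → ℝ) (hs0 : C0 s)
    (hne : ∃ i, s i ≠ 0) (hx : x ∈ XA Φ (AF w {i | s i ≠ 0})) :
    ∃ f₀ : KB X, ∀ f : KB X, f ≠ f₀ →
      f.1 x + Qc (Cf S f) s < f₀.1 x + Qc (Cf S f₀) s := by
  have husc : UpperSemicontinuous (fun f : KB X => f.1 x + Qc (Cf S f) s) :=
    (KB.continuous_eval x).upperSemicontinuous.add (Qf_usc S hS.nonneg hS.le_one hS.lsc hs0)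
  obtain ⟨f₀, -, hmax⟩ := (husc.upperSemicontinuousOn Set.univ).exists_isMaxOn
    (Set.univ_nonempty) isCompact_univ
  have hmax' : ∀ g : KB X, g.1 x + Qc (Cf S g) s ≤ f₀.1 x + Qc (Cf S f₀) s :=
    fun g => hmax (Set.mem_univ g)
  refine ⟨f₀, fun f hf => ?_⟩
  by_contra hcon
  rw [not_lt] at hcon
  exact hf (max_eq hs hb hS x s hs0 hne hx f f₀ (fun g => (hmax' g).trans hcon) hmax')

end Pool.Agent.D7
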