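import Pool.Agent.Lib.MP_d74bc6_an.D01
import Pool.Agent.Lib.MP_d74bc6_an.D06

set_option autoImplicit false

/-! ### M1 -/
namespace Pool.Agent.D7

variable {X I : Type} [NormedAddCommGroup X] [NormedSpace ℝ X] {Q : (I → ℝ) → KB X → ℝ}

theorem Mf_bdd (hQ : QData Q) (x : X) {s : I → ℝ} (hs : C0 s) :
    BddAbove (Set.range fun f : KB X => f.1 x + Q s f) := by
  obtain ⟨B, hB, h⟩ := hs.sq
  refine ⟨‖x‖ + B, ?_⟩
  rintro _ ⟨f, rfl⟩
  exact add_le_add ((le_abs_self _).trans (f.2 x)) (hQ.le s f B hB h)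

theorem le_Mf (hQ : QData Q) (x : X) {s : I → ℝ} (hs : C0 s) (f : KB X) :
    f.1 x + Q s f ≤ Mf Q x s :=
  le_ciSup (Mf_bdd hQ x hs) f

theorem Mf_ge_norm (hQ : QData Q) (x : X) {s : I → ℝ} (hs : C0 s) : ‖x‖ ≤ Mf Q x s := by
  obtain ⟨f, hf⟩ := KB.norming x
  have h1 := le_Mf hQ x hs f
  have h2 := hQ.nonneg s f
  rw [hf] at h1
  linarith

theorem Mf_le (hQ : QData Q) (x : X) (s : I → ℝ) (B : ℝ) (hB : 0 ≤ B)
    (h : ∀ i, (s i) ^ 2 ≤ B) : Mf Q x s ≤ ‖x‖ + B := by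
  unfold Mf
  apply ciSup_le
  intro f
  exact add_le_add ((le_abs_self _).trans (f.2 x)) (hQ.le s f B hB h)

theorem Mf_conv (hQ : QData Q) (x y : X) {s s' : I → ℝ} (hs : C0 s) (hs' : C0 s') (a b : ℝ)
    (ha : 0 ≤ a) (hb : 0 ≤ b) (hab : a + b = 1) :
    Mf Q (a • x + b • y) (a • s + b • s') ≤ a * Mf Q x s + b * Mf Q y s' := by
  have key : ∀ f : KB X, f.1 (a • x + b • y) + Q (a • s + b • s') f ≤
      a * Mf Q x s + b * Mf Q y s' := by
    intro f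
    have h0 : f.1 (a • x + b • y) = a * f.1 x + b * f.1 y := by
      rw [map_add, map_smul, map_smul, smul_eq_mul, smul_eq_mul]
    have h1 := hQ.conv s s' f a b hs hs' ha hb hab
    have h2 := mul_le_mul_of_nonneg_left (le_Mf hQ x hs f) ha
    have h3 := mul_le_mul_of_nonneg_left (le_Mf hQ y hs' f) hb
    rw [h0]
    nlinarith
  exact ciSup_le key

theorem Mf_lip (hQ : QData Q) (x : X) {s s' : I → ℝ} (hs : C0 s) (hs' : C0 s') (δ : ℝ)
    (hδ : 0 ≤ δ) (h : ∀ i, (s i) ^ 2 ≤ (s' i) ^ 2 + δ) : Mf Q x s ≤ Mf Q x s' + δ := by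
  have key : ∀ f : KB X, f.1 x + Q s f ≤ Mf Q x s' + δ := by
    intro f
    have h1 := hQ.lip s s' f δ hs hs' hδ h
    have h2 := le_Mf hQ x hs' f
    linarith
  exact ciSup_le key

end Pool.Agent.D7

/-! ### M2 -/
namespace Pool.Agent.D7

variable {X I : Type} [NormedAddCommGroup X] [NormedSpace ℝ X] {Q : (I → ℝ) → KB X → ℝ}

theorem danskin (hQ : QData Q) (x : X) {s : I → ℝ} (hs : C0 s) (f₀ : KB X)
    (h0 : ∀ f : KB X, f ≠ f₀ → f.1 x + Q s f < f₀.1 x + Q s f₀) (v : X) (ε : ℝ) (hε : 0 < ε) :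
    ∃ δ > 0, ∀ t : ℝ, |t| < δ → Mf Q (x + t • v) s ≤ Mf Q x s + t * f₀.1 v + ε * |t| := by
  have hlin : ∀ (f : KB X) (t : ℝ), f.1 (x + t • v) = f.1 x + t * f.1 v := by
    intro f t
    rw [map_add, map_smul, smul_eq_mul]
  -- the values outside of the compact set
  have hout : ∀ (f : KB X) (t : ℝ), |f.1 v - f₀.1 v| < ε →
      f.1 (x + t • v) + Q s f ≤ Mf Q x s + t * f₀.1 v + ε * |t| := by
    intro f t hf
    rw [hlin]
    have h1 := le_Mf hQ x hs f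
    have h2 : t * (f.1 v - f₀.1 v) ≤ ε * |t| := by
      calc t * (f.1 v - f₀.1 v) ≤ |t * (f.1 v - f₀.1 v)| := le_abs_self _
        _ = |t| * |f.1 v - f₀.1 v| := abs_mul _ _
        _ ≤ |t| * ε := mul_le_mul_of_nonneg_left hf.le (abs_nonneg t)
        _ = ε * |t| := mul_comm _ _
    linarith [mul_sub t (f.1 v) (f₀.1 v)]
  have hcl : IsClosed {f : KB X | ε ≤ |f.1 v - f₀.1 v|} :=
    isClosed_le continuous_const (((KB.continuous_eval v).sub continuous_const).abs)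
  rcases Set.eq_empty_or_nonempty {f : KB X | ε ≤ |f.1 v - f₀.1 v|} with hem | hne
  · refine ⟨1, one_pos, fun t _ => ciSup_le fun f => hout f t ?_⟩
    by_contra h
    have : f ∈ {f : KB X | ε ≤ |f.1 v - f₀.1 v|} := not_lt.mp h
    rw [hem] at this
    exact this
  · have husc : UpperSemicontinuous fun f : KB X => f.1 x + Q s f :=
      (KB.continuous_eval x).upperSemicontinuous.add (hQ.usc s hs)
    obtain ⟨f₁, hf₁, hmax⟩ := (husc.upperSemicontinuousOn _).exists_isMaxOn hne hcl.isCompact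
    have hne1 : f₁ ≠ f₀ := by
      intro h
      have h1 : ε ≤ |f₁.1 v - f₀.1 v| := hf₁
      rw [h, sub_self, abs_zero] at h1
      linarith
    set μ : ℝ := (f₀.1 x + Q s f₀) - (f₁.1 x + Q s f₁) with hμ
    have hμ0 : 0 < μ := sub_pos.mpr (h0 f₁ hne1)
    have hv : 0 ≤ ‖v‖ := norm_nonneg v
    refine ⟨μ / (2 * ‖v‖ + 1), by positivity, fun t ht => ciSup_le fun f => ?_⟩
    by_cases hf : |f.1 v - f₀.1 v| < ε
    · exact hout f t hf
    · have h1 : f.1 x + Q s f ≤ f₁.1 x + Q s f₁ := hmax (not_lt.mp hf)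
      have h2 := le_Mf hQ x hs f₀
      rw [lt_div_iff₀ (by positivity)] at ht
      have ht0 : 0 ≤ |t| := abs_nonneg t
      have h3 : t * f.1 v ≤ |t| * ‖v‖ := by
        calc t * f.1 v ≤ |t * f.1 v| := le_abs_self _
          _ = |t| * |f.1 v| := abs_mul _ _
          _ ≤ |t| * ‖v‖ := mul_le_mul_of_nonneg_left (f.2 v) ht0
      have h4 : -(t * f₀.1 v) ≤ |t| * ‖v‖ := by
        calc -(t * f₀.1 v) ≤ |t * f₀.1 v| := neg_le_abs _
          _ = |t| * |f₀.1 v| := abs_mul _ _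
          _ ≤ |t| * ‖v‖ := mul_le_mul_of_nonneg_left (f₀.2 v) ht0
      have h5 : 0 ≤ ε * |t| := mul_nonneg hε.le ht0
      rw [hlin]
      nlinarith

end Pool.Agent.D7

/-! ### IN1 -/
namespace Pool.Agent.D7

theorem exists_min_hilbert {H : Type} [NormedAddCommGroup H] [NormedSpace ℝ H] [CompleteSpace H]
    (g : H → ℝ) (hc : Continuous g) (m : ℝ) (hm : ∀ u, m ≤ g u)
    (hmid : ∀ u u', g ((1 / 2 : ℝ) • (u + u')) ≤ (g u + g u') / 2 - ‖u - u'‖ ^ 2 / 4) :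
    ∃ u, ∀ u', g u ≤ g u' := by
  have hbdd : BddBelow (Set.range g) := ⟨m, by rintro _ ⟨u, rfl⟩; exact hm u⟩
  set m0 := ⨅ u, g u with hm0
  have hle : ∀ u, m0 ≤ g u := fun u => ciInf_le hbdd u
  have hex : ∀ n : ℕ, ∃ u, g u < m0 + 1 / ((n : ℝ) + 1) := fun n =>
    exists_lt_of_ciInf_lt (lt_add_of_pos_right _ (by positivity))
  choose u hu using hex
  have hd : ∀ n k, n ≤ k → ‖u n - u k‖ ^ 2 ≤ 4 * (1 / ((n : ℝ) + 1)) := by
    intro n k hnk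
    have h1 := hmid (u n) (u k)
    have h2 := hle ((1 / 2 : ℝ) • (u n + u k))
    have h3 : (1 : ℝ) / ((k : ℝ) + 1) ≤ 1 / ((n : ℝ) + 1) := by
      apply one_div_le_one_div_of_le (by positivity)
      have : (n : ℝ) ≤ k := by exact_mod_cast hnk
      linarith
    have h4 := hu n
    have h5 := hu k
    linarith
  have hcau : CauchySeq u := by
    rw [Metric.cauchySeq_iff']
    intro ε hε
    obtain ⟨N, hN⟩ := exists_nat_one_div_lt (show 0 < ε ^ 2 / 4 by positivity)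
    refine ⟨N, fun n hn => ?_⟩
    have h := hd N n hn
    rw [dist_eq_norm, norm_sub_rev]
    have h6 : ‖u N - u n‖ ^ 2 < ε ^ 2 := by linarith
    exact lt_of_pow_lt_pow_left₀ 2 hε.le h6
  obtain ⟨v, hv⟩ := cauchySeq_tendsto_of_complete hcau
  have hg : Filter.Tendsto (fun n => g (u n)) Filter.atTop (nhds (g v)) :=
    (hc.tendsto v).comp hv
  have hlim : Filter.Tendsto (fun n : ℕ => m0 + 1 / ((n : ℝ) + 1)) Filter.atTop
      (nhds (m0 + 0)) :=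
    tendsto_const_nhds.add tendsto_one_div_add_atTop_nhds_zero_nat
  refine ⟨v, fun u' => ?_⟩
  have h7 : g v ≤ m0 + 0 := le_of_tendsto_of_tendsto' hg hlim (fun n => (hu n).le)
  linarith [hle u']

end Pool.Agent.D7

/-! ### IN2 -/
namespace Pool.Agent.D7

variable {X I H : Type} [NormedAddCommGroup X] [NormedSpace ℝ X]
variable [NormedAddCommGroup H] [InnerProductSpace ℝ H]

/-- `G(x,u) = M(x, Tx - j u) + ‖u‖ ^ 2`. -/
noncomputable def Gf (Q : (I → ℝ) → KB X → ℝ) (T : X →ₗ[ℝ] (I → ℝ)) (j : H →ₗ[ℝ] (I → ℝ))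
    (x : X) (u : H) : ℝ := Mf Q x (T x - j u) + ‖u‖ ^ 2

theorem in2_C0 {T : X →ₗ[ℝ] (I → ℝ)}
    (hT0 : ∀ x, C0 (T x)) {j : H →ₗ[ℝ] (I → ℝ)} (hj : L2Data j) (x : X) (u : H) :
    C0 (T x - j u) := C0.sub (hT0 x) (hj.c0 u)

theorem in2_sq {T : X →ₗ[ℝ] (I → ℝ)} {j : H →ₗ[ℝ] (I → ℝ)} (hj : L2Data j) (x : X) (u u' : H)
    (B : ℝ) (hB : ∀ i, |(T x - j u) i| ≤ B) (h1 : ‖u - u'‖ ≤ 1) (i : I) :
    ((T x - j u') i) ^ 2 ≤ ((T x - j u) i) ^ 2 + (2 * B + 1) * ‖u - u'‖ := by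
  have h2 : |j (u - u') i| ≤ ‖u - u'‖ := hj.le _ i
  have h3 : (T x - j u') i = (T x - j u) i + j (u - u') i := by
    rw [map_sub]
    simp only [Pi.sub_apply]
    ring
  rw [h3]
  have h4 := hB i
  have h5 : 0 ≤ B := le_trans (abs_nonneg _) h4
  set a := (T x - j u) i
  set c := j (u - u') i
  set e := ‖u - u'‖
  have h6 : a * c ≤ B * e := by
    calc a * c ≤ |a * c| := le_abs_self _
      _ = |a| * |c| := abs_mul _ _
      _ ≤ B * e := mul_le_mul h4 h2 (abs_nonneg _) h5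
  have h7 : c ^ 2 ≤ e := by
    have : c ^ 2 = |c| ^ 2 := (sq_abs c).symm
    rw [this]
    have h8 : 0 ≤ |c| := abs_nonneg c
    nlinarith
  nlinarith

theorem in2_lip {Q : (I → ℝ) → KB X → ℝ} (hQ : QData Q) {T : X →ₗ[ℝ] (I → ℝ)}
    (hT0 : ∀ x, C0 (T x)) {j : H →ₗ[ℝ] (I → ℝ)} (hj : L2Data j) (x : X) (u u' : H)
    (B : ℝ) (hB0 : 0 ≤ B) (hB : ∀ i, |(T x - j u) i| ≤ B) (h1 : ‖u - u'‖ ≤ 1) :
    Mf Q x (T x - j u') ≤ Mf Q x (T x - j u) + (2 * B + 1) * ‖u - u'‖ := by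
  apply Mf_lip hQ x (in2_C0 hT0 hj x u') (in2_C0 hT0 hj x u)
  · positivity
  · intro i
    exact in2_sq hj x u u' B hB h1 i

theorem Gf_continuous {Q : (I → ℝ) → KB X → ℝ} (hQ : QData Q) {T : X →ₗ[ℝ] (I → ℝ)}
    (hT0 : ∀ x, C0 (T x)) {j : H →ₗ[ℝ] (I → ℝ)} (hj : L2Data j) (x : X) :
    Continuous (Gf Q T j x) := by
  have key : Continuous fun u : H => Mf Q x (T x - j u) := by
    rw [Metric.continuous_iff]
    intro u ε hε
    obtain ⟨B, hB0, hB⟩ := (in2_C0 hT0 hj x u).bdd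
    refine ⟨min 1 (ε / (2 * B + 4)), by positivity, ?_⟩
    intro u' hu'
    have h1 : ‖u' - u‖ < min 1 (ε / (2 * B + 4)) := by rwa [dist_eq_norm] at hu'
    have h2 : ‖u' - u‖ ≤ 1 := le_trans h1.le (min_le_left _ _)
    have h3 : ‖u' - u‖ < ε / (2 * B + 4) := lt_of_lt_of_le h1 (min_le_right _ _)
    have h4 : ‖u - u'‖ = ‖u' - u‖ := norm_sub_rev _ _
    have h5 := in2_lip hQ hT0 hj x u u' B hB0 hB (by rw [h4]; exact h2)
    have hB' : ∀ i, |(T x - j u') i| ≤ B + 1 := by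
      intro i
      have h6 : |j (u - u') i| ≤ ‖u - u'‖ := hj.le _ i
      have h7 : (T x - j u') i = (T x - j u) i + j (u - u') i := by
        rw [map_sub]
        simp only [Pi.sub_apply]
        ring
      rw [h7]
      have h8 := hB i
      have h9 := abs_add_le ((T x - j u) i) (j (u - u') i)
      linarith
    have h6 := in2_lip hQ hT0 hj x u' u (B + 1) (by linarith) hB' h2
    rw [h4] at h5
    rw [lt_div_iff₀ (by positivity)] at h3
    rw [Real.dist_eq, abs_lt]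
    have h7 : 0 ≤ ‖u' - u‖ := norm_nonneg _
    constructor
    · nlinarith
    · nlinarith
  unfold Gf
  exact key.add (continuous_norm.pow 2)

theorem Gf_mid {Q : (I → ℝ) → KB X → ℝ} (hQ : QData Q) {T : X →ₗ[ℝ] (I → ℝ)}
    (hT0 : ∀ x, C0 (T x)) {j : H →ₗ[ℝ] (I → ℝ)} (hj : L2Data j) (x : X) (u u' : H) :
    Gf Q T j x ((1 / 2 : ℝ) • (u + u')) ≤
      (Gf Q T j x u + Gf Q T j x u') / 2 - ‖u - u'‖ ^ 2 / 4 := by
  unfold Gf
  have h1 : T x - j ((1 / 2 : ℝ) • (u + u')) =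
      (1 / 2 : ℝ) • (T x - j u) + (1 / 2 : ℝ) • (T x - j u') := by
    rw [map_smul, map_add]
    funext i
    simp only [Pi.sub_apply, Pi.smul_apply, Pi.add_apply, smul_eq_mul]
    ring
  have h2 : x = (1 / 2 : ℝ) • x + (1 / 2 : ℝ) • x := by
    rw [← add_smul]; norm_num
  have h3 := Mf_conv hQ x x (in2_C0 hT0 hj x u) (in2_C0 hT0 hj x u') (1 / 2) (1 / 2)
    (by norm_num) (by norm_num) (by norm_num)
  rw [← h2] at h3
  rw [h1]
  have h4 := parallelogram_law_with_norm ℝ u u'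
  have h5 : ‖(1 / 2 : ℝ) • (u + u')‖ ^ 2 = ‖u + u'‖ ^ 2 / 4 := by
    rw [norm_smul]
    rw [mul_pow]
    norm_num
    ring
  rw [h5]
  nlinarith

theorem Gf_exists_min [CompleteSpace H] {Q : (I → ℝ) → KB X → ℝ} (hQ : QData Q)
    {T : X →ₗ[ℝ] (I → ℝ)} (hT0 : ∀ x, C0 (T x)) {j : H →ₗ[ℝ] (I → ℝ)} (hj : L2Data j) (x : X) :
    ∃ u : H, ∀ u' : H, Gf Q T j x u ≤ Gf Q T j x u' := by
  apply exists_min_hilbert (Gf Q T j x) (Gf_continuous hQ hT0 hj x) 0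
  · intro u
    unfold Gf
    have h1 := Mf_ge_norm hQ x (in2_C0 hT0 hj x u)
    have h2 := norm_nonneg x
    have h3 : 0 ≤ ‖u‖ ^ 2 := by positivity
    linarith
  · intro u u'
    exact Gf_mid hQ hT0 hj x u u'

end Pool.Agent.D7

/-! ### IN3 -/
namespace Pool.Agent.D7

variable {X I H : Type} [NormedAddCommGroup X] [NormedSpace ℝ X]
variable [NormedAddCommGroup H] [InnerProductSpace ℝ H]

theorem min_support {Q : (I → ℝ) → KB X → ℝ} (hQ : QData Q) {T : X →ₗ[ℝ] (I → ℝ)}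
    (hT0 : ∀ x, C0 (T x)) {j : H →ₗ[ℝ] (I → ℝ)} (hj : L2Data j) (x : X) (u : H)
    (hu : ∀ u' : H, Gf Q T j x u ≤ Gf Q T j x u') (i : I) (hi : T x i ≠ 0) :
    (T x - j u) i ≠ 0 := by
  obtain ⟨e, he0, he1, hen, hei⟩ := hj.single i
  intro h0
  have hju : j u i = T x i := by
    have h1 : T x i - j u i = 0 := h0
    linarith
  have hmin := hu (u - (T x i / 2) • e)
  have hval : ∀ i', (T x - j (u - (T x i / 2) • e)) i' = (T x - j u) i' + (T x i / 2) * j e i' := by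
    intro i'
    rw [map_sub, map_smul]
    simp only [Pi.sub_apply, Pi.smul_apply, smul_eq_mul]
    ring
  have hlip : Mf Q x (T x - j (u - (T x i / 2) • e)) ≤ Mf Q x (T x - j u) + (T x i) ^ 2 / 4 := by
    apply Mf_lip hQ x ((hT0 x).sub (hj.c0 _)) ((hT0 x).sub (hj.c0 _)) _ (by positivity)
    intro i'
    rw [hval i']
    by_cases hi' : i' = i
    · subst hi'
      rw [h0, he1]
      apply le_of_eq
      ring
    · rw [he0 i' hi', mul_zero, add_zero]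
      have : 0 ≤ (T x i) ^ 2 / 4 := by positivity
      linarith
  have hnorm : ‖u - (T x i / 2) • e‖ ^ 2 = ‖u‖ ^ 2 - (T x i) ^ 2 + (T x i) ^ 2 / 4 := by
    rw [norm_sub_sq_real, real_inner_smul_right, hei, hju, norm_smul, hen, mul_one,
      Real.norm_eq_abs, sq_abs]
    ring
  have hpos : 0 < (T x i) ^ 2 := by positivity
  unfold Gf at hmin
  rw [hnorm] at hmin
  linarith

end Pool.Agent.D7

/-! ### IN4 -/
namespace Pool.Agent.D7

variable {X I H : Type} [NormedAddCommGroup X] [NormedSpace ℝ X]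
variable [NormedAddCommGroup H] [InnerProductSpace ℝ H]

/-- `Φ₀(x) = inf_u (M(x, Tx - j u) + ‖u‖ ^ 2)`. -/
noncomputable def Ph (Q : (I → ℝ) → KB X → ℝ) (T : X →ₗ[ℝ] (I → ℝ)) (j : H →ₗ[ℝ] (I → ℝ))
    (x : X) : ℝ := ⨅ u : H, Gf Q T j x u

theorem in4_ge {Q : (I → ℝ) → KB X → ℝ} (hQ : QData Q) {T : X →ₗ[ℝ] (I → ℝ)}
    (hT0 : ∀ x, C0 (T x)) {j : H →ₗ[ℝ] (I → ℝ)} (hj : L2Data j) (x : X) (u : H) :
    ‖x‖ ≤ Gf Q T j x u := by
  unfold Gf
  have h1 := Mf_ge_norm hQ x ((hT0 x).sub (hj.c0 u))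
  have h2 := sq_nonneg ‖u‖
  linarith

theorem Ph_le {Q : (I → ℝ) → KB X → ℝ} (hQ : QData Q) {T : X →ₗ[ℝ] (I → ℝ)}
    (hT0 : ∀ x, C0 (T x)) {j : H →ₗ[ℝ] (I → ℝ)} (hj : L2Data j) (x : X) (u : H) :
    Ph Q T j x ≤ Gf Q T j x u := by
  refine ciInf_le ⟨‖x‖, ?_⟩ u
  rintro _ ⟨u', rfl⟩
  exact in4_ge hQ hT0 hj x u'

theorem Ph_eq [CompleteSpace H] {Q : (I → ℝ) → KB X → ℝ} (hQ : QData Q)
    {T : X →ₗ[ℝ] (I → ℝ)} (hT0 : ∀ x, C0 (T x)) {j : H →ₗ[ℝ] (I → ℝ)} (hj : L2Data j) (x : X) :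
    ∃ u : H, Ph Q T j x = Gf Q T j x u ∧ ∀ u' : H, Gf Q T j x u ≤ Gf Q T j x u' := by
  obtain ⟨u, hu⟩ := Gf_exists_min hQ hT0 hj x
  exact ⟨u, le_antisymm (Ph_le hQ hT0 hj x u) (le_ciInf hu), hu⟩

theorem Ph_ge {Q : (I → ℝ) → KB X → ℝ} (hQ : QData Q) {T : X →ₗ[ℝ] (I → ℝ)}
    (hT0 : ∀ x, C0 (T x)) {j : H →ₗ[ℝ] (I → ℝ)} (hj : L2Data j) (x : X) :
    ‖x‖ ≤ Ph Q T j x := by
  exact le_ciInf fun u => in4_ge hQ hT0 hj x u

theorem Ph_upper {Q : (I → ℝ) → KB X → ℝ} (hQ : QData Q) {T : X →ₗ[ℝ] (I → ℝ)}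
    (hT0 : ∀ x, C0 (T x)) (hT : ∀ x i, |T x i| ≤ ‖x‖) {j : H →ₗ[ℝ] (I → ℝ)} (hj : L2Data j)
    (x : X) : Ph Q T j x ≤ ‖x‖ + ‖x‖ ^ 2 := by
  refine (Ph_le hQ hT0 hj x 0).trans ?_
  unfold Gf
  have h1 := Mf_le hQ x (T x - j 0) (‖x‖ ^ 2) (sq_nonneg _) (by
    intro i
    have h2 : (T x - j 0) i = T x i := by
      rw [map_zero, sub_zero]
    rw [h2]
    refine sq_le_sq.mpr ?_
    rw [abs_of_nonneg (norm_nonneg x)]
    exact hT x i)
  have h3 : ‖(0 : H)‖ ^ 2 = 0 := by simp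
  rw [h3]
  linarith

theorem Ph_convex [CompleteSpace H] {Q : (I → ℝ) → KB X → ℝ} (hQ : QData Q)
    {T : X →ₗ[ℝ] (I → ℝ)} (hT0 : ∀ x, C0 (T x)) {j : H →ₗ[ℝ] (I → ℝ)} (hj : L2Data j) :
    ConvexOn ℝ Set.univ (Ph Q T j) := by
  refine ⟨convex_univ, ?_⟩
  intro x _ y _ a b ha hb hab
  obtain ⟨u, hu, -⟩ := Ph_eq hQ hT0 hj x
  obtain ⟨u', hu', -⟩ := Ph_eq hQ hT0 hj y
  refine (Ph_le hQ hT0 hj (a • x + b • y) (a • u + b • u')).trans ?_
  rw [hu, hu']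
  unfold Gf
  have e1 : T (a • x + b • y) - j (a • u + b • u') = a • (T x - j u) + b • (T y - j u') := by
    rw [map_add, map_add, map_smul, map_smul, map_smul, map_smul]
    module
  have h1 := Mf_conv hQ x y ((hT0 x).sub (hj.c0 u)) ((hT0 y).sub (hj.c0 u')) a b ha hb hab
  have h2 : ‖a • u + b • u'‖ ^ 2 ≤ a * ‖u‖ ^ 2 + b * ‖u'‖ ^ 2 := by
    have h3 : ‖a • u + b • u'‖ ≤ a * ‖u‖ + b * ‖u'‖ := by
      refine (norm_add_le _ _).trans ?_
      rw [norm_smul, norm_smul, Real.norm_of_nonneg ha, Real.norm_of_nonneg hb]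
    have h4 : (a * ‖u‖ + b * ‖u'‖) ^ 2 ≤ a * ‖u‖ ^ 2 + b * ‖u'‖ ^ 2 := by
      have h5 : a * ‖u‖ ^ 2 + b * ‖u'‖ ^ 2 - (a * ‖u‖ + b * ‖u'‖) ^ 2 =
          a * b * (‖u‖ - ‖u'‖) ^ 2 := by
        have hb' : b = 1 - a := by linarith
        rw [hb']; ring
      have h6 : 0 ≤ a * b * (‖u‖ - ‖u'‖) ^ 2 :=
        mul_nonneg (mul_nonneg ha hb) (sq_nonneg _)
      linarith
    exact (pow_le_pow_left₀ (norm_nonneg _) h3 2).trans h4
  rw [e1, smul_eq_mul, smul_eq_mul]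
  linarith

end Pool.Agent.D7

/-! ### IN5 -/
namespace Pool.Agent.D7

variable {X I H : Type} [NormedAddCommGroup X] [NormedSpace ℝ X]
variable [NormedAddCommGroup H] [InnerProductSpace ℝ H]

theorem exists_trunc {j : H →ₗ[ℝ] (I → ℝ)} (hj : L2Data j) (r : I → ℝ) (hr : C0 r) (η : ℝ)
    (hη : 0 < η) : ∃ z : H, ∀ i, |(r - j z) i| ≤ η := by
  classical
  choose e he0 he1 _ _ using hj.single
  refine ⟨∑ i ∈ (hr η hη).toFinset, r i • e i, fun k => ?_⟩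
  have h1 : j (∑ i ∈ (hr η hη).toFinset, r i • e i) k =
      ∑ i ∈ (hr η hη).toFinset, r i * j (e i) k := by
    rw [map_sum, Finset.sum_apply]
    refine Finset.sum_congr rfl fun i _ => ?_
    rw [map_smul, Pi.smul_apply, smul_eq_mul]
  rw [Pi.sub_apply, h1]
  by_cases hk : k ∈ (hr η hη).toFinset
  · rw [Finset.sum_eq_single_of_mem k hk]
    · rw [he1 k, mul_one, sub_self, abs_zero]
      exact hη.le
    · intro i _ hik
      rw [he0 i k (Ne.symm hik), mul_zero]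
  · rw [Finset.sum_eq_zero]
    · rw [sub_zero]
      have h2 : ¬ η ≤ |r k| := by
        intro h
        exact hk ((Set.Finite.mem_toFinset _).mpr h)
      exact (not_le.mp h2).le
    · intro i hi
      rw [he0 i k (fun h => hk (h ▸ hi)), mul_zero]

theorem Ph_estimate {Q : (I → ℝ) → KB X → ℝ} (hQ : QData Q) {T : X →ₗ[ℝ] (I → ℝ)}
    (hT0 : ∀ x, C0 (T x)) {j : H →ₗ[ℝ] (I → ℝ)} (hj : L2Data j) (x : X) (u : H)
    (hu : Ph Q T j x = Gf Q T j x u) (f₀ : KB X)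
    (h0 : ∀ f : KB X, f ≠ f₀ → f.1 x + Q (T x - j u) f < f₀.1 x + Q (T x - j u) f₀) (v : X)
    (ε : ℝ) (hε : 0 < ε) :
    ∃ a : ℝ, ∃ δ > 0, ∀ t : ℝ, |t| < δ →
      Ph Q T j (x + t • v) ≤ Ph Q T j x + t * a + ε * |t| := by
  have hs : C0 (T x - j u) := (hT0 x).sub (hj.c0 u)
  obtain ⟨B, hB0, hB⟩ := hs.bdd
  set η : ℝ := min 1 (ε / 3 / (2 * B + 2)) with hηdef
  have hη : 0 < η := by
    refine lt_min one_pos ?_
    positivity
  have hη1 : η ≤ 1 := min_le_left _ _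
  have hη2 : η * (2 * B + 2) ≤ ε / 3 := by
    have h := min_le_right 1 (ε / 3 / (2 * B + 2))
    rw [← hηdef, le_div_iff₀ (by linarith)] at h
    exact h
  obtain ⟨z, hz⟩ := exists_trunc hj (T v) (hT0 v) η hη
  obtain ⟨δ₁, hδ₁, hd⟩ := danskin hQ x hs f₀ h0 v (ε / 3) (by positivity)
  refine ⟨f₀.1 v + 2 * inner ℝ u z, min (min δ₁ 1) (ε / 3 / (‖z‖ ^ 2 + 1)), ?_, ?_⟩
  · refine lt_min (lt_min hδ₁ one_pos) ?_
    positivity
  intro t ht
  have ht1 : |t| < δ₁ := lt_of_lt_of_le ht ((min_le_left _ _).trans (min_le_left _ _))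
  have ht2 : |t| < 1 := lt_of_lt_of_le ht ((min_le_left _ _).trans (min_le_right _ _))
  have ht3 : |t| * (‖z‖ ^ 2 + 1) ≤ ε / 3 := by
    have h := (lt_of_lt_of_le ht (min_le_right _ _)).le
    rwa [le_div_iff₀ (by positivity)] at h
  have ht0 : 0 ≤ |t| := abs_nonneg t
  refine (Ph_le hQ hT0 hj (x + t • v) (u + t • z)).trans ?_
  unfold Gf
  have e1 : T (x + t • v) - j (u + t • z) = (T x - j u) + t • (T v - j z) := by
    rw [map_add, map_add, map_smul, map_smul]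
    module
  have hr : C0 (T v - j z) := (hT0 v).sub (hj.c0 z)
  have h1 : Mf Q (x + t • v) ((T x - j u) + t • (T v - j z)) ≤
      Mf Q (x + t • v) (T x - j u) + |t| * (η * (2 * B + 1)) := by
    refine Mf_lip hQ _ (hs.add (hr.smul t)) hs _ (by positivity) fun i => ?_
    have e2 : ((T x - j u) + t • (T v - j z)) i = (T x - j u) i + t * (T v - j z) i := rfl
    rw [e2]
    set p := (T x - j u) i with hp
    set q := (T v - j z) i with hq
    have hp1 : |p| ≤ B := hB i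
    have hq1 : |q| ≤ η := hz i
    have h2 : 2 * (p * (t * q)) ≤ 2 * (B * (|t| * η)) := by
      have h3 : p * (t * q) ≤ |p * (t * q)| := le_abs_self _
      rw [abs_mul, abs_mul] at h3
      have h4 : |p| * (|t| * |q|) ≤ B * (|t| * η) :=
        mul_le_mul hp1 (mul_le_mul_of_nonneg_left hq1 ht0) (by positivity) hB0
      linarith
    have h5 : (t * q) ^ 2 ≤ |t| * η := by
      have h6 : (t * q) ^ 2 = (|t| * |q|) * (|t| * |q|) := by
        rw [← abs_mul, ← sq, sq_abs]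
      have h7 : |t| * |q| ≤ |t| * η := mul_le_mul_of_nonneg_left hq1 ht0
      have h8 : |t| * |q| ≤ 1 := by
        calc |t| * |q| ≤ 1 * 1 := mul_le_mul ht2.le (hq1.trans hη1) (abs_nonneg _) zero_le_one
          _ = 1 := one_mul 1
      rw [h6]
      calc (|t| * |q|) * (|t| * |q|) ≤ (|t| * η) * 1 :=
            mul_le_mul h7 h8 (by positivity) (by positivity)
        _ = |t| * η := mul_one _
    calc (p + t * q) ^ 2 = p ^ 2 + 2 * (p * (t * q)) + (t * q) ^ 2 := by ring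
      _ ≤ p ^ 2 + 2 * (B * (|t| * η)) + |t| * η := by linarith
      _ = p ^ 2 + |t| * (η * (2 * B + 1)) := by ring
  have h2 := hd t ht1
  have h3 : |t| * (η * (2 * B + 1)) ≤ |t| * (ε / 3) := by
    refine mul_le_mul_of_nonneg_left ?_ ht0
    nlinarith
  have h4 : ‖u + t • z‖ ^ 2 ≤ ‖u‖ ^ 2 + 2 * (t * inner ℝ u z) + |t| * (ε / 3) := by
    rw [norm_add_sq_real, inner_smul_right, norm_smul, Real.norm_eq_abs]
    have h5 : (|t| * ‖z‖) ^ 2 ≤ |t| * (ε / 3) := by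
      calc (|t| * ‖z‖) ^ 2 = |t| * (|t| * ‖z‖ ^ 2) := by ring
        _ ≤ |t| * (ε / 3) := by
          refine mul_le_mul_of_nonneg_left ?_ ht0
          nlinarith
    linarith
  rw [e1, hu]
  unfold Gf
  linarith

end Pool.Agent.D7

/-! ### IN6 -/
namespace Pool.Agent.D7

theorem in6_slope (h : ℝ → ℝ) (hc : ConvexOn ℝ Set.univ h) (s t : ℝ) (hs : 0 < s) (ht : 0 < t) :
    (h 0 - h (-s)) / s ≤ (h t - h 0) / t := by
  have hst : 0 < s + t := add_pos hs ht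
  have ha : 0 ≤ t / (s + t) := div_nonneg ht.le hst.le
  have hb : 0 ≤ s / (s + t) := div_nonneg hs.le hst.le
  have hab : t / (s + t) + s / (s + t) = 1 := by rw [← add_div, add_comm t s, div_self hst.ne']
  have h1 := hc.2 (Set.mem_univ (-s)) (Set.mem_univ t) ha hb hab
  have h2 : (t / (s + t)) • (-s) + (s / (s + t)) • t = 0 := by
    simp only [smul_eq_mul]
    ring
  rw [h2] at h1
  simp only [smul_eq_mul] at h1
  have h3 : h 0 * (s + t) ≤ t * h (-s) + s * h t := by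
    have h4 := mul_le_mul_of_nonneg_right h1 hst.le
    have h5 : (t / (s + t) * h (-s) + s / (s + t) * h t) * (s + t) = t * h (-s) + s * h t := by
      field_simp
    rwa [h5] at h4
  rw [div_le_div_iff₀ hs ht]
  linarith

theorem conv_diff (h : ℝ → ℝ) (hc : ConvexOn ℝ Set.univ h)
    (he : ∀ ε : ℝ, 0 < ε → ∃ a : ℝ, ∃ δ > 0, ∀ t : ℝ, |t| < δ → h t ≤ h 0 + t * a + ε * |t|) :
    ∃ a : ℝ, HasDerivAt h a 0 := by
  have hbdd : BddBelow {y : ℝ | ∃ t : ℝ, 0 < t ∧ y = (h t - h 0) / t} := by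
    refine ⟨(h 0 - h (-1)) / 1, ?_⟩
    rintro y ⟨t, ht, rfl⟩
    exact in6_slope h hc 1 t one_pos ht
  have hne : {y : ℝ | ∃ t : ℝ, 0 < t ∧ y = (h t - h 0) / t}.Nonempty := ⟨_, 1, one_pos, rfl⟩
  obtain ⟨A, hA⟩ : ∃ A : ℝ, A = sInf {y : ℝ | ∃ t : ℝ, 0 < t ∧ y = (h t - h 0) / t} := ⟨_, rfl⟩
  have hA1 : ∀ t : ℝ, 0 < t → A ≤ (h t - h 0) / t := by
    intro t ht
    rw [hA]
    exact csInf_le hbdd ⟨t, ht, rfl⟩
  have hA2 : ∀ s : ℝ, 0 < s → (h 0 - h (-s)) / s ≤ A := by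
    intro s hs
    rw [hA]
    refine le_csInf hne ?_
    rintro y ⟨t, ht, rfl⟩
    exact in6_slope h hc s t hs ht
  refine ⟨A, ?_⟩
  rw [hasDerivAt_iff_isLittleO, Asymptotics.isLittleO_iff]
  intro c hcpos
  obtain ⟨a, δ, hδ, hest⟩ := he (c / 2) (half_pos hcpos)
  rw [Metric.eventually_nhds_iff]
  refine ⟨δ, hδ, fun t ht => ?_⟩
  rw [Real.dist_eq, sub_zero] at ht
  have hup : ∀ t : ℝ, 0 < t → t < δ → (h t - h 0) / t ≤ a + c / 2 := by
    intro t h0 h1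
    have h2 := hest t (by rwa [abs_of_pos h0])
    rw [abs_of_pos h0] at h2
    rw [div_le_iff₀ h0]
    linarith
  have hlo : ∀ t : ℝ, 0 < t → t < δ → a - c / 2 ≤ (h 0 - h (-t)) / t := by
    intro t h0 h1
    have h2 := hest (-t) (by rwa [abs_neg, abs_of_pos h0])
    rw [abs_neg, abs_of_pos h0] at h2
    rw [le_div_iff₀ h0]
    linarith
  have hd : 0 < δ / 2 := half_pos hδ
  have hd' : δ / 2 < δ := half_lt_self hδ
  have hAa1 : A ≤ a + c / 2 := (hA1 _ hd).trans (hup _ hd hd')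
  have hAa2 : a - c / 2 ≤ A := (hlo _ hd hd').trans (hA2 _ hd)
  simp only [sub_zero, smul_eq_mul, Real.norm_eq_abs]
  rcases lt_trichotomy t 0 with h0 | h0 | h0
  · have h1 : 0 < -t := neg_pos.2 h0
    have h2 : -t < δ := by rwa [abs_of_neg h0] at ht
    have h3 := hlo (-t) h1 h2
    have h4 := hA2 (-t) h1
    rw [neg_neg] at h3 h4
    rw [le_div_iff₀ h1] at h3
    rw [div_le_iff₀ h1] at h4
    rw [abs_of_neg h0, abs_le]
    constructor
    · nlinarith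
    · nlinarith
  · rw [h0]
    simp
  · have h2 : t < δ := by rwa [abs_of_pos h0] at ht
    have h3 := hup t h0 h2
    have h4 := hA1 t h0
    rw [div_le_iff₀ h0] at h3
    rw [le_div_iff₀ h0] at h4
    rw [abs_of_pos h0, abs_le]
    constructor
    · nlinarith
    · nlinarith

theorem conv_line {X : Type} [NormedAddCommGroup X] [NormedSpace ℝ X] {P : X → ℝ}
    (hP : ConvexOn ℝ Set.univ P) (x v : X) :
    ConvexOn ℝ Set.univ fun t : ℝ => P (x + t • v) := by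
  refine ⟨convex_univ, fun s _ t _ a b ha hb hab => ?_⟩
  have h1 := hP.2 (Set.mem_univ (x + s • v)) (Set.mem_univ (x + t • v)) ha hb hab
  have h2 : a • (x + s • v) + b • (x + t • v) = x + (a • s + b • t) • v := by
    have h3 : a • x + b • x = x := by rw [← add_smul, hab, one_smul]
    calc a • (x + s • v) + b • (x + t • v) = (a • x + b • x) + (a • s + b • t) • v := by
          simp only [smul_add, add_smul, smul_smul, smul_eq_mul]
          abel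
      _ = x + (a • s + b • t) • v := by rw [h3]
  rw [h2] at h1
  exact h1

end Pool.Agent.D7

/-! ### IN7 -/
namespace Pool.Agent.D7

theorem exists_Phi0 {X I H : Type} [NormedAddCommGroup X] [NormedSpace ℝ X]
    [NormedAddCommGroup H] [InnerProductSpace ℝ H] [CompleteSpace H]
    {Q : (I → ℝ) → KB X → ℝ} (hQ : QData Q) {T : X →ₗ[ℝ] (I → ℝ)}
    (hT0 : ∀ x, C0 (T x)) (hT : ∀ x i, |T x i| ≤ ‖x‖) {j : H →ₗ[ℝ] (I → ℝ)} (hj : L2Data j)
    (huniq : ∀ (x : X) (s : I → ℝ), x ≠ 0 → C0 s → (∀ i, T x i ≠ 0 → s i ≠ 0) →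
      ∃ f₀ : KB X, ∀ f : KB X, f ≠ f₀ → f.1 x + Q s f < f₀.1 x + Q s f₀) :
    ∃ P : X → ℝ, ConvexOn ℝ Set.univ P ∧ (∀ x, ‖x‖ ≤ P x) ∧ (∀ x, P x ≤ ‖x‖ + ‖x‖ ^ 2) ∧
      ∀ x, x ≠ 0 → ∀ v : X, ∃ a : ℝ, HasDerivAt (fun t : ℝ => P (x + t • v)) a 0 := by
  refine ⟨Ph Q T j, Ph_convex hQ hT0 hj, Ph_ge hQ hT0 hj, Ph_upper hQ hT0 hT hj, ?_⟩
  intro x hx v
  obtain ⟨u, hu, hu'⟩ := Ph_eq hQ hT0 hj x
  have hs : C0 (T x - j u) := C0.sub (hT0 x) (hj.c0 u)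
  obtain ⟨f₀, hf₀⟩ := huniq x (T x - j u) hx hs
    (fun i hi => min_support hQ hT0 hj x u hu' i hi)
  apply conv_diff (fun t : ℝ => Ph Q T j (x + t • v)) (conv_line (Ph_convex hQ hT0 hj) x v)
  intro ε hε
  obtain ⟨a, δ, hδ, h⟩ := Ph_estimate hQ hT0 hj x u hu f₀ hf₀ v ε hε
  refine ⟨a, δ, hδ, fun t ht => ?_⟩
  have h1 := h t ht
  simpa using h1

end Pool.Agent.D7
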