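import Pool.Agent.Lib.MP_d74bc6_an.D01

set_option autoImplicit false

/-! ### GA1 -/
namespace Pool.Agent.D7

theorem gauge_facts {X : Type} [NormedAddCommGroup X] [NormedSpace ℝ X] (P : X → ℝ)
    (hP : ConvexOn ℝ Set.univ P) (h1 : ∀ x, ‖x‖ ≤ P x) (h2 : ∀ x, P x ≤ ‖x‖ + ‖x‖ ^ 2) :
    ∃ N : X → ℝ, (∀ x y, N (x + y) ≤ N x + N y) ∧ (∀ (c : ℝ) x, N (c • x) = |c| * N x) ∧
      (∀ x, 2 * ‖x‖ ≤ N x) ∧ (∀ x, N x ≤ 4 * ‖x‖) ∧
      (∀ x, P x + P (-x) ≤ 1 → N x ≤ 1) ∧ (∀ x, N x = 1 → P x + P (-x) = 1) := by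
  obtain ⟨Q, hQ⟩ : ∃ Q : X → ℝ, ∀ x, Q x = P x + P (-x) := ⟨_, fun _ => rfl⟩
  have hQc : ConvexOn ℝ Set.univ Q := by
    have e : Q = P + P ∘ (-LinearMap.id : X →ₗ[ℝ] X) := by
      funext x
      simp [hQ]
    rw [e]
    refine hP.add ?_
    have := hP.comp_linearMap (-LinearMap.id : X →ₗ[ℝ] X)
    simpa using this
  have P0 : P 0 = 0 := le_antisymm (by simpa using h2 0) (by simpa using h1 0)
  have Q0 : Q 0 = 0 := by rw [hQ, neg_zero, P0, add_zero]
  have lo : ∀ x, 2 * ‖x‖ ≤ Q x := by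
    intro x
    have a := h1 x
    have b := h1 (-x)
    rw [norm_neg] at b
    rw [hQ]
    linarith
  have hi : ∀ x, Q x ≤ 2 * ‖x‖ + 2 * ‖x‖ ^ 2 := by
    intro x
    have a := h2 x
    have b := h2 (-x)
    rw [norm_neg] at b
    rw [hQ]
    linarith
  have ev : ∀ x, Q (-x) = Q x := by
    intro x
    rw [hQ, hQ, neg_neg, add_comm]
  obtain ⟨B, hB⟩ : ∃ B : Set X, B = {x | Q x ≤ 1} := ⟨_, rfl⟩
  have memB : ∀ x, x ∈ B ↔ Q x ≤ 1 := fun x => by rw [hB]; rfl
  have hBc : Convex ℝ B := by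
    have := hQc.convex_le 1
    rw [hB]
    simpa using this
  have hBball : Metric.ball (0 : X) (1 / 4) ⊆ B := by
    intro x hx
    rw [memB]
    rw [mem_ball_zero_iff] at hx
    have a := hi x
    have b := norm_nonneg x
    nlinarith
  have hBsub : B ⊆ Metric.closedBall (0 : X) (1 / 2) := by
    intro x hx
    rw [memB] at hx
    rw [mem_closedBall_zero_iff]
    have a := lo x
    linarith
  have hB0 : B ∈ nhds (0 : X) :=
    Filter.mem_of_superset (Metric.ball_mem_nhds 0 (by norm_num)) hBball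
  have habs : Absorbent ℝ B := absorbent_nhds_zero hB0
  have hsymm : ∀ x ∈ B, -x ∈ B := by
    intro x hx
    rw [memB] at hx ⊢
    rw [ev]
    exact hx
  have h0B : (0 : X) ∈ B := by
    rw [memB, Q0]
    exact zero_le_one
  have hone : ∀ x, Q x ≤ 1 → gauge B x ≤ 1 := fun x hx => gauge_le_one_of_mem ((memB x).2 hx)
  refine ⟨gauge B, gauge_add_le hBc habs, ?_, ?_, ?_, ?_, ?_⟩
  · intro c x
    rcases le_total 0 c with h | h
    · rw [gauge_smul_of_nonneg h, abs_of_nonneg h, smul_eq_mul]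
    · have e : c • x = (-c) • (-x) := by rw [smul_neg, neg_smul, neg_neg]
      rw [e, gauge_smul_of_nonneg (neg_nonneg.2 h), gauge_neg hsymm, abs_of_nonpos h, smul_eq_mul]
  · intro x
    have := le_gauge_of_subset_closedBall habs (by norm_num : (0 : ℝ) ≤ 1 / 2) hBsub (x := x)
    calc 2 * ‖x‖ = ‖x‖ / (1 / 2) := by ring
      _ ≤ _ := this
  · intro x
    have a := gauge_mono (absorbent_ball_zero (by norm_num : (0 : ℝ) < 1 / 4)) hBball x
    rw [gauge_ball (by norm_num : (0 : ℝ) ≤ 1 / 4)] at a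
    calc gauge B x ≤ ‖x‖ / (1 / 4) := a
      _ = 4 * ‖x‖ := by ring
  · intro x hx
    rw [← hQ] at hx
    exact hone x hx
  · intro x hx
    rw [← hQ]
    have hg : ConvexOn ℝ Set.univ (fun t : ℝ => Q (t • x)) := by
      have := hQc.comp_linearMap (LinearMap.toSpanSingleton ℝ X x)
      simpa [Function.comp_def] using this
    have hgc : Continuous (fun t : ℝ => Q (t • x)) := by
      rw [← continuousOn_univ]
      exact hg.continuousOn isOpen_univ
    have hgN : ∀ t : ℝ, 0 ≤ t → gauge B (t • x) = t := by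
      intro t ht
      rw [gauge_smul_of_nonneg ht, hx, smul_eq_mul, mul_one]
    have hle : Q x ≤ 1 := by
      have h3 : Filter.Tendsto (fun t : ℝ => Q (t • x)) (nhdsWithin 1 (Set.Iio 1))
          (nhds (Q ((1 : ℝ) • x))) := (hgc.tendsto 1).mono_left nhdsWithin_le_nhds
      rw [one_smul] at h3
      refine le_of_tendsto h3 ?_
      filter_upwards [Ioo_mem_nhdsLT (zero_lt_one' ℝ)] with t ht
      have h4 : t • x ∈ {y | gauge B y < 1} := by
        rw [Set.mem_setOf_eq, hgN t ht.1.le]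
        exact ht.2
      exact (memB _).1 (gauge_lt_one_subset_self hBc h0B habs h4)
    refine le_antisymm hle ?_
    by_contra hlt
    push Not at hlt
    have h3 : Filter.Tendsto (fun t : ℝ => Q (t • x)) (nhdsWithin 1 (Set.Ioi 1))
        (nhds (Q ((1 : ℝ) • x))) := (hgc.tendsto 1).mono_left nhdsWithin_le_nhds
    rw [one_smul] at h3
    have h4 := h3.eventually_lt_const hlt
    have h5 : ∀ᶠ t : ℝ in nhdsWithin 1 (Set.Ioi 1), 1 < t := self_mem_nhdsWithin
    obtain ⟨t, h6, h7⟩ := (h4.and h5).exists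
    have h8 := hone _ h6.le
    rw [hgN t (by linarith)] at h8
    linarith

end Pool.Agent.D7

/-! ### GA2 -/
namespace Pool.Agent.D7

theorem ga2_eps {f : ℝ → ℝ} {a : ℝ} (hf : HasDerivAt f a 0) (ε : ℝ) (hε : 0 < ε) :
    ∃ δ > 0, ∀ t : ℝ, |t| < δ → |f t - f 0 - t * a| ≤ ε * |t| := by
  rw [hasDerivAt_iff_isLittleO, Asymptotics.isLittleO_iff] at hf
  obtain ⟨δ, hδ, h⟩ := Metric.eventually_nhds_iff.1 (hf hε)
  refine ⟨δ, hδ, fun t ht => ?_⟩
  have h1 := h (y := t) (by rw [dist_zero_right, Real.norm_eq_abs]; exact ht)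
  simpa only [sub_zero, smul_eq_mul, Real.norm_eq_abs] using h1

theorem ga2_right {f : ℝ → ℝ} {a c : ℝ} (hf : HasDerivAt f a 0)
    (h : ∀ t : ℝ, 0 < t → f 0 + t * c ≤ f t) : c ≤ a := by
  by_contra hcon
  rw [not_le] at hcon
  obtain ⟨δ, hδ, h1⟩ := ga2_eps hf ((c - a) / 2) (by linarith)
  have h2 := h (δ / 2) (by linarith)
  have h3 := h1 (δ / 2) (by rw [abs_of_pos (by linarith)]; linarith)
  rw [abs_of_pos (by linarith : 0 < δ / 2)] at h3
  have h4 := (abs_le.1 h3).2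
  nlinarith

theorem ga2_one {X : Type} [NormedAddCommGroup X] [NormedSpace ℝ X] (Q : X → ℝ)
    (hQ : ConvexOn ℝ Set.univ Q) (N : X → ℝ) (h4 : ∀ (c : ℝ) x, N (c • x) = |c| * N x)
    (h5 : ∀ x, Q x ≤ 1 → N x ≤ 1) (x : X) (hQ1 : Q x = 1) (v : X) (d κ : ℝ) (hκ : 1 ≤ κ)
    (hd : HasDerivAt (fun t : ℝ => Q (x + t • v)) d 0)
    (hk : HasDerivAt (fun t : ℝ => Q (x + t • x)) κ 0) (ε : ℝ) (hε : 0 < ε) :
    ∃ δ > 0, ∀ μ : ℝ, 0 < μ → μ < δ → N (x + μ • v) ≤ 1 + μ * (d / κ + ε) := by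
  have hκ0 : 0 < κ := by linarith
  obtain ⟨c, hc⟩ : ∃ c, c = d / κ + ε := ⟨_, rfl⟩
  have hdc : d - c * κ = -(ε * κ) := by
    rw [hc]
    field_simp
    ring
  obtain ⟨η, hη⟩ : ∃ η, η = ε * κ / (1 + |c|) := ⟨_, rfl⟩
  have hc1 : 0 < 1 + |c| := by positivity
  have hη0 : 0 < η := by rw [hη]; positivity
  have hη1 : η * (1 + |c|) = ε * κ := by rw [hη]; field_simp
  obtain ⟨δ1, hδ1, h1⟩ := ga2_eps hd η hη0
  obtain ⟨δ2, hδ2, h2⟩ := ga2_eps hk η hη0
  simp only [zero_smul, add_zero, hQ1] at h1 h2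
  refine ⟨min (min δ1 δ2) 1 / (4 * (1 + |c|)), by positivity, fun μ hμ hμδ => ?_⟩
  rw [← hc]
  rw [lt_div_iff₀ (by positivity)] at hμδ
  have hm1 : μ * (4 * (1 + |c|)) < δ1 := hμδ.trans_le ((min_le_left _ _).trans (min_le_left _ _))
  have hm2 : μ * (4 * (1 + |c|)) < δ2 := hμδ.trans_le ((min_le_left _ _).trans (min_le_right _ _))
  have hm3 : μ * (4 * (1 + |c|)) < 1 := hμδ.trans_le (min_le_right _ _)
  have hca := abs_nonneg c
  have hμc : |μ * c| = μ * |c| := by rw [abs_mul, abs_of_pos hμ]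
  have hmc := abs_le.1 (le_refl |μ * c|)
  rw [hμc] at hmc
  have hμc0 : 0 ≤ μ * |c| := by positivity
  have hexp : μ * (4 * (1 + |c|)) = 4 * μ + 4 * (μ * |c|) := by ring
  rw [hexp] at hm1 hm2 hm3
  have hpos : 1 / 2 ≤ 1 + μ * c := by linarith [hmc.1]
  have hpos' : 0 < 1 + μ * c := by linarith
  obtain ⟨t, ht⟩ : ∃ t, t = μ / (1 + μ * c) := ⟨_, rfl⟩
  have ht0 : 0 < t := by rw [ht]; positivity
  have ht2 : t ≤ 2 * μ := by
    rw [ht, div_le_iff₀ hpos']
    have e0 := mul_le_mul_of_nonneg_left hpos (by linarith : 0 ≤ 2 * μ)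
    linarith
  have htc : t * (1 + μ * c) = μ := by rw [ht]; field_simp
  obtain ⟨z, hz⟩ : ∃ z, z = x + t • (v - c • x) := ⟨_, rfl⟩
  have hz1 : z = (1 / 2 : ℝ) • (x + (2 * t) • v) + (1 / 2 : ℝ) • (x + (-(2 * t * c)) • x) := by
    rw [hz]
    module
  have hQz : Q z ≤ 1 := by
    have e1 := hQ.2 (Set.mem_univ (x + (2 * t) • v)) (Set.mem_univ (x + (-(2 * t * c)) • x))
      (by norm_num : (0 : ℝ) ≤ 1 / 2) (by norm_num : (0 : ℝ) ≤ 1 / 2) (by norm_num)
    rw [← hz1, smul_eq_mul, smul_eq_mul] at e1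
    have a1 : |2 * t| = 2 * t := abs_of_pos (by linarith)
    have a2 : |-(2 * t * c)| = 2 * t * |c| := by rw [abs_neg, abs_mul, a1]
    have ht3 : t * |c| ≤ 2 * μ * |c| := mul_le_mul_of_nonneg_right ht2 hca
    have ht4 : 2 * t * |c| = 2 * (t * |c|) := by ring
    have ht5 : 2 * μ * |c| = 2 * (μ * |c|) := by ring
    have e2 := h1 (2 * t) (by rw [a1]; linarith)
    have e3 := h2 (-(2 * t * c)) (by rw [a2, ht4]; linarith)
    rw [a1] at e2
    rw [a2] at e3
    have e4 := (abs_le.1 e2).2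
    have e5 := (abs_le.1 e3).2
    have e6 : Q z ≤ 1 + t * (d - c * κ) + t * (η * (1 + |c|)) := by linarith
    rw [hdc, hη1] at e6
    linarith
  have hxz : x + μ • v = (1 + μ * c) • z := by
    rw [hz]
    have e1 : (1 + μ * c) • (x + t • (v - c • x)) =
        ((1 + μ * c) - (t * (1 + μ * c)) * c) • x + (t * (1 + μ * c)) • v := by module
    rw [e1, htc]
    module
  rw [hxz, h4, abs_of_pos hpos']
  calc (1 + μ * c) * N z ≤ (1 + μ * c) * 1 := mul_le_mul_of_nonneg_left (h5 z hQz) hpos'.le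
    _ = 1 + μ * c := mul_one _

theorem gauge_estimate {X : Type} [NormedAddCommGroup X] [NormedSpace ℝ X] (P : X → ℝ)
    (hP : ConvexOn ℝ Set.univ P) (h1 : ∀ x, ‖x‖ ≤ P x) (h2 : ∀ x, P x ≤ ‖x‖ + ‖x‖ ^ 2)
    (h3 : ∀ x, x ≠ 0 → ∀ v : X, ∃ a : ℝ, HasDerivAt (fun t : ℝ => P (x + t • v)) a 0)
    (N : X → ℝ) (h4 : ∀ (c : ℝ) x, N (c • x) = |c| * N x)
    (h5 : ∀ x, P x + P (-x) ≤ 1 → N x ≤ 1) (h6 : ∀ x, N x = 1 → P x + P (-x) = 1)
    (x : X) (hx : x ≠ 0) (hx1 : N x = 1) (v : X) :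
    ∃ a : ℝ, (∀ ε : ℝ, 0 < ε → ∃ δ > 0, ∀ μ : ℝ, 0 < μ → μ < δ →
      N (x + μ • v) ≤ 1 + μ * (a + ε)) ∧
      (∀ ε : ℝ, 0 < ε → ∃ δ > 0, ∀ μ : ℝ, 0 < μ → μ < δ →
      N (x + μ • (-v)) ≤ 1 + μ * (-a + ε)) := by
  have hP0 : P 0 = 0 := by
    have e1 := h1 0
    have e2 := h2 0
    rw [norm_zero] at e1 e2
    linarith
  have hQ : ConvexOn ℝ Set.univ (fun y => P y + P (-y)) := by
    refine hP.add ?_
    refine ⟨convex_univ, fun y _ z _ a b ha hb hab => ?_⟩
    have e1 := hP.2 (Set.mem_univ (-y)) (Set.mem_univ (-z)) ha hb hab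
    have e2 : -(a • y + b • z) = a • (-y) + b • (-z) := by module
    show P (-(a • y + b • z)) ≤ a • P (-y) + b • P (-z)
    rw [e2]
    exact e1
  have hD : ∀ v : X, ∃ d : ℝ, HasDerivAt (fun t : ℝ => P (x + t • v) + P (-(x + t • v))) d 0 := by
    intro v
    obtain ⟨a1, ha1⟩ := h3 x hx v
    obtain ⟨a2, ha2⟩ := h3 (-x) (neg_ne_zero.2 hx) (-v)
    refine ⟨a1 + a2, ha1.add ?_⟩
    have e : (fun t : ℝ => P (-(x + t • v))) = fun t : ℝ => P (-x + t • (-v)) := by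
      funext t
      congr 1
      module
    rw [e]
    exact ha2
  choose D hD using hD
  have hx1' := h6 x hx1
  have hκ : 1 ≤ D x := by
    refine ga2_right (hD x) (fun t ht => ?_)
    have e1 := hQ.2 (Set.mem_univ (x + (-1 : ℝ) • x)) (Set.mem_univ (x + t • x))
      (by positivity : (0 : ℝ) ≤ t / (1 + t)) (by positivity : (0 : ℝ) ≤ 1 / (1 + t))
      (by field_simp; ring)
    have e2 : (t / (1 + t)) • (x + (-1 : ℝ) • x) + (1 / (1 + t)) • (x + t • x) = x := by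
      have e3 : x + (-1 : ℝ) • x = 0 := by module
      have e4 : x + t • x = (1 + t) • x := by module
      rw [e3, e4, smul_zero, zero_add, smul_smul, one_div, inv_mul_cancel₀ (by linarith), one_smul]
    have e5 : x + (-1 : ℝ) • x = 0 := by module
    rw [e2, e5] at e1
    simp only [neg_zero, hP0, add_zero, smul_eq_mul, mul_zero, zero_add] at e1
    rw [hx1', one_div, ← div_eq_inv_mul, le_div_iff₀ (by linarith)] at e1
    simp only [zero_smul, add_zero, hx1']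
    linarith
  have hneg : D (-v) = - D v := by
    have e1 : HasDerivAt (fun t : ℝ => P (x + (-t) • v) + P (-(x + (-t) • v))) (D v * (-1)) 0 := by
      have e2 : HasDerivAt (fun t : ℝ => P (x + t • v) + P (-(x + t • v))) (D v) (-0) := by
        rw [neg_zero]
        exact hD v
      exact HasDerivAt.comp (h₂ := fun t : ℝ => P (x + t • v) + P (-(x + t • v))) 0 e2
        (hasDerivAt_neg (0 : ℝ))
    have e3 : (fun t : ℝ => P (x + (-t) • v) + P (-(x + (-t) • v))) =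
        fun t : ℝ => P (x + t • (-v)) + P (-(x + t • (-v))) := by
      funext t
      rw [neg_smul, smul_neg]
    rw [e3] at e1
    rw [(hD (-v)).unique e1]
    ring
  refine ⟨D v / D x, ?_, ?_⟩
  · intro ε hε
    exact ga2_one _ hQ N h4 h5 x hx1' v (D v) (D x) hκ (hD v) (hD x) ε hε
  · intro ε hε
    have e1 := ga2_one _ hQ N h4 h5 x hx1' (-v) (D (-v)) (D x) hκ (hD (-v)) (hD x) ε hε
    rw [hneg, neg_div] at e1
    exact e1

end Pool.Agent.D7

/-! ### GA3 -/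
namespace Pool.Agent.D7

theorem norm_deriv {X : Type} [NormedAddCommGroup X] [NormedSpace ℝ X] (N : X → ℝ)
    (hadd : ∀ x y, N (x + y) ≤ N x + N y) (hhom : ∀ (c : ℝ) x, N (c • x) = |c| * N x)
    (x v : X) (hx1 : N x = 1) (a : ℝ)
    (hu : ∀ ε : ℝ, 0 < ε → ∃ δ > 0, ∀ μ : ℝ, 0 < μ → μ < δ → N (x + μ • v) ≤ 1 + μ * (a + ε))
    (hl : ∀ ε : ℝ, 0 < ε → ∃ δ > 0, ∀ μ : ℝ, 0 < μ → μ < δ →
      N (x + μ • (-v)) ≤ 1 + μ * (-a + ε)) :
    HasDerivAt (fun t : ℝ => N (x + t • v)) a 0 := by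
  rw [hasDerivAt_iff_isLittleO, Asymptotics.isLittleO_iff]
  intro ε hε
  obtain ⟨δ1, hδ1, h1⟩ := hu ε hε
  obtain ⟨δ2, hδ2, h2⟩ := hl ε hε
  filter_upwards [Metric.ball_mem_nhds (0 : ℝ) (lt_min hδ1 hδ2)] with t ht
  rw [Metric.mem_ball, dist_zero_right, Real.norm_eq_abs] at ht
  have ht1 : |t| < δ1 := ht.trans_le (min_le_left _ _)
  have ht2 : |t| < δ2 := ht.trans_le (min_le_right _ _)
  have hmid : ∀ μ : ℝ, 2 ≤ N (x + μ • v) + N (x + μ • (-v)) := by
    intro μ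
    have h3 := hadd (x + μ • v) (x + μ • (-v))
    have h4 : x + μ • v + (x + μ • (-v)) = (2 : ℝ) • x := by
      rw [smul_neg, two_smul]
      abel
    rw [h4, hhom, hx1, abs_two, mul_one] at h3
    exact h3
  simp only [sub_zero, zero_smul, add_zero, hx1, smul_eq_mul, Real.norm_eq_abs]
  rcases lt_trichotomy t 0 with hneg | rfl | hpos
  · rw [abs_of_neg hneg] at ht1 ht2 ⊢
    have e1 := h1 (-t) (by linarith) ht1
    have e2 := h2 (-t) (by linarith) ht2
    have e3 := hmid t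
    rw [smul_neg, neg_smul, neg_neg] at e2
    have e4 : x + (-t) • v = x + t • (-v) := by rw [neg_smul, smul_neg]
    rw [e4] at e1
    rw [abs_le]
    constructor <;> nlinarith
  · simp [hx1]
  · rw [abs_of_pos hpos] at ht1 ht2 ⊢
    have e1 := h1 t hpos ht1
    have e2 := h2 t hpos ht2
    have e3 := hmid t
    rw [abs_le]
    constructor <;> nlinarith

theorem deriv_linear {X : Type} [NormedAddCommGroup X] [NormedSpace ℝ X] (N : X → ℝ)
    (hadd : ∀ x y, N (x + y) ≤ N x + N y) (hhom : ∀ (c : ℝ) x, N (c • x) = |c| * N x)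
    (hup : ∀ x, N x ≤ 4 * ‖x‖) (x : X)
    (h : ∀ v, ∃ a : ℝ, HasDerivAt (fun t : ℝ => N (x + t • v)) a 0) :
    ∃ L : X →L[ℝ] ℝ, ∀ v : X, HasDerivAt (fun t : ℝ => N (x + t • v)) (L v) 0 := by
  choose D hD using h
  have hsmul : ∀ (c : ℝ) (v : X), D (c • v) = c * D v := by
    intro c v
    have h1 : HasDerivAt (fun t : ℝ => N (x + (t * c) • v)) (D v * c) 0 := by
      have h2 : HasDerivAt (fun t : ℝ => t * c) c 0 := by
        simpa using (hasDerivAt_id (0 : ℝ)).mul_const c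
      have h3 : HasDerivAt (fun t : ℝ => N (x + t • v)) (D v) (0 * c) := by
        rw [zero_mul]
        exact hD v
      exact HasDerivAt.comp (h₂ := fun t : ℝ => N (x + t • v)) 0 h3 h2
    have h4 : (fun t : ℝ => N (x + t • (c • v))) = fun t : ℝ => N (x + (t * c) • v) := by
      funext t
      rw [smul_smul]
    have h5 := hD (c • v)
    rw [h4] at h5
    rw [h5.unique h1, mul_comm]
  have hle : ∀ v w : X, D (v + w) ≤ D v + D w := by
    intro v w
    have h1 : HasDerivAt (fun t : ℝ => N (x + t • ((2 : ℝ) • v)) / 2 + N (x + t • ((2 : ℝ) • w)) / 2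
        - N (x + t • (v + w))) (D ((2 : ℝ) • v) / 2 + D ((2 : ℝ) • w) / 2 - D (v + w)) 0 :=
      (((hD ((2 : ℝ) • v)).div_const 2).add ((hD ((2 : ℝ) • w)).div_const 2)).sub (hD (v + w))
    have h2 : ∀ t : ℝ, 0 ≤ N (x + t • ((2 : ℝ) • v)) / 2 + N (x + t • ((2 : ℝ) • w)) / 2
        - N (x + t • (v + w)) := by
      intro t
      have h3 := hadd ((1 / 2 : ℝ) • (x + t • ((2 : ℝ) • v))) ((1 / 2 : ℝ) • (x + t • ((2 : ℝ) • w)))
      have h4 : (1 / 2 : ℝ) • (x + t • ((2 : ℝ) • v)) + (1 / 2 : ℝ) • (x + t • ((2 : ℝ) • w)) =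
          x + t • (v + w) := by
        module
      rw [h4, hhom, hhom, abs_of_pos (by norm_num : (0 : ℝ) < 1 / 2)] at h3
      linarith
    have h5 : IsLocalMin (fun t : ℝ => N (x + t • ((2 : ℝ) • v)) / 2 + N (x + t • ((2 : ℝ) • w)) / 2
        - N (x + t • (v + w))) 0 := by
      refine Filter.Eventually.of_forall (fun t => ?_)
      have h6 : N (x + (0 : ℝ) • ((2 : ℝ) • v)) / 2 + N (x + (0 : ℝ) • ((2 : ℝ) • w)) / 2
        - N (x + (0 : ℝ) • (v + w)) = 0 := by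
        simp only [zero_smul, add_zero]
        ring
      show N (x + (0 : ℝ) • ((2 : ℝ) • v)) / 2 + N (x + (0 : ℝ) • ((2 : ℝ) • w)) / 2
        - N (x + (0 : ℝ) • (v + w)) ≤ _
      rw [h6]
      exact h2 t
    have h7 := h5.hasDerivAt_eq_zero h1
    rw [hsmul, hsmul] at h7
    linarith
  have hneg : ∀ v : X, D (-v) = - D v := by
    intro v
    have := hsmul (-1) v
    rw [neg_one_smul] at this
    linarith
  have hadd' : ∀ v w : X, D (v + w) = D v + D w := by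
    intro v w
    refine le_antisymm (hle v w) ?_
    have h1 := hle (-v) (-w)
    rw [← neg_add, hneg, hneg, hneg] at h1
    linarith
  have hbd : ∀ v : X, ‖D v‖ ≤ 4 * ‖v‖ := by
    intro v
    have hlip : ∀ t : ℝ, |N (x + t • v) - N x| ≤ (4 * ‖v‖) * |t| := by
      intro t
      have e1 := hadd x (t • v)
      have e2 := hadd (x + t • v) (-(t • v))
      rw [add_neg_cancel_right] at e2
      have e3 : N (-(t • v)) = N (t • v) := by
        have := hhom (-1) (t • v)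
        rw [neg_one_smul, abs_neg, abs_one, one_mul] at this
        exact this
      rw [e3] at e2
      have e4 : N (t • v) ≤ (4 * ‖v‖) * |t| := by
        rw [hhom]
        calc |t| * N v ≤ |t| * (4 * ‖v‖) := mul_le_mul_of_nonneg_left (hup v) (abs_nonneg _)
          _ = (4 * ‖v‖) * |t| := by ring
      rw [abs_le]
      constructor <;> linarith
    have h1 := hD v
    refine h1.le_of_lip' (by positivity) (Filter.Eventually.of_forall (fun t => ?_))
    have := hlip t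
    simpa [Real.norm_eq_abs] using this
  refine ⟨LinearMap.mkContinuous { toFun := D, map_add' := hadd', map_smul' := hsmul } 4 hbd, ?_⟩
  intro v
  exact hD v

end Pool.Agent.D7

/-! ### GA4 -/
namespace Pool.Agent.D7

theorem exists_norm {X : Type} [NormedAddCommGroup X] [NormedSpace ℝ X] (P : X → ℝ)
    (hP : ConvexOn ℝ Set.univ P) (h1 : ∀ x, ‖x‖ ≤ P x) (h2 : ∀ x, P x ≤ ‖x‖ + ‖x‖ ^ 2)
    (h3 : ∀ x, x ≠ 0 → ∀ v : X, ∃ a : ℝ, HasDerivAt (fun t : ℝ => P (x + t • v)) a 0) :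
    ∃ N : X → ℝ, (∀ x y : X, N (x + y) ≤ N x + N y) ∧
      (∀ (c : ℝ) (x : X), N (c • x) = |c| * N x) ∧
      (∃ a c : ℝ, 0 < a ∧ 0 < c ∧ ∀ x : X, a * ‖x‖ ≤ N x ∧ N x ≤ c * ‖x‖) ∧
      ∀ x : X, x ≠ 0 → ∃ L : X →L[ℝ] ℝ, ∀ h : X,
        HasDerivAt (fun t : ℝ => N (x + t • h)) (L h) 0 := by
  obtain ⟨N, hadd, hhom, hlo, hup, h5, h6⟩ := gauge_facts P hP h1 h2
  refine ⟨N, hadd, hhom, ⟨2, 4, by norm_num, by norm_num, fun x => ⟨hlo x, hup x⟩⟩, ?_⟩
  intro x hx
  refine deriv_linear N hadd hhom hup x ?_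
  intro v
  have hr : 0 < N x := by
    have h7 := hlo x
    have h8 : 0 < ‖x‖ := norm_pos_iff.mpr hx
    linarith
  have hx1 : N ((N x)⁻¹ • x) = 1 := by
    rw [hhom, abs_of_pos (inv_pos.mpr hr), inv_mul_cancel₀ hr.ne']
  have hx0 : (N x)⁻¹ • x ≠ 0 := smul_ne_zero (inv_ne_zero hr.ne') hx
  obtain ⟨a, ha1, ha2⟩ := gauge_estimate P hP h1 h2 h3 N hhom h5 h6 _ hx0 hx1 ((N x)⁻¹ • v)
  have hd := norm_deriv N hadd hhom _ _ hx1 a ha1 ha2
  refine ⟨N x * a, ?_⟩
  have he : (fun t : ℝ => N (x + t • v)) =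
      fun t : ℝ => N x * N ((N x)⁻¹ • x + t • ((N x)⁻¹ • v)) := by
    funext t
    have h9 : (N x)⁻¹ • x + t • ((N x)⁻¹ • v) = (N x)⁻¹ • (x + t • v) := by
      rw [smul_add, smul_comm]
    rw [h9, hhom, abs_of_pos (inv_pos.mpr hr), ← mul_assoc, mul_inv_cancel₀ hr.ne', one_mul]
  rw [he]
  exact hd.const_mul (N x)

end Pool.Agent.D7

/-! ### FI1 -/
namespace Pool.Agent.D7

theorem exists_Bump {X : Type} [NormedAddCommGroup X] [NormedSpace ℝ X] (b : X → ℝ)
    (hK : ∃ K, LipschitzWith K b) (hne : ∃ x, b x ≠ 0)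
    (hb : Bornology.IsBounded (Function.support b))
    (hd : ∀ x : X, ∃ L : X →L[ℝ] ℝ, ∀ h : X, HasDerivAt (fun t : ℝ => b (x + t • h)) (L h) 0) :
    ∃ (Ω : Set X) (ψ : X → ℝ) (R : ℝ), Bump Ω ψ R := by
  obtain ⟨x₀, hx₀⟩ := hne
  obtain ⟨K, hK⟩ := hK
  have hbc : Continuous b := hK.continuous
  have hc : Continuous (fun y : X => b (y + x₀)) := hbc.comp (by fun_prop)
  obtain ⟨R₀, hR₀⟩ := isBounded_iff_forall_norm_le.1 hb
  refine ⟨{y | b (y + x₀) ≠ 0}, fun y => 1 / (b (y + x₀)) ^ 2, |R₀| + ‖x₀‖ + 1, ?_, ?_, ?_, ?_, ?_, ?_, ?_, ?_⟩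
  · positivity
  · show b (0 + x₀) ≠ 0
    rwa [zero_add]
  · exact isOpen_ne.preimage hc
  · intro y hy
    have h1 : ‖y + x₀‖ ≤ R₀ := hR₀ _ hy
    have h2 : ‖y‖ ≤ ‖y + x₀‖ + ‖x₀‖ := by
      have h3 := norm_sub_le (y + x₀) x₀
      rwa [add_sub_cancel_right] at h3
    have h4 := le_abs_self R₀
    linarith
  · intro y
    positivity
  · refine ContinuousOn.div continuousOn_const (hc.pow 2).continuousOn ?_
    intro y hy
    exact pow_ne_zero 2 hy
  · intro C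
    by_cases hC : 0 < C
    · have h1 : {y : X | y ∈ {y : X | b (y + x₀) ≠ 0} ∧ 1 / (b (y + x₀)) ^ 2 ≤ C} =
          {y : X | 1 / C ≤ (b (y + x₀)) ^ 2} := by
        ext y
        simp only [Set.mem_setOf_eq]
        constructor
        · rintro ⟨h2, h3⟩
          have h4 : 0 < (b (y + x₀)) ^ 2 := by positivity
          rw [div_le_iff₀ h4] at h3
          rw [div_le_iff₀ hC]
          linarith
        · intro h2
          have h5 : 0 < (b (y + x₀)) ^ 2 := lt_of_lt_of_le (by positivity) h2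
          refine ⟨fun h6 => ?_, ?_⟩
          · rw [h6] at h5
            norm_num at h5
          · rw [div_le_iff₀ hC] at h2
            rw [div_le_iff₀ h5]
            linarith
      rw [h1]
      exact isClosed_le continuous_const (hc.pow 2)
    · have h1 : {y : X | y ∈ {y : X | b (y + x₀) ≠ 0} ∧ 1 / (b (y + x₀)) ^ 2 ≤ C} = ∅ := by
        ext y
        simp only [Set.mem_setOf_eq, Set.mem_empty_iff_false, iff_false, not_and, not_le]
        intro h2
        have h4 : 0 < 1 / (b (y + x₀)) ^ 2 := by positivity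
        linarith
      rw [h1]
      exact isClosed_empty
  · intro y hy v
    obtain ⟨L, hL⟩ := hd (y + x₀)
    have h1 := hL v
    have h2 : (fun t : ℝ => b (y + x₀ + t • v)) = fun t : ℝ => b (y + t • v + x₀) := by
      funext t
      congr 1
      abel
    rw [h2] at h1
    have h3 : b (y + (0 : ℝ) • v + x₀) ≠ 0 := by
      rw [zero_smul, add_zero]
      exact hy
    have h4 := (h1.pow 2).inv (pow_ne_zero 2 h3)
    refine ⟨_, h4.congr_of_eventuallyEq (Filter.Eventually.of_forall fun t => ?_)⟩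
    show 1 / (b (y + t • v + x₀)) ^ 2 = ((b (y + t • v + x₀)) ^ 2)⁻¹
    rw [one_div]

end Pool.Agent.D7

/-! ### FI2 -/
namespace Pool.Agent.D7

theorem exists_L2 (I : Type) :
    ∃ (H : Type) (_ : NormedAddCommGroup H) (_ : InnerProductSpace ℝ H) (_ : CompleteSpace H)
      (j : H →ₗ[ℝ] (I → ℝ)), L2Data j := by
  classical
  refine ⟨lp (fun _ : I => ℝ) 2, inferInstance, inferInstance, inferInstance,
    { toFun := fun u i => u i
      map_add' := fun u v => rfl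
      map_smul' := fun c u => rfl }, ?_, ?_, ?_⟩
  · intro u i
    have h := lp.norm_apply_le_norm (p := 2) (by norm_num) u i
    rwa [Real.norm_eq_abs] at h
  · intro u ε hε
    have h1 : Summable fun i => ‖(u : I → ℝ) i‖ ^ ((2 : ENNReal).toReal) :=
      (lp.memℓp u).summable (by norm_num)
    have h2 := h1.tendsto_cofinite_zero
    have h3 := h2.eventually (gt_mem_nhds (show (0 : ℝ) < ε ^ 2 by positivity))
    rw [Filter.eventually_cofinite] at h3
    refine h3.subset fun i hi => ?_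
    simp only [Set.mem_ofPred_eq, not_lt] at hi ⊢
    have h4 : ‖(u : I → ℝ) i‖ ^ ((2 : ENNReal).toReal) = |(u : I → ℝ) i| ^ 2 := by
      rw [Real.norm_eq_abs]
      norm_num
    rw [h4]
    exact pow_le_pow_left₀ hε.le hi 2
  · intro i
    refine ⟨lp.single 2 i (1 : ℝ), ?_, ?_, ?_, ?_⟩
    · intro i' hi'
      show (lp.single 2 i (1 : ℝ) : lp (fun _ : I => ℝ) 2) i' = 0
      rw [lp.single_apply_ne _ _ _ hi']
    · show (lp.single 2 i (1 : ℝ) : lp (fun _ : I => ℝ) 2) i = 1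
      rw [lp.single_apply_self]
    · rw [lp.norm_single (by norm_num)]
      norm_num
    · intro u
      show inner ℝ u (lp.single 2 i (1 : ℝ)) = (u : I → ℝ) i
      rw [lp.inner_single_right]
      simp
end Pool.Agent.D7
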