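import Pool.Agent.Lib.MP_d74bc6_an.D02
import Pool.Agent.Lib.MP_d74bc6_an.D03
import Pool.Agent.Lib.MP_d74bc6_an.D05
import Pool.Agent.Lib.MP_d74bc6_an.D07
import Pool.Agent.Lib.MP_d74bc6_an.D08
import Pool.Agent.Lib.MP_d74bc6_an.D09

set_option autoImplicit false

/-! ### FI3 -/
namespace Pool.Agent.D7

theorem fi3_unique {X Γ : Type} [NormedAddCommGroup X] [NormedSpace ℝ X] [CompleteSpace X]
    (Φ : KB X → Γ → ℝ) (hc : Continuous Φ) (hi : Function.Injective Φ)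
    (h0 : Φ (zeroKB X) = 0) (hcs : ∀ k, {γ | Φ k γ ≠ 0}.Countable)
    {Ω : Set X} {ψ : X → ℝ} {R : ℝ} (hb : Bump Ω ψ R) :
    ∃ P : X → ℝ, ConvexOn ℝ Set.univ P ∧ (∀ x, ‖x‖ ≤ P x) ∧ (∀ x, P x ≤ ‖x‖ + ‖x‖ ^ 2) ∧
      ∀ x, x ≠ 0 → ∀ v : X, ∃ a : ℝ, HasDerivAt (fun t : ℝ => P (x + t • v)) a 0 := by
  classical
  obtain ⟨w, Q, hs⟩ := exists_sys Φ hc hi h0 hcs Ω ψ
  obtain ⟨T', hT1, hT2, hT3, hT4⟩ := exists_T hc hi hs.wc hs.adm
  obtain ⟨S, hS⟩ := exists_S hs hb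
  obtain ⟨H, i1, i2, i3, j, hj⟩ := exists_L2 (List Γ × ℕ)
  let ev : X →ₗ[ℝ] (KB X → ℝ) :=
    { toFun := fun x f => f.1 x
      map_add' := fun x y => by funext f; exact map_add f.1 x y
      map_smul' := fun c x => by funext f; simp }
  have hev : ∀ x f, ev x f = f.1 x := fun x f => rfl
  have hevc : ∀ x, Continuous (ev x) := fun x => KB.continuous_eval x
  refine exists_Phi0 (I := List Γ × ℕ) (Q := fun (s : List Γ × ℕ → ℝ) f => Qc (Cf S f) s)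
    (qdata S hS.nonneg hS.le_one hS.lsc) (T := T'.comp ev) (fun x => hT2 _ (hevc x))
    (fun x i => hT1 (ev x) ‖x‖ (norm_nonneg x) (fun f => f.2 x) i) hj ?_
  intro x s hx hs0 hsupp
  -- some coordinate of `T x` does not vanish
  have hne : ∃ i, (T'.comp ev) x i ≠ 0 := by
    by_contra hcon
    push Not at hcon
    have h1 : ∀ f : KB X, f.1 x = 0 := fun f => hT3 (ev x) (hevc x) hcon f
    obtain ⟨f, hf⟩ := KB.norming x
    rw [h1 f] at hf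
    exact hx (norm_eq_zero.mp hf.symm)
  obtain ⟨i₀, hi₀⟩ := hne
  have hxA : x ∈ XA Φ (AF w {i | s i ≠ 0}) := by
    intro f
    have h := hT4 (ev x) (hevc x) (AF w {i | s i ≠ 0}) (isCl_cl _) (fun i hi γ hγ =>
      subset_cl _ ⟨i, hsupp i hi, hγ⟩) f
    exact h.symm
  exact unique_max hs hb hS x s hs0 ⟨i₀, hsupp i₀ hi₀⟩ hxA

theorem main (X : Type) [NormedAddCommGroup X] [NormedSpace ℝ X] [CompleteSpace X]
    (hcor : ∃ (Γ : Type) (f : {φ : WeakDual ℝ X // ∀ x : X, |φ x| ≤ ‖x‖} → (Γ → ℝ)),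
      Topology.IsEmbedding f ∧ ∀ φ, {γ : Γ | f φ γ ≠ 0}.Countable)
    (hbump : ∃ b : X → ℝ, (∃ K, LipschitzWith K b) ∧ (∃ x, b x ≠ 0) ∧
      Bornology.IsBounded (Function.support b) ∧
      ∀ x : X, ∃ L : X →L[ℝ] ℝ, ∀ h : X,
        HasDerivAt (fun t : ℝ => b (x + t • h)) (L h) 0) :
    ∃ N : X → ℝ, (∀ x y : X, N (x + y) ≤ N x + N y) ∧
      (∀ (c : ℝ) (x : X), N (c • x) = |c| * N x) ∧
      (∃ a c : ℝ, 0 < a ∧ 0 < c ∧ ∀ x : X, a * ‖x‖ ≤ N x ∧ N x ≤ c * ‖x‖) ∧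
      ∀ x : X, x ≠ 0 → ∃ L : X →L[ℝ] ℝ, ∀ h : X,
        HasDerivAt (fun t : ℝ => N (x + t • h)) (L h) 0 := by
  obtain ⟨Γ, f, hf, hcs⟩ := hcor
  obtain ⟨b, hK, hne, hbd, hd⟩ := hbump
  obtain ⟨Ω, ψ, R, hb⟩ := exists_Bump b hK hne hbd hd
  let Φ : KB X → Γ → ℝ := fun φ γ => f φ γ - f (zeroKB X) γ
  have hc : Continuous Φ := by
    have h1 : Continuous f := hf.continuous
    have h2 : Φ = fun φ => f φ - f (zeroKB X) := rfl
    rw [h2]
    exact h1.sub continuous_const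
  have hi : Function.Injective Φ := by
    intro φ φ' h
    apply hf.injective
    funext γ
    have h3 : f φ γ - f (zeroKB X) γ = f φ' γ - f (zeroKB X) γ := congrFun h γ
    linarith
  have h0 : Φ (zeroKB X) = 0 := by
    funext γ
    exact sub_self _
  have hcs' : ∀ k, {γ | Φ k γ ≠ 0}.Countable := by
    intro k
    refine ((hcs k).union (hcs (zeroKB X))).mono ?_
    intro γ hγ
    by_contra hcon
    simp only [Set.mem_union, Set.mem_ofPred_eq, not_or, not_not] at hcon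
    apply hγ
    show f k γ - f (zeroKB X) γ = 0
    rw [hcon.1, hcon.2, sub_zero]
  obtain ⟨P, hP, h1, h2, h3⟩ := fi3_unique Φ hc hi h0 hcs' hb
  exact exists_norm P hP h1 h2 h3

end Pool.Agent.D7
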